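import Pool.Agent.Work.MP_701abf_gt.FL.TwoStmts

/-!
MP_701abf_gt: the four-line theorem, part `Alg` (classification of the cocycles with values in
the standard comodule).
-/

open MvPolynomial
open Pool.Agent.Work.MP_701abf_gt.Stab Pool.Agent.Work.MP_701abf_gt.Cob

namespace Pool.Agent.Work.MP_701abf_gt.Sq2.FL

noncomputable section

namespace XAlg

lemma ha_zero : ha 0 = h0c := by
  unfold ha
  rw [pow_zero, pow_one]

/-- A power of two which is the sum of two powers of two. -/
lemma pw {a b c : ℕ} (h : (2 : ℤ) ^ c = 2 ^ a + 2 ^ b) : a + 1 = c := by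
  have h' : 2 ^ c = 2 ^ a + 2 ^ b := by exact_mod_cast h
  have key : ∀ x y : ℕ, x < y → 2 ^ c = 2 ^ x + 2 ^ y → False := by
    intro x y hxy hc
    have h1 : 2 ^ x < 2 ^ y := Nat.pow_lt_pow_right one_lt_two hxy
    have h2 : 0 < 2 ^ x := by positivity
    have h3 : 2 ^ y < 2 ^ c := by omega
    have h4 : 2 ^ c < 2 ^ (y + 1) := by rw [pow_succ]; omega
    have h5 := (Nat.pow_lt_pow_iff_right one_lt_two).1 h3
    have h6 := (Nat.pow_lt_pow_iff_right one_lt_two).1 h4
    omega
  rcases lt_trichotomy a b with hab | hab | hab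
  · exact (key a b hab h').elim
  · subst hab
    have h1 : 2 ^ c = 2 ^ (a + 1) := by rw [h', pow_succ]; ring
    exact (Nat.pow_right_injective le_rfl h1).symm
  · exact (key b a hab (by rw [h', add_comm])).elim

/-- The terms of the sum in `Cf.dd`. -/
def tm (j : ℕ) (f : ℕ → RR Empty) (i : ℕ) : RR Empty :=
  if j < i then (gG (ι := Empty) 0).co (i - j) ^ 2 ^ j * sh 1 (f i) else 0

lemma tm_zero {j : ℕ} {f : ℕ → RR Empty} {i : ℕ} (h : f i = 0) : tm j f i = 0 := by
  unfold tm
  rw [h, map_zero, mul_zero, ite_self]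

lemma tm_le {j : ℕ} {f : ℕ → RR Empty} {i : ℕ} (h : i ≤ j) : tm j f i = 0 := by
  unfold tm
  rw [if_neg (by omega)]

lemma tm_add (j : ℕ) (f g : ℕ → RR Empty) (i : ℕ) :
    tm j (fun k => f k + g k) i = tm j f i + tm j g i := by
  unfold tm
  split_ifs
  · rw [map_add, mul_add]
  · rw [add_zero]

lemma sum_le {r s : ℕ} (hrs : r ≤ s) {f : ℕ → RR Empty} (hr : ∀ i, r ≤ i → f i = 0) (j : ℕ) :
    ∑ i ∈ Finset.range r, tm j f i = ∑ i ∈ Finset.range s, tm j f i := by
  refine Finset.sum_subset (Finset.range_mono hrs) fun i _ hi => ?_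
  exact tm_zero (hr i (by simpa using hi))

lemma sum_ext {r s : ℕ} {f : ℕ → RR Empty} (hr : ∀ i, r ≤ i → f i = 0)
    (hs : ∀ i, s ≤ i → f i = 0) (j : ℕ) :
    ∑ i ∈ Finset.range r, tm j f i = ∑ i ∈ Finset.range s, tm j f i := by
  rcases le_total r s with h | h
  · exact sum_le h hr j
  · exact (sum_le h hs j).symm

lemma dd' {M : ℤ} {r : ℕ} {f : ℕ → RR Empty} (h : Cf M r f) (j : ℕ) :
    dE 2 (f j) = ∑ i ∈ Finset.range r, tm j f i := h.dd j

/-- The differential of the coefficient before the last one. -/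
lemma dd1 {M : ℤ} {r : ℕ} {f : ℕ → RR Empty} (h : Cf M r f) {j : ℕ}
    (hj : ∀ i, j + 1 < i → f i = 0) : dE 2 (f j) = ha j * sh 1 (f (j + 1)) := by
  rw [dd' h j, sum_ext (s := j + 2) h.hi (fun i hi => hj i (by omega)) j,
    Finset.sum_range_succ, Finset.sum_eq_zero, zero_add]
  · unfold tm
    rw [if_pos (by omega), show j + 1 - j = 1 by omega]
    rfl
  · intro i hi
    exact tm_le (by have := Finset.mem_range.1 hi; omega)

/-- The differential of the second coefficient before the last one. -/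
lemma dd2 {M : ℤ} {r : ℕ} {f : ℕ → RR Empty} (h : Cf M r f) {j : ℕ}
    (hj : ∀ i, j + 2 < i → f i = 0) : dE 2 (f j) = ha j * sh 1 (f (j + 1)) +
      (gG (ι := Empty) 0).co 2 ^ 2 ^ j * sh 1 (f (j + 2)) := by
  rw [dd' h j, sum_ext (s := j + 3) h.hi (fun i hi => hj i (by omega)) j,
    Finset.sum_range_succ, Finset.sum_range_succ, Finset.sum_eq_zero, zero_add]
  · unfold tm
    rw [if_pos (by omega), if_pos (by omega), show j + 1 - j = 1 by omega,
      show j + 2 - j = 2 by omega]
    rfl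
  · intro i hi
    exact tm_le (by have := Finset.mem_range.1 hi; omega)

/-- Sums. -/
lemma cf_add {M : ℤ} {r s : ℕ} {f g : ℕ → RR Empty} (h : Cf M r f) (h' : Cf M s g) :
    Cf M (r + s) (fun i => f i + g i) where
  lv i := Submodule.add_mem _ (h.lv i) (h'.lv i)
  wh i := (h.wh i).add (h'.wh i)
  hi i hi := by
    rw [h.hi i (by omega), h'.hi i (by omega), add_zero]
  dd j := by
    change dE 2 (f j + g j) = ∑ i ∈ Finset.range (r + s), tm j (fun k => f k + g k) i
    rw [map_add, dd' h j, dd' h' j, sum_le (s := r + s) (Nat.le_add_right r s) h.hi j,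
      sum_le (s := r + s) (Nat.le_add_left s r) h'.hi j, ← Finset.sum_add_distrib]
    exact Finset.sum_congr rfl fun i _ => (tm_add j f g i).symm

lemma cw_last (b : ℕ) : cw (b + 1) b = ha b := by
  unfold cw
  rw [if_pos (by omega), show b + 1 - b = 1 by omega]
  rfl

end XAlg

open XAlg in
theorem pr_Alg : S_Alg := by
  intro hTop hCwb hMas hNv M r f hf
  rcases hTop M r f hf with h0 | ⟨r0, b, hr, hhi, hM, hfr⟩
  · exact Or.inl h0
  right
  rcases Nat.eq_zero_or_pos r0 with rfl | hpos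
  · rcases Nat.eq_zero_or_pos b with rfl | hb
    · left
      refine ⟨1, by rw [hM]; norm_num, fun i => ?_⟩
      rcases Nat.eq_zero_or_pos i with rfl | hi
      · rw [hfr]
        exact (cw_last 0).symm
      · rw [hhi i hi]
        unfold cw
        rw [if_neg (by omega)]
    · right
      exact ⟨b, hb, by rw [hM, pow_zero, add_comm], hfr, fun i hi => hhi i hi⟩
  · obtain ⟨j, rfl⟩ : ∃ j, r0 = j + 1 := ⟨r0 - 1, by omega⟩
    have h1 := dd1 hf (j := j) hhi
    rw [hfr] at h1
    have hw : M - 2 ^ j = 2 ^ j + 2 ^ b := by rw [hM, pow_succ]; ring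
    have h2 : ha j * sh 1 (ha b) ∈ BR 2 (2 ^ j + 2 ^ b) :=
      ⟨f j, hf.lv j, hw ▸ hf.wh j, h1⟩
    rcases hNv j b h2 with h | h
    · subst h
      exfalso
      have hv := dd2 hf (j := b) hhi
      have hfr' : f (b + 2) = ha b := hfr
      rw [hfr'] at hv
      have e1 : M - 2 ^ (b + 1) = 3 * 2 ^ b := by rw [hw, pow_succ]; ring
      have e2 : M - 2 ^ b = 4 * 2 ^ b := by rw [hM, pow_succ, pow_succ]; ring
      exact hMas b (f (b + 1)) (f b) (hf.lv _) (e1 ▸ hf.wh (b + 1)) h1 (hf.lv _)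
        (e2 ▸ hf.wh b) hv
    · subst h
      left
      have hM2 : M = 2 ^ (j + 1 + 1) := by rw [hM, pow_succ (2 : ℤ) (j + 1)]; ring
      refine ⟨j + 1 + 1, hM2, ?_⟩
      have hc := (hCwb (j + 1 + 1)).1
      rw [← hM2] at hc
      have hg := cf_add hf hc
      have hz : ∀ i, f i + cw (j + 1 + 1) i = 0 := by
        rcases hTop M _ _ hg with h0 | ⟨r1, b1, _, _, hM1, hg1⟩
        · exact h0
        · exfalso
          rw [hM2] at hM1
          have h3 := pw hM1
          obtain rfl : r1 = j + 1 := by omega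
          have h4 : f (j + 1) + cw (j + 1 + 1) (j + 1) = ha b1 := hg1
          rw [hfr, cw_last, add_self2] at h4
          exact ha_ne b1 h4.symm
      exact fun i => add_eq_zero2.1 (hz i)

end

end Pool.Agent.Work.MP_701abf_gt.Sq2.FL
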