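import Pool.Agent.Work.MP_701abf_gt.FL.TwoStmts

/-!
# MP_701abf_gt, four-line theorem, the 2-line, part Coef (helper22)

The coefficients of a 1-cocycle with values in `W`.
-/

open MvPolynomial
open Finset.HasAntidiagonal (antidiagonal mem_antidiagonal)
open Pool.Agent.Work.MP_701abf_gt.Stab Pool.Agent.Work.MP_701abf_gt.Cob

namespace Pool.Agent.Work.MP_701abf_gt.Sq2.FL

noncomputable section

namespace XCoef

/-- The derivative with respect to `w_i`. -/
abbrev pw (i : ℕ) : Derivation (ZMod 2) (RR (Option Empty)) (RR (Option Empty)) :=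
  pderiv (Sum.inr (none, i))

lemma pw_inl (i : ℕ) (v : ℕ × ℕ) : pw i (X (Sum.inl v)) = 0 := pderiv_X_of_ne (by simp)

lemma pw_gW (i k : ℕ) : pw i (gW none k) = if k = i then 1 else 0 := by
  unfold gW
  by_cases h : k = i
  · subst h
    rw [if_pos rfl]
    exact pderiv_X_self _
  · rw [if_neg h]
    refine pderiv_X_of_ne ?_
    intro e
    exact h (Prod.mk.inj (Sum.inr_injective e)).2

lemma pw_gG (i a n : ℕ) : pw i ((gG (ι := Option Empty) a).co n) = 0 := by
  cases n with
  | zero => exact Derivation.map_one_eq_zero _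
  | succ n => exact pw_inl i (a, n)

lemma jO_inl (v : ℕ × ℕ) : jO (ι := Empty) (X (Sum.inl v)) = X (Sum.inl v) := by
  unfold jO
  rw [ev_inl]
  rfl

lemma jO_gG (a n : ℕ) : jO ((gG (ι := Empty) a).co n) = (gG a).co n := by
  cases n with
  | zero => exact map_one _
  | succ n => exact jO_inl (a, n)

lemma pw_jO (i : ℕ) (F : RR Empty) : pw i (jO F) = 0 := by
  induction F using MvPolynomial.induction_on with
  | C a =>
    have h1 : jO (ι := Empty) (C a) = algebraMap (ZMod 2) _ a := (jO (ι := Empty)).commutes a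
    rw [h1]
    exact (pw i).map_algebraMap a
  | add p q hp hq => rw [map_add, map_add, hp, hq, add_zero]
  | mul_X p v hp =>
    rcases v with v | ⟨e, _⟩
    · rw [map_mul, Derivation.leibniz, hp, jO_inl, pw_inl, smul_zero, smul_zero, add_zero]
    · exact e.elim

lemma jO_injective : Function.Injective (jO (ι := Empty)) := by
  intro F G h
  rw [← rO_jO F, h, rO_jO]

lemma face_jO (j : ℕ) (F : RR Empty) :
    face (fun _ => 0) j (jO F) = jO (face (fun _ => 0) j F) := by
  refine subst_face (fun b i => ?_) F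
  exact b.elim

lemma pw_gr (i : ℕ) : Gr (wt (cO (ι := Empty)) (fun _ => 0)) (wt (cO (ι := Empty)) (fun _ => 0))
    (fun m => m + ((0, -1), -2 ^ i)) (pw i).toLinearMap := by
  refine Gr.of_der fun v => ?_
  by_cases hv : v = Sum.inr (none, i)
  · subst hv
    rw [pderiv_X_self]
    have e : wt (cO (ι := Empty)) (fun _ => 0) (Sum.inr (none, i)) + ((0, -1), -2 ^ i) = 0 := by
      change ((((0 : ℤ), (1 : ℤ)), (2 : ℤ) ^ (i + 0)) : (ℤ × ℤ) × ℤ) + ((0, -1), -2 ^ i) = 0
      simp
    rw [e]
    exact isWeightedHomogeneous_one _ _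
  · rw [pderiv_X_of_ne hv]
    exact isWeightedHomogeneous_zero _ _ _

/-- The projection of the weight which counts the variables `w_i`. -/
def qq : (ℤ × ℤ) × ℤ →+ ℤ := (AddMonoidHom.snd ℤ ℤ).comp (AddMonoidHom.fst (ℤ × ℤ) ℤ)

/-- Euler's identity. -/
lemma euler {y : RR (Option Empty)} {M : ℤ} (hy : WH (wt cO (fun _ => 0)) y ((0, 1), M)) (r : ℕ)
    (hr : ∀ i, (Sum.inr (none, i) : (ℕ × ℕ) ⊕ (Option Empty × ℕ)) ∈ y.vars → i < r) :
    y = ∑ i ∈ Finset.range r, pw i y * gW none i := by
  classical
  have key : ∀ d ∈ y.support, ∑ i ∈ Finset.range r, d (Sum.inr (none, i)) = 1 := by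
    intro d hd
    have h1 := hy (mem_support_iff.1 hd)
    have h3 : ∑ v ∈ d.support, d v • qq (wt (cO (ι := Empty)) (fun _ => 0) v) = 1 := by
      have h4 : qq (Finsupp.weight (wt (cO (ι := Empty)) (fun _ => 0)) d) = 1 := by
        rw [h1]
        rfl
      rw [← h4, Finsupp.weight_apply, Finsupp.sum, map_sum]
      exact Finset.sum_congr rfl fun v _ => (map_nsmul _ _ _).symm
    set S : Finset ((ℕ × ℕ) ⊕ (Option Empty × ℕ)) :=
      (Finset.range r).image (fun i => Sum.inr (none, i)) with hS
    have h5 : ∑ v ∈ S, d v • qq (wt (cO (ι := Empty)) (fun _ => 0) v) =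
        ∑ v ∈ d.support ∪ S, d v • qq (wt (cO (ι := Empty)) (fun _ => 0) v) := by
      refine Finset.sum_subset Finset.subset_union_right ?_
      intro v hv hvS
      have hvd : v ∈ d.support := by
        rcases Finset.mem_union.1 hv with h | h
        · exact h
        · exact absurd h hvS
      rcases v with v | ⟨o, i⟩
      · exact smul_zero _
      · cases o with
        | some e => exact e.elim
        | none =>
          exfalso
          apply hvS
          have hvy : (Sum.inr (none, i) : (ℕ × ℕ) ⊕ (Option Empty × ℕ)) ∈ y.vars :=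
            (mem_vars _).2 ⟨d, hd, hvd⟩
          exact Finset.mem_image.2 ⟨i, Finset.mem_range.2 (hr i hvy), rfl⟩
    have h6 : ∑ v ∈ d.support, d v • qq (wt (cO (ι := Empty)) (fun _ => 0) v) =
        ∑ v ∈ d.support ∪ S, d v • qq (wt (cO (ι := Empty)) (fun _ => 0) v) := by
      refine Finset.sum_subset Finset.subset_union_left ?_
      intro v _ hv
      rw [Finsupp.notMem_support_iff.1 hv, zero_smul]
    rw [h6, ← h5, hS, Finset.sum_image (fun a _ b _ h => by
      exact (Prod.mk.inj (Sum.inr_injective h)).2)] at h3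
    have h7 : ∀ i ∈ Finset.range r, d (Sum.inr (none, i)) •
        qq (wt (cO (ι := Empty)) (fun _ => 0) (Sum.inr (none, i))) =
        ((d (Sum.inr (none, i)) : ℕ) : ℤ) := by
      intro i _
      have : qq (wt (cO (ι := Empty)) (fun _ => 0) (Sum.inr (none, i))) = 1 := rfl
      rw [this, nsmul_eq_mul, mul_one]
    rw [Finset.sum_congr rfl h7] at h3
    exact_mod_cast h3
  have h8 : ∑ i ∈ Finset.range r, pw i y * gW none i =
      ∑ d ∈ y.support, ∑ i ∈ Finset.range r,
        d (Sum.inr (none, i)) • monomial d (coeff d y) := by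
    rw [Finset.sum_comm]
    refine Finset.sum_congr rfl fun i _ => ?_
    conv_lhs => rw [y.as_sum]
    rw [map_sum, Finset.sum_mul]
    refine Finset.sum_congr rfl fun d _ => ?_
    rw [mul_comm]
    exact X_mul_pderiv_monomial
  rw [h8]
  conv_lhs => rw [y.as_sum]
  refine Finset.sum_congr rfl fun d hd => ?_
  rw [← Finset.sum_smul, key d hd, one_smul]

lemma pw_act (j i : ℕ) : pw j (act 0 (gG 0) (gW (none : Option Empty)) i) =
    if j ≤ i then (gG 0).co (i - j) ^ 2 ^ j else 0 := by
  rw [der_act_const _ (pw_gG j 0), act_apply]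
  by_cases h : j ≤ i
  · rw [if_pos h, Finset.sum_eq_single (i - j, j)]
    · rw [pw_gW, if_pos rfl, mul_one, add_zero]
    · rintro ⟨p, q⟩ hp hne
      have hq : q ≠ j := by
        rintro rfl
        apply hne
        have := mem_antidiagonal.1 hp
        simp only at this
        rw [← this, Nat.add_sub_cancel]
      rw [pw_gW, if_neg hq, mul_zero]
    · intro h'
      exact absurd (mem_antidiagonal.2 (by simp only; omega)) h'
  · rw [if_neg h]
    refine Finset.sum_eq_zero ?_
    rintro ⟨p, q⟩ hp
    have := mem_antidiagonal.1 hp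
    simp only at this
    rw [pw_gW, if_neg (by simp only; omega), mul_zero]

end XCoef

open XCoef in
theorem pr_Coef : S_Coef := by
  classical
  intro M y hy hd
  obtain ⟨hyl, hyw⟩ := hy
  have hyw' : WH (wt cO (fun _ => 0)) y ((0, 1), M) := hyw
  -- the bound for the indices
  obtain ⟨r, hr⟩ : ∃ r : ℕ, ∀ i,
      (Sum.inr (none, i) : (ℕ × ℕ) ⊕ (Option Empty × ℕ)) ∈ y.vars → i < r := by
    refine ⟨(y.vars.sup (fun v => Sum.elim (fun _ => 0) (fun p => p.2) v)) + 1, ?_⟩
    intro i hi
    have := Finset.le_sup (f := fun v : (ℕ × ℕ) ⊕ (Option Empty × ℕ) =>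
      Sum.elim (fun _ => 0) (fun p => p.2) v) hi
    exact Nat.lt_succ_of_le this
  set f : ℕ → RR Empty := fun i => rO (pw i y) with hf
  have hwt : ∀ i, WH (wt cO (fun _ => 0)) (pw i y) ((0, 0), M - 2 ^ i) := by
    intro i
    have h1 := (pw_gr i).map hyw'
    have e : ((((0 : ℤ), (1 : ℤ)), M) : (ℤ × ℤ) × ℤ) + ((0, -1), -2 ^ i) =
        ((0, 0), M - 2 ^ i) := by
      simp [sub_eq_add_neg]
    rw [e] at h1
    exact h1
  have hjf : ∀ i, jO (f i) = pw i y := fun i => jO_rO (hwt i)
  have hys : y = ∑ i ∈ Finset.range r, jO (f i) * gW none i := by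
    refine (euler hyw' r hr).trans (Finset.sum_congr rfl fun i _ => ?_)
    rw [hjf]
  have hzero : ∀ i, r ≤ i → f i = 0 := by
    intro i hi
    have h1 : pw i y = 0 := by
      refine pderiv_eq_zero_of_notMem_vars fun h => ?_
      exact absurd (hr i h) (by omega)
    rw [hf]
    simp only
    rw [h1, map_zero]
  have hlev : ∀ i, f i ∈ lev Empty 2 := by
    intro i
    refine rO_lev (der_lev (pw_inl i) (fun n v => ?_) hyl)
    by_cases hv : (Sum.inr v : (ℕ × ℕ) ⊕ (Option Empty × ℕ)) = Sum.inr (none, i)
    · rw [hv, pderiv_X_self]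
      exact map_one _
    · rw [pderiv_X_of_ne hv]
      exact map_zero _
  refine ⟨r, f, ⟨hlev, ?_, hzero, ?_⟩, hys⟩
  · intro i
    have h1 := rO_gr.map (hwt i)
    exact h1
  · intro j
    apply jO_injective
    -- the cocycle condition
    have h0 : face (fun _ => 0) 0 y + face (fun _ => 0) 1 y + face (fun _ => 0) 2 y = 0 := by
      have h1 : dR (fun _ : Option Empty => 0) 2 y = 0 := hd
      rw [dR_apply] at h1
      simp only [Finset.sum_range_succ, Finset.sum_range_zero, zero_add] at h1
      exact h1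
    have h2 := congrArg (pw j) h0
    rw [map_add, map_add, map_zero] at h2
    have hA : pw j (face (fun _ => 0) 0 y) = ∑ i ∈ Finset.range r,
        jO (face (fun _ => 0) 0 (f i)) * if j ≤ i then (gG 0).co (i - j) ^ 2 ^ j else 0 := by
      conv_lhs => rw [hys]
      rw [map_sum, map_sum]
      refine Finset.sum_congr rfl fun i _ => ?_
      rw [map_mul, face_gW, face_jO, Derivation.leibniz, pw_jO, smul_zero, add_zero, smul_eq_mul]
      simp only [fw]
      rw [pw_act]
    have hB : ∀ k, pw j (face (fun _ => 0) (k + 1) y) = jO (face (fun _ => 0) (k + 1) (f j)) := by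
      intro k
      conv_lhs => rw [hys]
      rw [map_sum, map_sum]
      have h3 : ∀ i ∈ Finset.range r, pw j (face (fun _ => 0) (k + 1) (jO (f i) * gW none i)) =
          if i = j then jO (face (fun _ => 0) (k + 1) (f j)) else 0 := by
        intro i _
        rw [map_mul, face_gW, face_jO, Derivation.leibniz, pw_jO, smul_zero, add_zero,
          smul_eq_mul]
        simp only [fw]
        rw [pw_gW]
        split_ifs with h
        · rw [h, mul_one]
        · rw [mul_zero]
      rw [Finset.sum_congr rfl h3, Finset.sum_ite_eq' (Finset.range r) j]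
      split_ifs with h
      · rfl
      · rw [Finset.mem_range, not_lt] at h
        rw [hzero j h, map_zero, map_zero]
    have hB1 := hB 0
    have hB2 := hB 1
    simp only [zero_add] at hB1
    rw [show (1 + 1 : ℕ) = 2 from rfl] at hB2
    rw [hA, hB1, hB2] at h2
    -- the term `i = j`
    have hC : ∑ i ∈ Finset.range r,
        jO (face (fun _ => 0) 0 (f i)) * (if j ≤ i then (gG 0).co (i - j) ^ 2 ^ j else 0) =
        jO (face (fun _ => 0) 0 (f j)) + ∑ i ∈ Finset.range r,
          jO (if j < i then (gG (ι := Empty) 0).co (i - j) ^ 2 ^ j * sh 1 (f i) else 0) := by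
      have h4 : ∀ i ∈ Finset.range r,
          jO (face (fun _ => 0) 0 (f i)) * (if j ≤ i then (gG 0).co (i - j) ^ 2 ^ j else 0) =
          (if i = j then jO (face (fun _ => 0) 0 (f j)) else 0) +
          jO (if j < i then (gG (ι := Empty) 0).co (i - j) ^ 2 ^ j * sh 1 (f i) else 0) := by
        intro i _
        rcases lt_trichotomy i j with h | h | h
        · rw [if_neg (by omega), if_neg (by omega), if_neg (by omega), mul_zero, map_zero,
            add_zero]
        · subst h
          rw [if_pos le_rfl, if_pos rfl, if_neg (by omega), Nat.sub_self, map_zero, add_zero,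
            Pt.co_zero, one_pow, mul_one]
        · rw [if_pos h.le, if_neg (by omega), if_pos h, zero_add, map_mul, map_pow, jO_gG,
            face_zero, mul_comm]
      rw [Finset.sum_congr rfl h4, Finset.sum_add_distrib,
        Finset.sum_ite_eq' (Finset.range r) j]
      congr 1
      split_ifs with h
      · rfl
      · rw [Finset.mem_range, not_lt] at h
        rw [hzero j h, map_zero, map_zero]
    rw [hC] at h2
    have hD : jO (dE 2 (f j)) = jO (face (fun _ => 0) 0 (f j)) + jO (face (fun _ => 0) 1 (f j)) +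
        jO (face (fun _ => 0) 2 (f j)) := by
      rw [dR_apply]
      simp only [Finset.sum_range_succ, Finset.sum_range_zero, zero_add]
      rw [map_add, map_add]
    rw [hD, map_sum]
    refine add_eq_zero2.1 ?_
    rw [← h2]
    abel

end

end Pool.Agent.Work.MP_701abf_gt.Sq2.FL
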