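import Pool.Agent.Work.MP_701abf_gt.FL.TwoStmts

/-!
Four-line theorem, the 2-line, item ComO: products of two classes of the 1-line commute.
-/

open MvPolynomial
open Pool.Agent.Work.MP_701abf_gt.Stab Pool.Agent.Work.MP_701abf_gt.Cob

namespace Pool.Agent.Work.MP_701abf_gt.Sq2.FL

noncomputable section

namespace XComO

lemma faces : face (fun _ : Empty => 0) 0 h0c = sh 1 h0c ∧
    face (fun _ : Empty => 0) 1 h0c = sh 1 h0c + h0c ∧
    face (fun _ : Empty => 0) 2 h0c = h0c := by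
  have e0 : face (fun _ : Empty => 0) 0 h0c = sh 1 h0c := face_zero _
  have e2 : face (fun _ : Empty => 0) 2 h0c = h0c := face_high _ (n := 1) le_rfl h0c_lev
  refine ⟨e0, ?_, e2⟩
  have h := h0c_d
  rw [dR_apply] at h
  simp only [Finset.sum_range_succ, Finset.sum_range_zero, zero_add] at h
  rw [e0, e2] at h
  have h2 := add_eq_zero2.1 h
  have h3 := add_self2 (sh (ι := Empty) 1 h0c)
  calc face (fun _ : Empty => 0) 1 h0c = sh 1 h0c + (sh 1 h0c +
        face (fun _ : Empty => 0) 1 h0c) := by rw [← add_assoc, h3, zero_add]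
    _ = _ := by rw [h2]

lemma frob (x y : RR Empty) (a : ℕ) : (x + y) ^ 2 ^ a = x ^ 2 ^ a + y ^ 2 ^ a :=
  add_pow_char_pow (R := RR Empty) (p := 2) x y a

lemma main_d (a b : ℕ) : dE 2 (h0c ^ 2 ^ a * h0c ^ 2 ^ b) =
    ha a * sh 1 (ha b) + ha b * sh 1 (ha a) := by
  obtain ⟨e0, e1, e2⟩ := faces
  rw [dR_apply]
  simp only [Finset.sum_range_succ, Finset.sum_range_zero, zero_add, map_mul, map_pow]
  rw [e0, e1, e2, frob, frob]
  unfold ha
  rw [map_pow, map_pow]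
  have h2 : (2 : RR Empty) = 0 := two_zero
  linear_combination (sh (ι := Empty) 1 h0c ^ 2 ^ a * sh (ι := Empty) 1 h0c ^ 2 ^ b +
    h0c ^ 2 ^ a * h0c ^ 2 ^ b) * h2

lemma main_wh (a : ℕ) : WH wE (h0c ^ 2 ^ a) (0, 2 ^ a) := by
  have := h0c_wh.pow (2 ^ a)
  have e : (2 ^ a) • (((0 : ℤ × ℤ), (1 : ℤ)) : (ℤ × ℤ) × ℤ) = (0, 2 ^ a) := by
    rw [Prod.smul_mk, smul_zero, nsmul_eq_mul, mul_one]
    norm_num
  rw [e] at this
  exact this

end XComO

theorem pr_ComO : S_ComO := by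
  intro a b
  refine ⟨h0c ^ 2 ^ a * h0c ^ 2 ^ b, ?_, ?_, XComO.main_d a b⟩
  · rw [← pow_add]
    exact lev_pow h0c_lev (by positivity)
  · have h := (XComO.main_wh a).mul (XComO.main_wh b)
    rw [Prod.mk_add_mk, zero_add] at h
    exact h

end

end Pool.Agent.Work.MP_701abf_gt.Sq2.FL
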