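import Pool.Agent.Work.MP_701abf_gt.FL.TwoStmts

/-!
Four-line theorem: the coefficients of the coboundary of `w_b`.
-/

open MvPolynomial
open Finset.HasAntidiagonal (antidiagonal mem_antidiagonal)
open Pool.Agent.Work.MP_701abf_gt.Stab Pool.Agent.Work.MP_701abf_gt.Cob

namespace Pool.Agent.Work.MP_701abf_gt.Sq2.FL

noncomputable section

namespace XCwb

theorem sum_anti {R : Type*} [AddCommMonoid R] (f : ℕ × ℕ → R) (n : ℕ) :
    ∑ p ∈ antidiagonal n, f p = ∑ k ∈ Finset.range (n + 1), f (n - k, k) := by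
  rw [← Finset.Nat.sum_antidiagonal_swap, Finset.Nat.sum_antidiagonal_eq_sum_range_succ_mk]
  rfl

theorem co_mul_q {S : Type*} [CommRing S] (a b : Pt S) (n : ℕ) :
    (a * b).co n = ∑ k ∈ Finset.range (n + 1), a.co (n - k) ^ 2 ^ k * b.co k := by
  rw [Pt.co_mul, sum_anti]

theorem pow_dR {ι : Type*} (τ : ι → ℕ) (n k : ℕ) (F : RR ι) :
    dR τ n (F ^ 2 ^ k) = dR τ n F ^ 2 ^ k := by
  rw [dR_apply, dR_apply, sum_pow']
  exact Finset.sum_congr rfl fun j _ => map_pow _ _ _

theorem dE_co (m : ℕ) : dE 2 ((gG (ι := Empty) 0).co (m + 1)) =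
    ∑ q ∈ Finset.range m,
      (gG (ι := Empty) 1).co (m - q) ^ 2 ^ (q + 1) * (gG (ι := Empty) 0).co (q + 1) := by
  have e1 : (gG (ι := Empty) 1 * gG 0).co (m + 1) =
      (∑ q ∈ Finset.range m,
        (gG (ι := Empty) 1).co (m - q) ^ 2 ^ (q + 1) * (gG (ι := Empty) 0).co (q + 1)) +
      (gG (ι := Empty) 1).co (m + 1) + (gG (ι := Empty) 0).co (m + 1) := by
    rw [co_mul_q, Finset.sum_range_succ, Finset.sum_range_succ']
    simp only [Pt.co_zero, Nat.sub_self, one_pow, one_mul, mul_one, pow_zero, pow_one,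
      Nat.sub_zero, Nat.add_sub_add_right]
  have e2 : dE 2 ((gG (ι := Empty) 0).co (m + 1)) = (gG (ι := Empty) 1).co (m + 1) +
      (gG (ι := Empty) 1 * gG 0).co (m + 1) + (gG (ι := Empty) 0).co (m + 1) := by
    rw [dR_apply, gG_succ]
    simp only [Finset.sum_range_succ, Finset.sum_range_zero, zero_add]
    rw [face_inl, face_inl, face_inl]
    rfl
  rw [e2, e1]
  have h1 := add_self2 ((gG (ι := Empty) 1).co (m + 1))
  have h2 := add_self2 ((gG (ι := Empty) 0).co (m + 1))
  linear_combination h1 + h2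

theorem co_lev (n : ℕ) : (gG (ι := Empty) 0).co n ∈ lev Empty 2 := by
  rw [mem_lev_succ]
  have h := congrArg (fun g => Pt.co g n) (mapPt_prj_lt (ι := Empty) (n := 1) (a := 0) one_pos)
  exact h

theorem sh_co (n : ℕ) : sh (ι := Empty) 1 ((gG (ι := Empty) 0).co n) = (gG (ι := Empty) 1).co n :=
  congrArg (fun g => Pt.co g n) (mapPt_sh (ι := Empty) 1 0)

theorem jO_co (n : ℕ) : jO ((gG (ι := Empty) 0).co n) = (gG (ι := Option Empty) 0).co n := by
  have h := mapPt_ev (gG (ι := Option Empty)) (fun b : Empty => gW (some b)) 0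
  exact congrArg (fun g => Pt.co g n) h

theorem cf (b : ℕ) : Cf (2 ^ b) b (cw b) where
  lv i := by
    unfold cw
    split_ifs
    · have h := co_lev (b - i)
      rw [mem_lev_succ] at h ⊢
      rw [map_pow, h]
    · exact Submodule.zero_mem _
  wh i := by
    unfold cw
    split_ifs with h
    · have h1 := (wh_gG (ι := Empty) (fun _ => (1, 0)) (fun _ => 0) 0 (b - i)).pow (2 ^ i)
      have e : 2 ^ i • ((0 : ℤ × ℤ), (2 : ℤ) ^ (b - i) - 1) = (0, 2 ^ b - 2 ^ i) := by
        rw [Prod.smul_mk, smul_zero, nsmul_eq_mul]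
        push_cast
        rw [mul_sub, mul_one, ← pow_add, Nat.add_sub_cancel' h.le]
      rw [e] at h1
      exact h1
    · exact isWeightedHomogeneous_zero _ _ _
  hi i hi := by
    unfold cw
    rw [if_neg (by omega)]
  dd j := by
    by_cases hj : j < b
    · obtain ⟨m, rfl⟩ : ∃ m, b = j + (m + 1) := ⟨b - j - 1, by omega⟩
      have h1 : cw (j + (m + 1)) j = (gG (ι := Empty) 0).co (m + 1) ^ 2 ^ j := by
        unfold cw
        rw [if_pos hj, Nat.add_sub_cancel_left]
      rw [h1, pow_dR, dE_co, sum_pow', Finset.sum_range_add, Finset.sum_range_succ']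
      have h2 : ∑ x ∈ Finset.range j, (if j < x then (gG (ι := Empty) 0).co (x - j) ^ 2 ^ j *
          sh 1 (cw (j + (m + 1)) x) else 0) = (0 : RR Empty) := by
        refine Finset.sum_eq_zero fun x hx => ?_
        rw [if_neg (by have := Finset.mem_range.1 hx; omega)]
      rw [h2, if_neg (by omega), zero_add, add_zero]
      refine Finset.sum_congr rfl fun q hq => ?_
      have hq' := Finset.mem_range.1 hq
      rw [if_pos (by omega)]
      have h3 : cw (j + (m + 1)) (j + (q + 1)) =
          (gG (ι := Empty) 0).co (m - q) ^ 2 ^ (j + (q + 1)) := by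
        unfold cw
        rw [if_pos (by omega)]
        congr 2
        omega
      rw [h3, map_pow, sh_co, Nat.add_sub_cancel_left, mul_pow, ← pow_mul, ← pow_add,
        mul_comm, add_comm (q + 1) j]
    · have h1 : cw b j = 0 := by
        unfold cw
        rw [if_neg hj]
      rw [h1, map_zero]
      symm
      refine Finset.sum_eq_zero fun x hx => ?_
      rw [if_neg (by have := Finset.mem_range.1 hx; omega)]

end XCwb

open XCwb in
theorem pr_Cwb : S_Cwb := by
  intro b
  refine ⟨cf b, ?_⟩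
  have h1 : dc 1 (gW none b) = (∑ i ∈ Finset.range (b + 1),
      (gG (ι := Option Empty) 0).co (b - i) ^ 2 ^ i * gW none i) + gW none b := by
    rw [dR_apply]
    simp only [Finset.sum_range_succ, Finset.sum_range_zero, zero_add]
    have h2 : face (fun _ : Option Empty => 0) 0 (gW none b) =
        act 0 (gG (ι := Option Empty) 0) (gW none) b := face_inr _ _ _
    have h3 : face (fun _ : Option Empty => 0) 1 (gW none b) = gW none b := face_inr _ _ _
    rw [h2, h3, act_apply, sum_anti, Finset.sum_range_succ]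
    rfl
  rw [h1, Finset.sum_range_succ, Nat.sub_self, Pt.co_zero, one_pow, one_mul, add_assoc,
    add_self2, add_zero]
  refine Finset.sum_congr rfl fun i hi => ?_
  have hi' := Finset.mem_range.1 hi
  have h4 : cw b i = (gG (ι := Empty) 0).co (b - i) ^ 2 ^ i := by
    unfold cw
    rw [if_pos hi']
  rw [h4, map_pow, jO_co]

end

end Pool.Agent.Work.MP_701abf_gt.Sq2.FL
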