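import Pool.Agent.Work.MP_701abf_gt.FL.TwoStmts

/-!
# MP_701abf_gt, four-line theorem, 2-line parts: the basic identity in the mixed complex
-/

open MvPolynomial
open Pool.Agent.Work.MP_701abf_gt.Stab Pool.Agent.Work.MP_701abf_gt.Cob

namespace Pool.Agent.Work.MP_701abf_gt.Sq2.FL

noncomputable section

namespace XDPr

variable {S : Type*} [CommRing S] [Algebra (ZMod 2) S]

lemma der_par (D : Derivation (ZMod 2) S S) (a : ℕ → S) (e m : ℕ) :
    D (par a e m) = par (fun j => D (a j)) e m := by
  unfold par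
  rw [map_sum]
  refine Finset.sum_congr rfl fun j _ => ?_
  split_ifs
  · rfl
  · exact map_zero D

lemma der_pr (D : Derivation (ZMod 2) S S) (a : ℕ → S) (m : ℕ) :
    D (pr a m) + ∑ j ∈ Finset.range m, a j * D (a j) =
      par a 0 m * par (fun j => D (a j)) 0 m + par a 1 m * par (fun j => D (a j)) 1 m := by
  induction m with
  | zero =>
    simp only [pr, par, Finset.sum_range_zero, map_zero, mul_zero, add_zero]
  | succ m ih =>
    have h1 : D (pr a (m + 1)) = D (pr a m) + (par a (m % 2) m * D (a m) +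
        a m * par (fun j => D (a j)) (m % 2) m) := by
      rw [pr_succ, map_add, Derivation.leibniz, der_par]
      simp only [smul_eq_mul]
    rw [h1, Finset.sum_range_succ, par_succ, par_succ, par_succ, par_succ]
    rcases Nat.mod_two_eq_zero_or_one m with h | h
    · rw [h]
      simp only [if_true, zero_ne_one, if_false, add_zero]
      linear_combination ih
    · rw [h]
      simp only [if_true, one_ne_zero, if_false, add_zero]
      linear_combination ih

omit [Algebra (ZMod 2) S] in
lemma par_add (a : ℕ → S) (m : ℕ) : par a 0 m + par a 1 m = ∑ j ∈ Finset.range m, a j := by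
  unfold par
  rw [← Finset.sum_add_distrib]
  refine Finset.sum_congr rfl fun j _ => ?_
  rcases Nat.mod_two_eq_zero_or_one j with h | h
  · rw [h]
    simp
  · rw [h]
    simp

end XDPr

open XDPr in
theorem pr_DPr : S_DPr := by
  intro n F hF
  have h0 : ∑ j ∈ Finset.range (n + 1), faceQ j F = 0 := by
    rw [← dQ_apply]
    exact hF
  have h1 : ∑ j ∈ Finset.range (n + 1), DQ (faceQ j F) = 0 := by
    rw [← map_sum, h0, map_zero]
  have h2 := der_pr (DQ (ι := Empty)) (fun j => faceQ j F) (n + 1)
  have h3 := par_add (fun j => faceQ j F) (n + 1)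
  have h4 := par_add (fun j => DQ (faceQ j F)) (n + 1)
  rw [h0] at h3
  rw [h1] at h4
  have two : (2 : RQ Empty) = 0 := two_zero
  have h5 : dQ n (F * DQ F) = ∑ j ∈ Finset.range (n + 1), faceQ j F * DQ (faceQ j F) := by
    rw [dQ_apply]
    refine Finset.sum_congr rfl fun j _ => ?_
    rw [map_mul, DQ_face]
  rw [h5]
  set P0 := par (fun j => faceQ j F) 0 (n + 1)
  set P1 := par (fun j => faceQ j F) 1 (n + 1)
  set Q0 := par (fun j => DQ (faceQ j F)) 0 (n + 1)
  set Q1 := par (fun j => DQ (faceQ j F)) 1 (n + 1)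
  set SS := ∑ j ∈ Finset.range (n + 1), faceQ j F * DQ (faceQ j F)
  -- `P1 = -P0`, `Q1 = -Q0`
  linear_combination h2 + Q1 * h3 - P0 * h4 + (P0 * Q0 - SS) * two
end

end Pool.Agent.Work.MP_701abf_gt.Sq2.FL
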