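import Pool.Agent.Work.MP_701abf_gt.FL.TwoStmts

/-!
# The four-line theorem, item DegB: the 2-line in degree 2
-/

set_option autoImplicit false

open MvPolynomial
open Finset.HasAntidiagonal (antidiagonal mem_antidiagonal)
open Pool.Agent.Work.MP_701abf_gt.Stab Pool.Agent.Work.MP_701abf_gt.Cob

namespace Pool.Agent.Work.MP_701abf_gt.Sq2.FL

namespace XDegB

/-- The weights. -/
def wv (v : Fin 2 × ℕ) : ℕ := 2 ^ (v.2 + 1) - 1

lemma mono_le (d : Fin 2 × ℕ →₀ ℕ) (v : Fin 2 × ℕ) : d v * wv v ≤ Finsupp.weight wv d := by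
  rw [Finsupp.weight_apply, Finsupp.sum]
  by_cases hv : v ∈ d.support
  · exact Finset.single_le_sum (f := fun v => d v • wv v) (fun _ _ => Nat.zero_le _) hv
  · rw [Finsupp.notMem_support_iff.1 hv, zero_mul]
    exact Nat.zero_le _

lemma exps (d : Fin 2 × ℕ →₀ ℕ) (h : Finsupp.weight wv d = 2) :
    d = Finsupp.single (0, 0) 2 ∨ d = Finsupp.single (0, 0) 1 + Finsupp.single (1, 0) 1 ∨
      d = Finsupp.single (1, 0) 2 := by
  have h0 : ∀ v : Fin 2 × ℕ, v.2 ≠ 0 → d v = 0 := by
    intro v hv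
    have h1 := mono_le d v
    rw [h] at h1
    have h2 : 4 ≤ 2 ^ (v.2 + 1) := by
      have : 2 ^ 2 ≤ 2 ^ (v.2 + 1) := Nat.pow_le_pow_right (by norm_num) (by omega)
      simpa using this
    have h3 : 3 ≤ wv v := by
      unfold wv
      omega
    by_contra hne
    have h4 : 1 ≤ d v := Nat.one_le_iff_ne_zero.2 hne
    nlinarith
  have hd : d = Finsupp.single (0, 0) (d (0, 0)) + Finsupp.single (1, 0) (d (1, 0)) := by
    ext v
    obtain ⟨i, n⟩ := v
    rw [Finsupp.add_apply, Finsupp.single_apply, Finsupp.single_apply]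
    by_cases hn : n = 0
    · subst hn
      fin_cases i
      · simp
      · simp
    · rw [h0 (i, n) hn, if_neg (fun h => hn (congrArg Prod.snd h).symm),
        if_neg (fun h => hn (congrArg Prod.snd h).symm), add_zero]
  have hw : d (0, 0) + d (1, 0) = 2 := by
    rw [hd, map_add, Finsupp.weight_single, Finsupp.weight_single] at h
    simpa [wv] using h
  rw [hd]
  have : d (0, 0) = 0 ∨ d (0, 0) = 1 ∨ d (0, 0) = 2 := by omega
  rcases this with h1 | h1 | h1
  · right; right
    rw [h1, show d (1, 0) = 2 by omega, Finsupp.single_zero, zero_add]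
  · right; left
    rw [h1, show d (1, 0) = 1 by omega]
  · left
    rw [h1, show d (1, 0) = 0 by omega, Finsupp.single_zero, add_zero]

lemma form {p : Cobar 2} (h : p ∈ Hom 2 2) : ∃ α β γ : ZMod 2,
    p = C α * X (0, 0) ^ 2 + C β * (X (0, 0) * X (1, 0)) + C γ * X (1, 0) ^ 2 := by
  refine ⟨coeff (Finsupp.single (0, 0) 2) p,
    coeff (Finsupp.single (0, 0) 1 + Finsupp.single (1, 0) 1) p,
    coeff (Finsupp.single (1, 0) 2) p, ?_⟩
  have e1 : (X (0, 0) : Cobar 2) ^ 2 = monomial (Finsupp.single (0, 0) 2) 1 := X_pow_eq_monomial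
  have e3 : (X (1, 0) : Cobar 2) ^ 2 = monomial (Finsupp.single (1, 0) 2) 1 := X_pow_eq_monomial
  have e2 : (X (0, 0) * X (1, 0) : Cobar 2) =
      monomial (Finsupp.single (0, 0) 1 + Finsupp.single (1, 0) 1) 1 := by
    rw [X, X, monomial_mul, one_mul]
  rw [e1, e2, e3, C_mul_monomial, C_mul_monomial, C_mul_monomial, mul_one, mul_one, mul_one]
  have h' : IsWeightedHomogeneous wv p 2 := h
  have n12 : (Finsupp.single ((0, 0) : Fin 2 × ℕ) 2) ≠
      Finsupp.single (0, 0) 1 + Finsupp.single (1, 0) 1 := by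
    intro e
    have := DFunLike.congr_fun e (0, 0)
    simp at this
  have n13 : (Finsupp.single ((0, 0) : Fin 2 × ℕ) 2) ≠ Finsupp.single (1, 0) 2 := by
    intro e
    have := DFunLike.congr_fun e (0, 0)
    simp at this
  have n23 : (Finsupp.single ((0, 0) : Fin 2 × ℕ) 1 + Finsupp.single (1, 0) 1) ≠
      Finsupp.single (1, 0) 2 := by
    intro e
    have := DFunLike.congr_fun e (0, 0)
    simp at this
  refine MvPolynomial.ext _ _ fun d => ?_
  rw [coeff_add, coeff_add, coeff_monomial, coeff_monomial, coeff_monomial]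
  by_cases hd : coeff d p = 0
  · rw [hd]
    have t1 : (if Finsupp.single ((0, 0) : Fin 2 × ℕ) 2 = d then
        coeff (Finsupp.single (0, 0) 2) p else 0) = 0 := by
      split_ifs with h1
      · rw [h1, hd]
      · rfl
    have t2 : (if Finsupp.single ((0, 0) : Fin 2 × ℕ) 1 + Finsupp.single (1, 0) 1 = d then
        coeff (Finsupp.single (0, 0) 1 + Finsupp.single (1, 0) 1) p else 0) = 0 := by
      split_ifs with h1
      · rw [h1, hd]
      · rfl
    have t3 : (if Finsupp.single ((1, 0) : Fin 2 × ℕ) 2 = d then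
        coeff (Finsupp.single (1, 0) 2) p else 0) = 0 := by
      split_ifs with h1
      · rw [h1, hd]
      · rfl
    rw [t1, t2, t3, add_zero, add_zero]
  · rcases exps d (h' hd) with rfl | rfl | rfl
    · rw [if_pos rfl, if_neg n12.symm, if_neg n13.symm, add_zero, add_zero]
    · rw [if_neg n12, if_pos rfl, if_neg n23.symm, add_zero, zero_add]
    · rw [if_neg n13, if_neg n23, if_pos rfl, add_zero, zero_add]

end XDegB

open XDegB in
theorem pr_DegB : S_DegB := by
  intro x hx
  obtain ⟨p, hp, rfl⟩ := exists_th (s := 2) (t := 2) (F := x) hx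
  obtain ⟨α, β, γ, hp'⟩ := form hp.1
  have hth : th 2 p = C α * X (Sum.inl (1, 0)) ^ 2 +
      C β * (X (Sum.inl (1, 0)) * X (Sum.inl (0, 0))) + C γ * X (Sum.inl (0, 0)) ^ 2 := by
    rw [hp']
    simp only [map_add, map_mul, map_pow, th_X]
    have hC : ∀ a : ZMod 2, th 2 (C a) = C a := fun a => (th 2).commutes a
    rw [hC, hC, hC]
    rfl
  rw [hth] at hx ⊢
  obtain ⟨-, -, hd⟩ := hx
  -- evaluation
  have hev : ∀ a b c : ZMod 2, α * c ^ 2 + γ * a ^ 2 = 0 := by
    intro a b c
    let g : ℕ → Pt (ZMod 2) := fun k => Cob.dl 1 (if k = 0 then a else if k = 1 then b else c)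
    have g0 : (g 0).co 1 = a := by
      have := Cob.dl_co (m := 1) a (n := 1) one_ne_zero
      rw [if_pos rfl] at this
      exact this
    have g1 : (g 1).co 1 = b := by
      have := Cob.dl_co (m := 1) b (n := 1) one_ne_zero
      rw [if_pos rfl] at this
      exact this
    have g2 : (g 2).co 1 = c := by
      have := Cob.dl_co (m := 1) c (n := 1) one_ne_zero
      rw [if_pos rfl] at this
      exact this
    have hmul : ∀ u v : Pt (ZMod 2), (u * v).co 1 = u.co 1 + v.co 1 := by
      intro u v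
      rw [Pt.co_mul, Finset.Nat.antidiagonal_succ]
      simp [Pt.co_zero, add_comm]
    have h := congrArg (ev g (fun e : Empty => e.elim)) hd
    rw [dR_apply, map_sum, map_zero] at h
    simp only [Finset.sum_range_succ, Finset.sum_range_zero, zero_add, ev_face_apply] at h
    have hevQ : ∀ (g' : ℕ → Pt (ZMod 2)) (w' : Empty → ℕ → ZMod 2),
        ev g' w' (C α * X (Sum.inl (1, 0)) ^ 2 +
          C β * (X (Sum.inl (1, 0)) * X (Sum.inl (0, 0))) + C γ * X (Sum.inl (0, 0)) ^ 2) =
        α * (g' 1).co 1 ^ 2 + β * ((g' 1).co 1 * (g' 0).co 1) + γ * (g' 0).co 1 ^ 2 := by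
      intro g' w'
      have hC : ∀ a : ZMod 2, ev g' w' (C a) = a := fun a => (ev g' w').commutes a
      simp only [map_add, map_mul, map_pow, ev_inl, hC]
    rw [hevQ, hevQ, hevQ, hevQ] at h
    have f00 : (fg 0 g 0).co 1 = b := g1
    have f01 : (fg 0 g 1).co 1 = c := g2
    have f10 : (fg 1 g 0).co 1 = a + b := by
      have : fg 1 g 0 = g 1 * g 0 := rfl
      rw [this, hmul, g0, g1, add_comm]
    have f11 : (fg 1 g 1).co 1 = c := g2
    have f20 : (fg 2 g 0).co 1 = a := g0
    have f21 : (fg 2 g 1).co 1 = b + c := by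
      have : fg 2 g 1 = g 2 * g 1 := rfl
      rw [this, hmul, g1, g2, add_comm]
    have f30 : (fg 3 g 0).co 1 = a := g0
    have f31 : (fg 3 g 1).co 1 = b := g1
    rw [f00, f01, f10, f11, f20, f21, f30, f31] at h
    have two : (2 : ZMod 2) = 0 := rfl
    linear_combination h - (α * (c ^ 2 + b ^ 2 + b * c) + β * (b * c + a * c + a * b) +
      γ * (b ^ 2 + a ^ 2 + a * b)) * two
  have hα : α = 0 := by
    have := hev 0 0 1
    simpa using this
  have hγ : γ = 0 := by
    have := hev 1 0 0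
    simpa using this
  rw [hα, hγ]
  have hbb : bb 0 = X (Sum.inl (0, 0)) * X (Sum.inl (1, 0)) := by
    unfold bb ha h0c
    rw [pow_zero, pow_one, sh_inl]
  have h01 : ∀ b : ZMod 2, b = 0 ∨ b = 1 := by decide
  have hβ : β = 0 ∨ β = 1 := h01 β
  rcases hβ with hb | hb
  · left
    rw [hb]
    simp only [map_zero, zero_mul, add_zero]
    exact Submodule.zero_mem _
  · right
    rw [hb, hbb]
    have e : C 0 * X (Sum.inl (1, 0)) ^ 2 + C 1 * (X (Sum.inl (1, 0)) * X (Sum.inl (0, 0))) +
        C 0 * X (Sum.inl (0, 0)) ^ 2 + X (Sum.inl (0, 0)) * X (Sum.inl (1, 0)) =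
        (0 : RR Empty) := by
      have two : (2 : RR Empty) = 0 := two_zero
      rw [C_0, C_1]
      linear_combination X (Sum.inl (0, 0)) * X (Sum.inl (1, 0)) * two
    rw [e]
    exact Submodule.zero_mem _

end Pool.Agent.Work.MP_701abf_gt.Sq2.FL
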