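import Pool.Agent.Work.MP_701abf_gt.FL.TwoStmts

/-!
# MP_701abf_gt: the first cohomology of `W` (part HW)
-/

set_option autoImplicit false

open MvPolynomial
open Pool.Agent.Work.MP_701abf_gt.Stab Pool.Agent.Work.MP_701abf_gt.Cob

namespace Pool.Agent.Work.MP_701abf_gt.Sq2.FL

namespace XHW

lemma jO_ha (b : ℕ) : jO (ha b) = (X (Sum.inl (0, 0)) : RR (Option Empty)) ^ 2 ^ b := by
  unfold ha h0c jO
  rw [map_pow, ev_inl]
  rfl

lemma gW_mem (b : ℕ) : (gW none b : RR (Option Empty)) ∈ CW 1 1 (2 ^ b) := by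
  refine ⟨mem_lev_succ.2 (prj_gW _ _ _), ?_⟩
  exact wh_gW cO (fun _ : Option Empty => 0) none b

end XHW

theorem pr_HW : S_HW := by
  intro hCoef hCwb hAlg M y hy hd
  obtain ⟨r, f, hf, hyf⟩ := hCoef M y hy hd
  rcases hAlg M r f hf with h0 | ⟨b, hM, hb⟩ | ⟨b, hb1, hM, hb0, hbi⟩
  · left
    refine ⟨0, zero_mem _, ?_⟩
    rw [map_zero, hyf]
    symm
    exact Finset.sum_eq_zero fun i _ => by rw [h0 i, map_zero, zero_mul]
  · left
    refine ⟨gW none b, ?_, ?_⟩
    · rw [hM]
      exact XHW.gW_mem b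
    · rw [(hCwb b).2, hyf]
      have h1 : ∑ i ∈ Finset.range b, jO (cw b i) * gW none i =
          ∑ i ∈ Finset.range (r + b), jO (cw b i) * (gW none i : RR (Option Empty)) := by
        refine Finset.sum_subset (Finset.range_mono (Nat.le_add_left b r)) fun i _ hi => ?_
        rw [Finset.mem_range] at hi
        have h2 : cw b i = 0 := by
          unfold cw
          rw [if_neg hi]
        rw [h2, map_zero, zero_mul]
      have h3 : ∑ i ∈ Finset.range r, jO (f i) * gW none i =
          ∑ i ∈ Finset.range (r + b), jO (f i) * (gW none i : RR (Option Empty)) := by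
        refine Finset.sum_subset (Finset.range_mono (Nat.le_add_right r b)) fun i _ hi => ?_
        rw [Finset.mem_range, not_lt] at hi
        rw [hf.hi i hi, map_zero, zero_mul]
      rw [h1, h3]
      exact Finset.sum_congr rfl fun i _ => by rw [hb i]
  · right
    refine ⟨b, hb1, hM, ?_⟩
    rw [← XHW.jO_ha, ← hb0, hyf]
    have h3 : ∑ i ∈ Finset.range r, jO (f i) * gW none i =
        ∑ i ∈ Finset.range (r + 1), jO (f i) * (gW none i : RR (Option Empty)) := by
      refine Finset.sum_subset (Finset.range_mono (Nat.le_succ r)) fun i _ hi => ?_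
      rw [Finset.mem_range, not_lt] at hi
      rw [hf.hi i hi, map_zero, zero_mul]
    rw [h3]
    refine Finset.sum_eq_single_of_mem 0 (Finset.mem_range.2 (Nat.succ_pos r)) fun i _ hi => ?_
    rw [hbi i (Nat.one_le_iff_ne_zero.2 hi), map_zero, zero_mul]

end Pool.Agent.Work.MP_701abf_gt.Sq2.FL
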