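import Pool.Agent.Work.MP_701abf_gt.FL.TwoStmts

/-!
Four-line theorem: `Sq^1` is injective on the 2-line in odd degrees.
-/

open MvPolynomial
open Pool.Agent.Work.MP_701abf_gt.Stab Pool.Agent.Work.MP_701abf_gt.Cob

namespace Pool.Agent.Work.MP_701abf_gt.Sq2.FL

theorem pr_InjOdd : S_InjOdd := by
  intro hD hM hEx hCob hSq hSC M x hx hdx
  obtain ⟨G, hG1, hG2, y, hy, _, hs⟩ := hEx M x hx
  have hB : dE 2 G ∈ BR 2 (2 * M - 1) := mem_BR.2 ⟨G, hG1, hG2, rfl⟩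
  have hx' : x + dE 2 G ∈ ZR 2 (2 * M - 1) := Submodule.add_mem _ hx (BR_le _ _ hB)
  have h1 : x + (x + dE 2 G) ∈ BR 2 (2 * M - 1) := by
    rw [← add_assoc, add_self2, zero_add]
    exact hB
  have h2 := (dlOp 2 (2 * M - 1)).congr hx h1
  have h3 : dl 2 (x + dE 2 G) ∈ BR 3 (2 * (2 * M - 1)) := by
    have h4 := Submodule.add_mem _ hdx h2
    rwa [← add_assoc, add_self2, zero_add] at h4
  obtain ⟨e, he, hde⟩ := hSq hD M _ hx' y hy hs h3
  obtain ⟨e', he', hde'⟩ := hSC hM M y hy e he hde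
  have h5 := (hCob M _ hx' y hy hs).2 ⟨e', he', hde'⟩
  have h6 := Submodule.add_mem _ h5 hB
  rwa [add_assoc, add_self2, add_zero] at h6

end Pool.Agent.Work.MP_701abf_gt.Sq2.FL
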