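import Pool.Agent.Work.MP_701abf_gt.FL.TwoStmts

/-!
# MP_701abf_gt, block FL, part InjR: `TwoInj` from the parts
-/

open MvPolynomial
open Pool.Agent.Work.MP_701abf_gt.Stab Pool.Agent.Work.MP_701abf_gt.Cob

namespace Pool.Agent.Work.MP_701abf_gt.Sq2.FL

theorem pr_InjR : S_InjR := by
  rintro ⟨hS, hI3, -⟩ hOdd
  suffices H : ∀ n : ℕ, ∀ T : ℤ, T.toNat = n → 0 < T → (¬ ∃ b : ℕ, T = 2 ^ b) → A0 2 T from
    fun T hT h2 => H _ T rfl hT h2
  intro n
  induction n using Nat.strong_induction_on with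
  | _ n ih =>
    intro T hn hT h2
    rcases Int.even_or_odd' T with ⟨k, rfl | rfl⟩
    · have hk : 1 < k := by
        by_contra hcon
        have hk1 : k = 1 := by omega
        exact h2 ⟨1, by rw [hk1]; norm_num⟩
      have hk2 : ¬ ∃ b : ℕ, k = 2 ^ b := by
        rintro ⟨b, rfl⟩
        exact h2 ⟨b + 1, by rw [pow_succ]; ring⟩
      have IH : A0 2 k := ih k.toNat (by omega) k rfl (by omega) hk2
      intro u hu hdu
      obtain ⟨y, hy, hyw, hyd, G, hG, hGw, e⟩ := hS k hk u hu.1 hu.2.1 hu.2.2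
      have hyZ : y ∈ ZR 2 k := ⟨hy, hyw, hyd⟩
      have hGB : dE 2 G ∈ BR 2 (2 * k) := ⟨G, hG, hGw, rfl⟩
      have h4 : u + y ^ 2 ∈ BR 2 (2 * k) := by
        have e1 : u + y ^ 2 = dE 2 G := by
          rw [e]
          calc y ^ 2 + dE 2 G + y ^ 2 = (y ^ 2 + y ^ 2) + dE 2 G := by abel
            _ = dE 2 G := by rw [add_self2, zero_add]
        rw [e1]
        exact hGB
      have h5 := (dlOp 2 (2 * k)).congr hu h4
      have h6 : dl 2 (y ^ 2) ∈ BR 3 (2 * (2 * k)) := BR_cancel' h5 hdu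
      rw [dl_sq] at h6
      obtain ⟨G', hG', hGw', e'⟩ := h6
      have hdy := dl_ZR hyZ
      obtain ⟨z, hz, hzw, ez⟩ := hI3 (2 * k) (by omega) (dl 2 y) hdy.1 hdy.2.1 G' hG' hGw' e'.symm
      have h7 : dl 2 y ∈ BR 3 (2 * k) := ⟨z, hz, hzw, ez⟩
      have h8 : y ∈ BR 2 k := IH y hyZ h7
      rw [e]
      exact Submodule.add_mem _ (sq_BR h8) hGB
    · have h := hOdd (k + 1)
      rwa [show 2 * (k + 1) - 1 = 2 * k + 1 by ring] at h

end Pool.Agent.Work.MP_701abf_gt.Sq2.FL
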