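import Pool.Agent.Work.MP_701abf_gt.FL.TwoStmts

/-!
# MP_701abf_gt, four-line theorem: item Inv (invariants of the symmetric square of `W`)
-/

open MvPolynomial
open Pool.Agent.Work.MP_701abf_gt.Stab Pool.Agent.Work.MP_701abf_gt.Cob

namespace Pool.Agent.Work.MP_701abf_gt.Sq2.FL

namespace XInv

/-- The action of the point `dl 1 1`. -/
lemma act_dl (w : ℕ → ZMod 2) (n : ℕ) :
    act 0 (Cob.dl 1 (1 : ZMod 2)) w n = w n + if 1 ≤ n then w (n - 1) else 0 := by
  rw [act_apply, Finset.Nat.sum_antidiagonal_eq_sum_range_succ_mk]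
  have e : ∀ i ∈ Finset.range n.succ,
      (Cob.dl 1 (1 : ZMod 2)).co i ^ 2 ^ (n - i + 0) * w (n - i) =
      (if i = 0 then w n else 0) + (if i = 1 then w (n - 1) else 0) := by
    intro i _
    by_cases h0 : i = 0
    · subst h0
      rw [if_pos rfl, Pt.co_zero, one_pow, one_mul, Nat.sub_zero]
      exact (add_zero _).symm
    · rw [if_neg h0, zero_add, Cob.dl_co _ h0]
      by_cases h1 : i = 1
      · subst h1
        rw [if_pos rfl, if_pos rfl, one_pow, one_mul]
      · rw [if_neg h1, if_neg h1, zero_pow (by positivity), zero_mul]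
  rw [Finset.sum_congr rfl e, Finset.sum_add_distrib, Finset.sum_ite_eq', Finset.sum_ite_eq',
    if_pos (Finset.mem_range.2 (by omega))]
  congr 1
  by_cases h1 : 1 ≤ n
  · rw [if_pos (Finset.mem_range.2 (by omega)), if_pos h1]
  · rw [if_neg (fun h => h1 (by have := Finset.mem_range.1 h; omega)), if_neg h1]

lemma ev_dR (w : Option Empty → ℕ → ZMod 2) (i j : ℕ)
    (h : dR (fun _ : Option Empty => 0) 1 (gW none i * gW none j) = 0) :
    (w none i + if 1 ≤ i then w none (i - 1) else 0) *
      (w none j + if 1 ≤ j then w none (j - 1) else 0) + w none i * w none j = 0 := by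
  have h2 := congrArg (ev (fun _ => Cob.dl 1 (1 : ZMod 2)) w) h
  rw [dR_apply, map_zero, Finset.sum_range_succ, Finset.sum_range_one, map_add, ev_face_apply,
    ev_face_apply, map_mul, map_mul, ev_gW, ev_gW, ev_gW, ev_gW] at h2
  rw [← act_dl, ← act_dl]
  exact h2

end XInv

theorem pr_Inv' (hMonB : S_MonB) : S_Inv := by
  intro c0 hc m hm F hF hw hd
  rcases hMonB c0 hc m F hF hw with h | ⟨i, j, hij, hmij, rfl⟩
  · exact h
  exfalso
  have hj : 1 ≤ j := by
    by_contra h0
    have h1 : j = 0 := by omega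
    have h2 : i = 0 := by omega
    subst h1; subst h2
    exact hm (by rw [hmij]; norm_num)
  obtain ⟨v, hv⟩ : ∃ v : ℕ → ZMod 2, ∀ k, v k = if k = j - 1 ∨ (k = i ∧ i < j) then 1 else 0 :=
    ⟨_, fun _ => rfl⟩
  have h := XInv.ev_dR (fun _ => v) i j hd
  have h1 : v (j - 1) = 1 := by rw [hv]; exact if_pos (Or.inl rfl)
  have h2 : v j = 0 := by rw [hv]; exact if_neg (by omega)
  rw [if_pos hj, h1, h2] at h
  rcases Nat.lt_or_ge i j with hlt | hge
  · have h3 : v i = 1 := by rw [hv]; exact if_pos (Or.inr ⟨rfl, hlt⟩)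
    have h4 : (if 1 ≤ i then v (i - 1) else 0) = 0 := by
      split_ifs with ha
      · rw [hv]; exact if_neg (by omega)
      · rfl
    rw [h3, h4] at h
    revert h
    decide
  · have hi : i = j := by omega
    subst hi
    rw [if_pos hj, h1, h2] at h
    revert h
    decide

end Pool.Agent.Work.MP_701abf_gt.Sq2.FL
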