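import Pool.Agent.Work.MP_701abf_gt.FL.TwoStmts

/-!
Four-line theorem, the 2-line: the Massey product of two consecutive classes.
-/

open MvPolynomial
open Pool.Agent.Work.MP_701abf_gt.Stab Pool.Agent.Work.MP_701abf_gt.Cob

namespace Pool.Agent.Work.MP_701abf_gt.Sq2.FL

noncomputable section

namespace XMas

lemma addp (x y : RR Empty) (k : ℕ) : (x + y) ^ 2 ^ k = x ^ 2 ^ k + y ^ 2 ^ k := by
  induction k with
  | zero => simp
  | succ k ih =>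
    have e : 2 ^ (k + 1) = 2 ^ k * 2 := pow_succ 2 k
    rw [e, pow_mul, pow_mul, pow_mul, ih, sq_add]

lemma shB : sh (ι := Empty) 1 h0c = (gG (ι := Empty) 1).co 1 := by
  unfold h0c
  rw [sh_inl]
  rfl

lemma shQ : sh (ι := Empty) 1 x2c = (gG (ι := Empty) 1).co 2 := by
  unfold x2c
  rw [sh_inl]
  rfl

lemma face_P : face (fun _ : Empty => 0) 1 x2c =
    x2c + sh (ι := Empty) 1 h0c ^ 2 * h0c + sh (ι := Empty) 1 x2c := by
  have e1 : (gG (ι := Empty) 1 * gG 0).co 2 =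
      (gG (ι := Empty) 0).co 2 + (gG (ι := Empty) 1).co 1 ^ 2 * (gG (ι := Empty) 0).co 1 +
      (gG (ι := Empty) 1).co 2 := by
    rw [Pt.co_mul, Finset.Nat.sum_antidiagonal_eq_sum_range_succ_mk]
    simp only [Finset.sum_range_succ, Finset.sum_range_zero, Pt.co_zero]
    norm_num
  have e2 : face (fun _ : Empty => 0) 1 x2c = (gG (ι := Empty) 1 * gG 0).co 2 := by
    unfold x2c
    rw [face_inl]
    rfl
  have e4 : h0c = (gG (ι := Empty) 0).co 1 := rfl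
  have e5 : x2c = (gG (ι := Empty) 0).co 2 := rfl
  rw [e2, e1, shB, shQ, ← e4, ← e5]

lemma face_A : face (fun _ : Empty => 0) 1 h0c = sh (ι := Empty) 1 h0c + h0c := by
  have e0 : face (fun _ : Empty => 0) 0 h0c = sh 1 h0c := face_zero _
  have e2 : face (fun _ : Empty => 0) 2 h0c = h0c := face_high _ (n := 1) le_rfl h0c_lev
  have h := h0c_d
  rw [dR_apply] at h
  simp only [Finset.sum_range_succ, Finset.sum_range_zero, zero_add] at h
  rw [e0, e2] at h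
  have h2 := add_eq_zero2.1 h
  have h3 := add_self2 (sh (ι := Empty) 1 h0c)
  calc face (fun _ : Empty => 0) 1 h0c = sh 1 h0c + (sh 1 h0c +
        face (fun _ : Empty => 0) 1 h0c) := by rw [← add_assoc, h3, zero_add]
    _ = _ := by rw [h2]

lemma d_AP : dE 2 (h0c * x2c) + (h0c * (sh (ι := Empty) 1 h0c ^ 3 + sh (ι := Empty) 1 x2c) +
    x2c * sh (ι := Empty) 1 h0c) = h0c ^ 2 * sh (ι := Empty) 1 h0c ^ 2 := by
  have a0 : face (fun _ : Empty => 0) 0 h0c = sh 1 h0c := face_zero _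
  have a2 : face (fun _ : Empty => 0) 2 h0c = h0c := face_high _ (n := 1) le_rfl h0c_lev
  have p0 : face (fun _ : Empty => 0) 0 x2c = sh 1 x2c := face_zero _
  have p2 : face (fun _ : Empty => 0) 2 x2c = x2c := face_high _ (n := 1) le_rfl x2c_lev
  rw [dR_apply]
  simp only [Finset.sum_range_succ, Finset.sum_range_zero, zero_add, map_mul]
  rw [a0, a2, p0, p2, face_A, face_P]
  have h2 : (2 : RR Empty) = 0 := two_zero
  linear_combination (sh (ι := Empty) 1 h0c * sh (ι := Empty) 1 x2c +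
    sh (ι := Empty) 1 h0c * x2c + h0c * x2c + h0c * sh (ι := Empty) 1 x2c +
    h0c * sh (ι := Empty) 1 h0c ^ 3) * h2

lemma d_cube : dE 2 (h0c ^ 3 + x2c) = h0c ^ 2 * sh (ι := Empty) 1 h0c := by
  rw [map_add, x2c_d, h0c_cube_d]
  have h2 : (2 : RR Empty) = 0 := two_zero
  linear_combination h0c * sh (ι := Empty) 1 (h0c ^ 2) * h2

lemma wpow {F : RR Empty} {N : ℤ} (h : WH wE F (0, N)) (k : ℕ) :
    WH wE (F ^ 2 ^ k) (0, N * 2 ^ k) := by
  have h1 := h.pow (2 ^ k)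
  have e : (2 ^ k : ℕ) • (((0 : ℤ × ℤ), N) : (ℤ × ℤ) × ℤ) = (0, N * 2 ^ k) := by
    rw [Prod.smul_mk, smul_zero, nsmul_eq_mul]
    push_cast
    rw [mul_comm]
  rw [e] at h1
  exact h1

lemma wh_cube : WH wE (h0c ^ 3 + x2c) (0, 3) := by
  have h := h0c_wh.pow 3
  have e : 3 • (((0 : ℤ × ℤ), (1 : ℤ)) : (ℤ × ℤ) × ℤ) = (0, 3) := by
    rw [Prod.smul_mk, smul_zero, nsmul_eq_mul]
    norm_num
  rw [e] at h
  exact h.add x2c_wh

lemma wh_AP : WH wE (h0c * x2c) (0, 4) := by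
  have h := IsWeightedHomogeneous.mul h0c_wh x2c_wh
  have e : (((0, 1) : (ℤ × ℤ) × ℤ) + (0, 3)) = (0, 4) := by
    rw [Prod.mk_add_mk, add_zero]
    norm_num
  rw [e] at h
  exact h

lemma e_one (k : ℕ) : ha (k + 1) * sh (ι := Empty) 1 (ha k) =
    (h0c ^ 2 * sh (ι := Empty) 1 h0c) ^ 2 ^ k := by
  unfold ha
  have e : 2 ^ (k + 1) = 2 * 2 ^ k := pow_succ' 2 k
  rw [map_pow, mul_pow, e, pow_mul]

lemma e_two (k : ℕ) : ha (k + 1) * sh (ι := Empty) 1 (ha (k + 1)) =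
    (h0c ^ 2 * sh (ι := Empty) 1 h0c ^ 2) ^ 2 ^ k := by
  unfold ha
  have e : 2 ^ (k + 1) = 2 * 2 ^ k := pow_succ' 2 k
  rw [map_pow, mul_pow, e, pow_mul, pow_mul]

lemma not_pow (k : ℕ) : ¬ ∃ b : ℕ, (3 * 2 ^ k : ℤ) = 2 ^ b := by
  rintro ⟨b, hb⟩
  have h1 : 3 * 2 ^ k = 2 ^ b := by exact_mod_cast hb
  have h2 : 3 ∣ 2 ^ b := ⟨2 ^ k, h1.symm⟩
  have h3 := Nat.Prime.dvd_of_dvd_pow Nat.prime_three h2
  omega

end XMas

theorem pr_Mas : S_Mas := by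
  intro k u v hu huw hdu hv hvw hdv
  have hq : (2 : ℕ) ^ k ≠ 0 := by positivity
  have hlev : h0c ^ 3 + x2c ∈ lev Empty 2 :=
    Submodule.add_mem _ (lev_pow h0c_lev (by norm_num)) x2c_lev
  have hz : u + (h0c ^ 3 + x2c) ^ 2 ^ k ∈ ZR 1 (3 * 2 ^ k) := by
    refine ⟨Submodule.add_mem _ hu (lev_pow hlev hq), huw.add (XMas.wpow XMas.wh_cube k), ?_⟩
    have h1 : dE 2 ((h0c ^ 3 + x2c) ^ 2 ^ k) = dE 2 (h0c ^ 3 + x2c) ^ 2 ^ k :=
      dR_pow (fun _ : Empty => 0) 2 (h0c ^ 3 + x2c) k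
    have h2 : dE 2 (u + (h0c ^ 3 + x2c) ^ 2 ^ k) = 0 := by
      rw [map_add, hdu, h1, XMas.d_cube, XMas.e_one, add_self2]
    exact h2
  have hu1 : u = (h0c ^ 3 + x2c) ^ 2 ^ k :=
    add_eq_zero2.1 (ZR_one' (by positivity) (XMas.not_pow k) hz)
  have hdv1 : dE 2 v = (h0c * (sh (ι := Empty) 1 h0c ^ 3 + sh (ι := Empty) 1 x2c) +
      x2c * sh (ι := Empty) 1 h0c) ^ 2 ^ k := by
    have e5 : x2c = (gG (ι := Empty) 0).co 2 := rfl
    have e6 : sh (ι := Empty) 1 ((h0c ^ 3 + x2c) ^ 2 ^ k) =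
        (sh (ι := Empty) 1 h0c ^ 3 + sh (ι := Empty) 1 x2c) ^ 2 ^ k := by
      rw [map_pow, map_add, map_pow]
    have e7 : sh (ι := Empty) 1 (ha k) = sh (ι := Empty) 1 h0c ^ 2 ^ k := by
      unfold ha
      rw [map_pow]
    have e8 : ha k = h0c ^ 2 ^ k := rfl
    rw [hdv, hu1, ← e5, e6, e7, e8, XMas.addp (h0c * _) (x2c * _), mul_pow, mul_pow]
  refine dl_ha (k + 1) ?_
  rw [dl_one (ha_ZR (k + 1)).1, XMas.e_two]
  have hAP : h0c * x2c ∈ lev Empty 2 := mul_lev h0c_lev x2c_lev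
  refine ⟨v + (h0c * x2c) ^ 2 ^ k, Submodule.add_mem _ hv (lev_pow hAP hq), ?_, ?_⟩
  · have e : (2 * 2 ^ (k + 1) : ℤ) = 4 * 2 ^ k := by ring
    rw [e]
    exact hvw.add (XMas.wpow XMas.wh_AP k)
  · have h1 : dE 2 ((h0c * x2c) ^ 2 ^ k) = dE 2 (h0c * x2c) ^ 2 ^ k :=
      dR_pow (fun _ : Empty => 0) 2 (h0c * x2c) k
    rw [map_add, h1, hdv1, add_comm, ← XMas.addp, XMas.d_AP]

end

end Pool.Agent.Work.MP_701abf_gt.Sq2.FL
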