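import Pool.Agent.Work.MP_701abf_gt.FL.TwoStmts

/-!
MP_701abf_gt, four-line theorem, item MonB (helper70): elements of degree two in the coefficients.
-/

open MvPolynomial
open Pool.Agent.Work.MP_701abf_gt.Stab Pool.Agent.Work.MP_701abf_gt.Cob

namespace Pool.Agent.Work.MP_701abf_gt.Sq2.FL

noncomputable section

namespace XMonB

lemma pow_uniq {i j i' j' : ℕ} (h : i ≤ j) (h' : i' ≤ j')
    (e : (2 : ℤ) ^ i + 2 ^ j = 2 ^ i' + 2 ^ j') : i = i' ∧ j = j' := by
  have e1 : 2 ^ i + 2 ^ j = 2 ^ i' + 2 ^ j' := by exact_mod_cast e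
  have lt_aux : ∀ {a b a' b' : ℕ}, a ≤ b → b < b' → 2 ^ a + 2 ^ b < 2 ^ a' + 2 ^ b' := by
    intro a b a' b' hab hb
    have h1 : 2 ^ a ≤ 2 ^ b := Nat.pow_le_pow_right (by norm_num) hab
    have h2 : 2 ^ (b + 1) ≤ 2 ^ b' := Nat.pow_le_pow_right (by norm_num) hb
    have h3 : 0 < 2 ^ a' := by positivity
    rw [pow_succ] at h2
    omega
  have hj : j = j' := by
    rcases lt_trichotomy j j' with hlt | heq | hgt
    · have := lt_aux (a' := i') h hlt
      omega
    · exact heq
    · have := lt_aux (a' := i) h' hgt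
      omega
  subst hj
  have hi : 2 ^ i = 2 ^ i' := by omega
  exact ⟨Nat.pow_right_injective le_rfl hi, rfl⟩

lemma smul_uniq {c0 : ℤ × ℤ} (hc : c0 ≠ 0) {n : ℕ} (h : n • c0 = c0 + c0) : n = 2 := by
  have h1 : ((n : ℤ) - 2) • c0 = 0 := by
    rw [sub_smul, natCast_zsmul, h, two_smul, sub_self]
  rcases smul_eq_zero.1 h1 with h2 | h2
  · omega
  · exact absurd h2 hc

lemma two_shape {α : Type*} [DecidableEq α] (u : α →₀ ℕ) (h : (u.sum fun _ k => k) = 2) :
    ∃ a b : α, u = Finsupp.single a 1 + Finsupp.single b 1 := by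
  have h1 : Multiset.card (Finsupp.toMultiset u) = 2 := by
    rw [Finsupp.card_toMultiset]
    exact h
  obtain ⟨a, b, hab⟩ := Multiset.card_eq_two.1 h1
  refine ⟨a, b, ?_⟩
  have h2 := congrArg Multiset.toFinsupp hab
  rw [Finsupp.toMultiset_toFinsupp] at h2
  rw [h2]
  show Multiset.toFinsupp (a ::ₘ {b}) = _
  rw [← Multiset.singleton_add, map_add, Multiset.toFinsupp_singleton,
    Multiset.toFinsupp_singleton]

lemma shape {c0 : ℤ × ℤ} (hc : c0 ≠ 0) {m : ℤ} {F : RR (Option Empty)}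
    (hF : F ∈ lev (Option Empty) 1)
    (hw : WH (wt (fun _ : Option Empty => c0) (fun _ => 0)) F (c0 + c0, m))
    (d : ((ℕ × ℕ) ⊕ (Option Empty × ℕ)) →₀ ℕ) (hd : coeff d F ≠ 0) :
    ∃ i j : ℕ, i ≤ j ∧ m = 2 ^ i + 2 ^ j ∧
      d = Finsupp.single (Sum.inr (none, i)) 1 + Finsupp.single (Sum.inr (none, j)) 1 := by
  classical
  have h1 := mem_lev_succ.1 hF
  have h2 : prj (ι := Option Empty) 0 = (rename Sum.inr).comp
      (aeval (Sum.elim (fun _ => (0 : MvPolynomial (Option Empty × ℕ) (ZMod 2))) X)) := by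
    refine algHom_ext fun v => ?_
    rcases v with v | v
    · rw [prj_inl_ge (by omega), AlgHom.comp_apply, aeval_X, Sum.elim_inl, map_zero]
    · rw [prj_inr, AlgHom.comp_apply, aeval_X, Sum.elim_inr, rename_X]
  have h3 : ∃ G : MvPolynomial (Option Empty × ℕ) (ZMod 2), F = rename Sum.inr G := by
    rw [h2, AlgHom.comp_apply] at h1
    exact ⟨aeval (Sum.elim (fun _ => (0 : MvPolynomial (Option Empty × ℕ) (ZMod 2))) X) F,
      h1.symm⟩
  obtain ⟨G, hG⟩ := h3
  have h4 := hw hd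
  rw [hG] at hd
  obtain ⟨u, hu, -⟩ := coeff_rename_ne_zero _ _ _ hd
  have hs : ((Finsupp.mapDomain Sum.inr u).sum fun v k =>
      k • wt (fun _ : Option Empty => c0) (fun _ => 0) v) =
      u.sum fun v k => k • wt (fun _ : Option Empty => c0) (fun _ => 0) (Sum.inr v) :=
    Finsupp.sum_mapDomain_index (fun _ => zero_smul _ _) (fun _ _ _ => add_smul _ _ _)
  rw [← hu, Finsupp.weight_apply, hs] at h4
  have h5 : (u.sum fun _ k => k) = 2 := by
    apply smul_uniq hc
    have h6 := congrArg Prod.fst h4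
    rw [Finsupp.sum, Prod.fst_sum] at h6
    rw [Finsupp.sum, Finset.sum_smul]
    refine Eq.trans ?_ h6
    exact Finset.sum_congr rfl fun _ _ => rfl
  obtain ⟨a, b, hab⟩ := two_shape u h5
  have key : ∀ x : Option Empty × ℕ, ∃ i : ℕ, x = (none, i) := by
    rintro ⟨o, i⟩
    rcases o with _ | e
    · exact ⟨i, rfl⟩
    · exact e.elim
  obtain ⟨i, rfl⟩ := key a
  obtain ⟨j, rfl⟩ := key b
  have h7 := congrArg Prod.snd h4
  have hs2 : (u.sum fun v k =>
      k • wt (fun _ : Option Empty => c0) (fun _ => 0) (Sum.inr v)) =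
      wt (fun _ : Option Empty => c0) (fun _ => 0) (Sum.inr (none, i)) +
      wt (fun _ : Option Empty => c0) (fun _ => 0) (Sum.inr (none, j)) := by
    rw [hab, Finsupp.sum_add_index' (h := fun v k =>
        k • wt (fun _ : Option Empty => c0) (fun _ => 0) (Sum.inr v)) (fun _ => zero_smul _ _)
        (fun _ _ _ => add_smul _ _ _),
      Finsupp.sum_single_index (h := fun v k =>
        k • wt (fun _ : Option Empty => c0) (fun _ => 0) (Sum.inr v)) (zero_smul _ _),
      Finsupp.sum_single_index (h := fun v k =>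
        k • wt (fun _ : Option Empty => c0) (fun _ => 0) (Sum.inr v)) (zero_smul _ _),
      one_smul, one_smul]
  rw [hs2] at h7
  have h8 : (2 : ℤ) ^ i + 2 ^ j = m := h7
  have h9 : d = Finsupp.single (Sum.inr (none, i)) 1 + Finsupp.single (Sum.inr (none, j)) 1 := by
    rw [← hu, hab, Finsupp.mapDomain_add, Finsupp.mapDomain_single, Finsupp.mapDomain_single]
  rcases le_total i j with h | h
  · exact ⟨i, j, h, h8.symm, h9⟩
  · exact ⟨j, i, h, by rw [← h8, add_comm], by rw [h9, add_comm]⟩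

end XMonB

open XMonB in
theorem pr_MonB : S_MonB := by
  intro c0 hc m F hF hw
  by_cases h0 : F = 0
  · exact Or.inl h0
  right
  obtain ⟨d, hd⟩ := MvPolynomial.ne_zero_iff.1 h0
  obtain ⟨i, j, hij, hm, hdd⟩ := shape hc hF hw d hd
  refine ⟨i, j, hij, hm, ?_⟩
  have two : ∀ x : ZMod 2, x ≠ 0 → x = 1 := by decide
  have h1 : F = monomial d 1 := by
    ext e
    rw [coeff_monomial]
    split_ifs with h
    · rw [← h]
      exact two _ hd
    · by_contra hne
      obtain ⟨i', j', hij', hm', hee⟩ := shape hc hF hw e hne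
      obtain ⟨h2, h3⟩ := pow_uniq hij hij' (hm.symm.trans hm')
      subst h2
      subst h3
      exact h (hdd.trans hee.symm)
  rw [h1, hdd, gW, gW, X, X, monomial_mul, one_mul]

end

end Pool.Agent.Work.MP_701abf_gt.Sq2.FL
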