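import Pool.Agent.Work.MP_701abf_gt.FL.TwoStmts

/-!
# MP_701abf_gt: products of two classes of the 1-line
-/

open MvPolynomial
open Pool.Agent.Work.MP_701abf_gt.Stab Pool.Agent.Work.MP_701abf_gt.Cob

namespace Pool.Agent.Work.MP_701abf_gt.Sq2.FL

noncomputable section

namespace XNv

lemma symb_ne (d : ℕ) :
    (X (Sum.inl (0, 0)) ^ 2 ^ d * gW none 0 : RR (Option Empty)) ≠ 0 := by
  refine mul_ne_zero (pow_ne_zero _ (X_ne_zero _)) ?_
  exact X_ne_zero _

lemma base (hA : S_MonA) (hC : S_SymCob) (hH : S_SymH) (d : ℕ) (hd : 1 ≤ d)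
    (h : ha 0 * sh 1 (ha (d + 1)) ∈ BR 2 (2 ^ (d + 1) + 1)) : False := by
  obtain ⟨h1, h2, h3⟩ := hH d
  have e1 : (2 * ((2 : ℤ) ^ d + 1) - 1) = 2 ^ (d + 1) + 1 := by ring
  have h4 := hC (2 ^ d + 1) (ha 0 * sh 1 (ha (d + 1))) (by rw [e1]; exact BR_le _ _ h) _ h2 h1
  rw [e1] at h4
  obtain ⟨e, he, hde⟩ := h4.1 h
  have hc : (cO : Option Empty → ℤ × ℤ) = fun _ => (0, 1) := by
    funext x
    rcases x with _ | x
    · rfl
    · exact x.elim
  have h5 := hA (0, 1) (by simp) (2 ^ d + 1) e he.1 (by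
    have h6 := he.2
    rw [hc] at h6
    exact h6)
  rcases h5 with h5 | ⟨i, hi, _⟩
  · rw [h5, map_zero] at hde
    exact symb_ne d hde.symm
  · obtain ⟨k, rfl⟩ : ∃ k, d = k + 1 := ⟨d - 1, by omega⟩
    have hi' : (2 : ℕ) ^ (k + 1) + 1 = 2 ^ i := by exact_mod_cast hi
    rcases i with _ | i
    · have : 0 < 2 ^ (k + 1) := by positivity
      rw [pow_zero] at hi'
      omega
    · rw [pow_succ, pow_succ] at hi'
      omega

lemma prod_ZR (c : ℕ) : ha 0 * sh 1 (ha c) ∈ ZR 2 (2 ^ c + 1) := by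
  have h := mul_ZR (ha_ZR c) (ha_ZR 0)
  rw [pow_zero] at h
  exact h

lemma desc (hI : ∀ N : ℤ, Inj0 2 N) {N : ℤ} {F : RR Empty} (hF : F ∈ ZR 2 N) (a : ℕ)
    (h : F ^ 2 ^ a ∈ BR 2 (2 ^ a * N)) : F ∈ BR 2 N := by
  have hZ : ∀ a : ℕ, F ^ 2 ^ a ∈ ZR 2 (2 ^ a * N) := by
    intro a
    induction a with
    | zero =>
      have e : F ^ 2 ^ 0 = F := by rw [pow_zero, pow_one]
      rw [e, pow_zero, one_mul]
      exact hF
    | succ a ih =>
      have h1 := sq_ZR ih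
      rw [← pow_mul, ← pow_succ, ← mul_assoc, ← pow_succ'] at h1
      exact h1
  induction a with
  | zero =>
    have e : F ^ 2 ^ 0 = F := by rw [pow_zero, pow_one]
    rw [e, pow_zero, one_mul] at h
    exact h
  | succ a ih =>
    apply ih
    obtain ⟨G, hG, hw, hd⟩ := h
    obtain ⟨h1, h2, _⟩ := hZ a
    obtain ⟨z, hz, hzw, hzd⟩ := hI (2 ^ a * N) (F ^ 2 ^ a) h1 h2 G hG
      (by rw [← mul_assoc, ← pow_succ']; exact hw)
      (by rw [← pow_mul, ← pow_succ]; exact hd.symm)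
    exact ⟨z, hz, hzw, hzd⟩

lemma ha_pow (a c : ℕ) : (ha 0 * sh 1 (ha c)) ^ 2 ^ a = ha a * sh 1 (ha (a + c)) := by
  rw [mul_pow, ← map_pow]
  unfold ha
  rw [← pow_mul, ← pow_mul, ← pow_add, ← pow_add, zero_add, add_comm c a]

lemma half (hA : S_MonA) (hS : S_Sur) (hC : S_SymCob) (hH : S_SymH) (a c : ℕ)
    (h : ha a * sh 1 (ha (a + c)) ∈ BR 2 (2 ^ a + 2 ^ (a + c))) : c = 1 := by
  rcases c with _ | c
  · exfalso
    rw [add_zero] at h
    refine dl_ha a ?_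
    rw [dl_one (ha_ZR a).1, two_mul]
    exact h
  · rcases c with _ | d
    · rfl
    · exfalso
      rw [← ha_pow] at h
      have e : (2 : ℤ) ^ a + 2 ^ (a + (d + 1 + 1)) = 2 ^ a * (2 ^ (d + 1 + 1) + 1) := by ring
      rw [e] at h
      exact base hA hC hH (d + 1) (by omega) (desc hS.2.2 (prod_ZR _) a h)

end XNv

theorem pr_Nv : S_Nv := by
  intro hA hS hC hH hO a b h
  rcases le_total a b with hab | hab
  · obtain ⟨c, rfl⟩ := Nat.exists_eq_add_of_le hab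
    have h1 := XNv.half hA hS hC hH a c h
    right
    rw [h1]
  · obtain ⟨c, rfl⟩ := Nat.exists_eq_add_of_le hab
    have h2 := hO (b + c) b
    have h3 := Submodule.add_mem _ h2 h
    have e : ha (b + c) * sh 1 (ha b) + ha b * sh 1 (ha (b + c)) + ha (b + c) * sh 1 (ha b) =
        ha b * sh 1 (ha (b + c)) := by
      have h4 := add_self2 (ha (b + c) * sh 1 (ha b))
      calc _ = ha b * sh 1 (ha (b + c)) +
            (ha (b + c) * sh 1 (ha b) + ha (b + c) * sh 1 (ha b)) := by abel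
        _ = _ := by rw [h4, add_zero]
    rw [e, add_comm ((2 : ℤ) ^ (b + c))] at h3
    have h1 := XNv.half hA hS hC hH b c h3
    left
    rw [h1]

end

end Pool.Agent.Work.MP_701abf_gt.Sq2.FL
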