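import Pool.Agent.Work.MP_701abf_gt.FL.TwoStmts

/-!
# [701abf FL OddL]: the 2-line in odd degrees
-/

open MvPolynomial
open Pool.Agent.Work.MP_701abf_gt.Stab Pool.Agent.Work.MP_701abf_gt.Cob

namespace Pool.Agent.Work.MP_701abf_gt.Sq2.FL

noncomputable section

namespace XOddL

lemma pZR (d : ℕ) (M : ℤ) (hM : M = 2 ^ d + 1) : ha 0 * sh 1 (ha (d + 1)) ∈ ZR 2 (2 * M - 1) := by
  have h := mul_ZR (ha_ZR (d + 1)) (ha_ZR 0)
  have e : (2 : ℤ) ^ (d + 1) + 2 ^ 0 = 2 * M - 1 := by rw [hM, pow_succ]; ring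
  rw [e] at h
  exact h

end XOddL

theorem pr_OddL : S_OddL := by
  intro hEx hCob hH hCom hcl M x hx
  obtain ⟨G, hG, hGw, y, hy, hdy, hs⟩ := hEx M x hx
  have hBG : dE 2 G ∈ BR 2 (2 * M - 1) := ⟨G, hG, hGw, rfl⟩
  have hx' : x + dE 2 G ∈ ZR 2 (2 * M - 1) := Submodule.add_mem _ hx (BR_le _ _ hBG)
  rcases hcl M y hy hdy with he | ⟨d, hd, hM, hyd⟩
  · left
    have h1 : x + dE 2 G ∈ BR 2 (2 * M - 1) := (hCob M _ hx' y hy hs).2 he
    have h2 := Submodule.sub_mem _ h1 hBG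
    rwa [add_sub_cancel_right] at h2
  · right
    have hsH := (hH d).1
    rw [← hyd] at hsH
    have hsym : Sym (x + dE 2 G + ha 0 * sh 1 (ha (d + 1))) 0 := by
      unfold Sym at hs hsH ⊢
      rw [map_add EQ, map_add DQ, hs, hsH, map_zero, map_zero, add_self2]
    have hz : x + dE 2 G + ha 0 * sh 1 (ha (d + 1)) ∈ ZR 2 (2 * M - 1) :=
      Submodule.add_mem _ hx' (XOddL.pZR d M hM)
    have h1 : x + dE 2 G + ha 0 * sh 1 (ha (d + 1)) ∈ BR 2 (2 * M - 1) :=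
      (hCob M _ hz 0 (Submodule.zero_mem _) hsym).2 ⟨0, Submodule.zero_mem _, map_zero _⟩
    have hT : 2 * M - 1 = 1 + 2 ^ (d + 1) := by rw [hM, pow_succ]; ring
    refine ⟨d + 1, by omega, hT, ?_⟩
    have h3 : ha 0 * sh 1 (ha (d + 1)) + ha (d + 1) * sh 1 (ha 0) ∈ BR 2 (2 * M - 1) := by
      have h4 := hCom 0 (d + 1)
      rw [pow_zero, ← hT] at h4
      exact h4
    have h4 := Submodule.add_mem _ (Submodule.add_mem _ h1 hBG) h3
    have h5 : x + dE 2 G + ha 0 * sh 1 (ha (d + 1)) + dE 2 G +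
        (ha 0 * sh 1 (ha (d + 1)) + ha (d + 1) * sh 1 (ha 0)) = x + ha (d + 1) * sh 1 (ha 0) := by
      have h6 := add_self2 (dE 2 G)
      have h7 := add_self2 (ha 0 * sh (ι := Empty) 1 (ha (d + 1)))
      linear_combination h6 + h7
    rwa [h5] at h4

end

end Pool.Agent.Work.MP_701abf_gt.Sq2.FL
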