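import Pool.Agent.Work.MP_701abf_gt.FL.TwoStmts

/-! Four-line theorem, the 2-line: `TwoPow` from `TwoSpan`. -/

open MvPolynomial
open Pool.Agent.Work.MP_701abf_gt.Stab Pool.Agent.Work.MP_701abf_gt.Cob

namespace Pool.Agent.Work.MP_701abf_gt.Sq2.FL

theorem pr_PowR : S_PowR := by
  intro h a x hx
  rcases h (2 ^ (a + 1)) (by positivity) x hx with h1 | ⟨c, d, hcd, hT, h1⟩
  · exact Or.inl h1
  · right
    have hT' : 2 ^ (a + 1) = 2 ^ c + 2 ^ d := by exact_mod_cast hT
    rcases hcd with rfl | hcd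
    · have h2 : 2 ^ (a + 1) = 2 ^ (c + 1) := by rw [hT', pow_succ]; ring
      have h3 : a + 1 = c + 1 := Nat.pow_right_injective le_rfl h2
      have h4 : a = c := by omega
      subst h4
      exact h1
    · exfalso
      have h2 : 2 ^ d < 2 ^ (a + 1) := by
        rw [hT']
        exact Nat.lt_add_of_pos_left (by positivity)
      have h3 : 2 ^ (a + 1) < 2 ^ (d + 1) := by
        have h4 : 2 ^ c < 2 ^ d := Nat.pow_lt_pow_right (by norm_num) (by omega)
        rw [hT', pow_succ]
        omega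
      have h5 := (Nat.pow_lt_pow_iff_right (by norm_num : 1 < 2)).1 h2
      have h6 := (Nat.pow_lt_pow_iff_right (by norm_num : 1 < 2)).1 h3
      omega

end Pool.Agent.Work.MP_701abf_gt.Sq2.FL
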