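import Pool.Agent.Work.MP_701abf_gt.FL.TwoStmts

/-!
# MP_701abf_gt, the four-line theorem: if the square of a 1-cochain with values in `W` is a
coboundary, so is the cochain
-/

open MvPolynomial
open Finset.HasAntidiagonal (antidiagonal mem_antidiagonal)
open Pool.Agent.Work.MP_701abf_gt.Stab Pool.Agent.Work.MP_701abf_gt.Cob

namespace Pool.Agent.Work.MP_701abf_gt.Sq2.FL

noncomputable section

namespace XSqCob

theorem pd_co (j a n : ℕ) :
    pderiv (Sum.inr ((none : Option Empty), j)) ((gG a).co n : RR (Option Empty)) = 0 := by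
  cases n with
  | zero => exact Derivation.map_one_eq_zero _
  | succ n => exact pderiv_X_of_ne (by simp)

theorem pd_gW (j q : ℕ) :
    pderiv (Sum.inr ((none : Option Empty), j)) (gW none q : RR (Option Empty)) =
      if q = j then 1 else 0 := by
  split_ifs with h
  · subst h
    exact pderiv_X_self _
  · exact pderiv_X_of_ne (by simpa using h)

theorem pd_term (j a p q k : ℕ) :
    pderiv (Sum.inr ((none : Option Empty), j))
      ((gG a).co p ^ k * gW none q : RR (Option Empty)) =
      (gG a).co p ^ k * (if q = j then 1 else 0) := by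
  rw [Derivation.leibniz, Derivation.leibniz_pow, pd_co, pd_gW]
  simp

theorem pd_act_lt {j n : ℕ} (h : n < j) :
    pderiv (Sum.inr ((none : Option Empty), j))
      (act 0 (gG 0) (gW none) n : RR (Option Empty)) = 0 := by
  rw [act_apply, map_sum]
  refine Finset.sum_eq_zero fun p hp => ?_
  have h1 := mem_antidiagonal.1 hp
  rw [pd_term, if_neg (by omega), mul_zero]

theorem pd_act_self (j : ℕ) :
    pderiv (Sum.inr ((none : Option Empty), j))
      (act 0 (gG 0) (gW none) j : RR (Option Empty)) = 1 := by
  rw [act_apply, map_sum, Finset.sum_eq_single (0, j)]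
  · rw [pd_term, if_pos rfl, Pt.co_zero, one_pow, one_mul]
  · rintro ⟨p, q⟩ hp hne
    have h1 := mem_antidiagonal.1 hp
    rw [pd_term, if_neg, mul_zero]
    intro h2
    apply hne
    simp only at h1 h2
    rw [Prod.mk.injEq]
    constructor <;> omega
  · intro h
    exact absurd (mem_antidiagonal.2 (by simp)) h

theorem face0 (i : ℕ) :
    face (fun _ : Option Empty => 0) 0 (gW none i) = act 0 (gG 0) (gW none) i :=
  face_inr _ _ _

theorem face1 (i : ℕ) :
    face (fun _ : Option Empty => 0) 1 (gW none i) = gW none i :=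
  face_inr _ _ _

theorem dc_gW (i : ℕ) : dc 1 (gW none i) = act 0 (gG 0) (gW none) i + gW none i := by
  rw [dc, dR_apply, Finset.sum_range_succ, Finset.sum_range_one, face0, face1]

theorem dc_mul (i j : ℕ) : dc 1 (gW none i * gW none j) =
    act 0 (gG 0) (gW none) i * act 0 (gG 0) (gW none) j + gW none i * gW none j := by
  rw [dc, dR_apply, Finset.sum_range_succ, Finset.sum_range_one, map_mul, map_mul, face0, face1,
    face0, face1]

/-- `w_i` is not invariant for `i ≥ 1` -/
theorem dc_ne {i : ℕ} (hi : 1 ≤ i) (h : act 0 (gG 0) (gW none) i + gW none i =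
    (0 : RR (Option Empty))) : False := by
  have h1 := congrArg (ev (S := ZMod 2) (fun _ => Cob.dl 1 1)
    (fun _ k => if k = i - 1 then 1 else 0)) h
  rw [map_add, map_zero, map_act, ev_gW, mapPt_ev, if_neg (by omega), add_zero, act_apply,
    Finset.sum_eq_single (1, i - 1)] at h1
  · rw [ev_gW, if_pos rfl, mul_one] at h1
    simp only [Cob.dl, one_ne_zero, if_false, if_true, one_pow] at h1
  · rintro ⟨p, q⟩ hp hne
    have h2 := mem_antidiagonal.1 hp
    simp only [ev_gW]
    rw [if_neg, mul_zero]
    intro h3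
    apply hne
    simp only at h2 h3
    rw [Prod.mk.injEq]
    constructor <;> omega
  · intro h2
    exact absurd (mem_antidiagonal.2 (by simp only; omega)) h2

theorem eq_of_sq {a b : RR (Option Empty)} (h : a ^ 2 = b ^ 2) : a = b := by
  have h1 : (a + b) ^ 2 = 0 := by
    rw [CharTwo.add_sq, h, CharTwo.add_self_eq_zero]
  have h2 : a + b = 0 := pow_eq_zero_iff two_ne_zero |>.1 h1
  exact CharTwo.add_eq_zero.1 h2

end XSqCob

theorem pr_SqCob : S_SqCob := by
  intro hMon M y hy e he hd
  have hc : (cO : Option Empty → ℤ × ℤ) = fun _ => (0, 1) := by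
    funext b
    cases b with
    | none => rfl
    | some b => exact b.elim
  obtain ⟨he1, he2⟩ := Submodule.mem_inf.1 he
  have he3 : WH (wt cO (fun _ : Option Empty => 0)) e ((0, 2), 2 * M) := he2
  rw [hc] at he3
  rcases hMon (0, 1) (by simp) (2 * M) e he1 he3 with h0 | ⟨i, j, hij, hM, hE⟩
  · subst h0
    rw [map_zero] at hd
    have h1 : y = 0 := pow_eq_zero_iff two_ne_zero |>.1 hd.symm
    refine ⟨0, Submodule.zero_mem _, ?_⟩
    rw [map_zero, h1]
  rcases hij.lt_or_eq with hlt | heq
  · exfalso
    have hi : 1 ≤ i := by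
      rcases Nat.eq_zero_or_pos i with h1 | h1
      · subst h1
        obtain ⟨k, rfl⟩ : ∃ k, j = k + 1 := ⟨j - 1, by omega⟩
        rw [pow_succ, pow_zero] at hM
        omega
      · exact h1
    rw [hE, XSqCob.dc_mul] at hd
    have h1 := congrArg (pderiv (Sum.inr ((none : Option Empty), j))) hd
    rw [map_add, Derivation.leibniz, Derivation.leibniz, XSqCob.pd_act_lt hlt,
      XSqCob.pd_act_self, XSqCob.pd_gW j j, XSqCob.pd_gW j i, if_pos rfl, if_neg (by omega),
      Derivation.leibniz_pow] at h1
    have h2 : act 0 (gG 0) (gW none) i + gW none i = (0 : RR (Option Empty)) := by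
      have h3 : ((2 : ℕ) • (y ^ (2 - 1) • pderiv (Sum.inr ((none : Option Empty), j)) y) :
          RR (Option Empty)) = 0 := by
        rw [two_nsmul]
        exact CharTwo.add_self_eq_zero _
      rw [h3] at h1
      simpa using h1
    exact XSqCob.dc_ne hi h2
  · subst heq
    have hM' : M = 2 ^ i := by omega
    refine ⟨gW none i, Submodule.mem_inf.2 ⟨?_, ?_⟩, ?_⟩
    · exact mem_lev_succ.2 (prj_gW _ _ _)
    · have h1 := wh_gW (cO (ι := Empty)) (fun _ => 0) none i
      rw [add_zero, ← hM'] at h1
      exact h1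
    · apply XSqCob.eq_of_sq
      rw [← hd, hE]
      have h1 := dR_pow (fun _ : Option Empty => 0) 1 (gW none i) 1
      rw [pow_one] at h1
      rw [← h1, pow_two]

end

end Pool.Agent.Work.MP_701abf_gt.Sq2.FL
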