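import Pool.Agent.Work.MP_701abf_gt.FL.TwoStmts

/-!
# MP_701abf_gt, block FL, item SqSym: if `Sq^1 x = 0` then the square of the symbol is a coboundary
-/

set_option autoImplicit false

open MvPolynomial
open Pool.Agent.Work.MP_701abf_gt.Stab Pool.Agent.Work.MP_701abf_gt.Cob

namespace Pool.Agent.Work.MP_701abf_gt.Sq2.FL

noncomputable section

namespace XSqSym

lemma two_eq (F : RQ Empty) : F + F = 0 := add_self2 F

lemma levQ_mul {n : ℕ} {F G : RQ Empty} (hF : F ∈ levQ Empty (n + 1))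
    (hG : G ∈ levQ Empty (n + 1)) : F * G ∈ levQ Empty (n + 1) := by
  rw [mem_levQ_succ] at hF hG ⊢
  rw [map_mul, hF, hG]

lemma sqQ_add (F G : RQ Empty) : (F + G) ^ 2 = F ^ 2 + G ^ 2 := by
  have h := two_eq (F * G)
  linear_combination h

lemma sqQ_sum (S : Finset ℕ) (F : ℕ → RQ Empty) :
    (∑ a ∈ S, F a) ^ 2 = ∑ a ∈ S, F a ^ 2 := by
  classical
  induction S using Finset.induction_on with
  | empty => rw [Finset.sum_empty, Finset.sum_empty, zero_pow two_ne_zero]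
  | @insert a S ha ih => rw [Finset.sum_insert ha, Finset.sum_insert ha, sqQ_add, ih]

lemma dQ_sq (n : ℕ) (F : RQ Empty) : dQ n (F ^ 2) = (dQ n F) ^ 2 := by
  rw [dQ_apply, dQ_apply, sqQ_sum]
  exact Finset.sum_congr rfl fun j _ => map_pow _ _ _

lemma DQ_mul (F G : RQ Empty) : DQ (F * G) = F * DQ G + DQ F * G := by
  rw [Derivation.leibniz, smul_eq_mul, smul_eq_mul, mul_comm G]

lemma EQ_dl (x : RR Empty) : EQ (dl 2 x) = pr (fun j => faceQ j (EQ x)) 4 := by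
  unfold dl sq1 pr
  rw [map_sum]
  refine Finset.sum_congr rfl fun j _ => ?_
  rw [map_sum]
  refine Finset.sum_congr rfl fun i _ => ?_
  have e : ∀ j, faceQ j (EQ x) = EQ (face (fun _ => 0) j x) := by
    intro j
    have h0 : (fun _ : Empty => 1) = (fun _ : Empty => (0 : ℕ)) := funext fun b => b.elim
    rw [EQ_face, h0]
  simp only [e]
  split_ifs
  · rw [map_mul]
  · rw [map_zero]

lemma EQ_wh {F : RR Empty} {t : ℤ} (h : WH wE F (0, t)) : WH (wtQ Empty) (EQ F) ((0, 0), t) := by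
  have h1 : WH (wt (fun _ : Empty => (1, 0)) (fun _ => 1)) F (0, t) := by
    rw [wE_eq]
    exact h
  exact EQ_gr.map h1

lemma DQ_wh {F : RQ Empty} {q t : ℤ} (h : WH (wtQ Empty) F ((0, q), t)) :
    WH (wtQ Empty) (DQ F) ((0, q + 1), t) := by
  have h1 := DQ_gr.map h
  simp only [Prod.mk_add_mk, add_zero] at h1
  exact h1

lemma mul_whQ {F G : RQ Empty} {q q' t t' : ℤ} (h : WH (wtQ Empty) F ((0, q), t))
    (h' : WH (wtQ Empty) G ((0, q'), t')) : WH (wtQ Empty) (F * G) ((0, q + q'), t + t') := by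
  have h1 := IsWeightedHomogeneous.mul h h'
  simp only [Prod.mk_add_mk, add_zero] at h1
  exact h1

end XSqSym

open XSqSym

theorem pr_SqSym : S_SqSym := by
  intro hDPr M x hx y hy hsym hdl
  obtain ⟨E0, hE0, hE0w, hE0d⟩ := hdl
  obtain ⟨hx1, hx2, hx3⟩ := hx
  obtain ⟨hy1, hy2⟩ := hy
  obtain ⟨T, hT⟩ : ∃ T, T = 2 * (2 * M - 1) := ⟨_, rfl⟩
  rw [← hT] at hE0w
  obtain ⟨X, hX⟩ : ∃ X, X = EQ x := ⟨_, rfl⟩
  obtain ⟨Z, hZ⟩ : ∃ Z, Z = TQ y := ⟨_, rfl⟩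
  obtain ⟨E, hE⟩ : ∃ E, E = EQ E0 := ⟨_, rfl⟩
  have hsym' : DQ X = dQ 2 Z := by rw [hX, hZ]; exact hsym
  -- levels and weights
  have hXl : X ∈ levQ Empty 3 := by rw [hX]; exact EQ_lev hx1
  have hXw : WH (wtQ Empty) X ((0, 0), 2 * M - 1) := by rw [hX]; exact EQ_wh hx2
  have hEl : E ∈ levQ Empty 3 := by rw [hE]; exact EQ_lev hE0
  have hEw : WH (wtQ Empty) E ((0, 0), T) := by rw [hE]; exact EQ_wh hE0w
  have hZl : Z ∈ levQ Empty 2 := by rw [hZ]; exact TQ_lev hy1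
  have efT : fT ((0, 1), M) = ((0, 1), 2 * M - 1) := rfl
  have hZw : WH (wtQ Empty) Z ((0, 1), 2 * M - 1) := by
    rw [hZ]
    exact TQ_gr.map ((wtT_iff efT).2 hy2)
  -- closedness
  have hdX : dQ 3 X = 0 := by
    rw [hX, EQ_d, dE_eq]
    have h3 : dE 3 x = 0 := hx3
    rw [h3, map_zero]
  have hdE : dQ 3 E = pr (fun j => faceQ j X) 4 := by
    rw [hE, EQ_d, dE_eq, hE0d, hX]
    exact EQ_dl x
  have h1 : dQ 3 (DQ E + X * DQ X) = 0 := by
    rw [map_add, ← DQ_dQ, hdE, hDPr 3 X hdX]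
    exact two_eq _
  have hmem1 : DQ E + X * DQ X ∈ (hs Empty 0 T).gr 1 (2 + 1) := by
    refine Submodule.add_mem _ ⟨DQ_lev hEl, DQ_wh hEw⟩ ⟨levQ_mul hXl (DQ_lev hXl), ?_⟩
    have h2 := mul_whQ hXw (DQ_wh hXw)
    have e : (((0 : ℤ), (0 : ℤ) + (0 + 1)), (2 * M - 1) + (2 * M - 1)) =
        (((0 : ℤ), (1 : ℤ)), T) := by
      rw [hT]
      refine Prod.ext (Prod.ext rfl ?_) ?_
      · change (0 : ℤ) + (0 + 1) = 1
        norm_num
      · change (2 * M - 1) + (2 * M - 1) = 2 * (2 * M - 1)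
        ring
    rw [e] at h2
    exact h2
  obtain ⟨h, hh, hhd⟩ := (hs Empty 0 T).col 1 2 _ le_rfl hmem1 h1
  have hhd' : dQ 2 h = DQ E + X * DQ X := hhd
  -- the second step
  have h2 : dQ 2 (DQ h + Z ^ 2) = 0 := by
    rw [map_add, ← DQ_dQ, hhd', map_add, DR_DQ.DD, zero_add, DQ_mul, DR_DQ.DD, mul_zero,
      zero_add, dQ_sq, ← hsym', pow_two]
    exact two_eq _
  have hmem2 : DQ h + Z ^ 2 ∈ (hs Empty 0 T).gr 2 (1 + 1) := by
    refine Submodule.add_mem _ ⟨DQ_lev hh.1, ?_⟩ ⟨?_, ?_⟩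
    · exact DQ_wh hh.2
    · rw [pow_two]
      exact levQ_mul hZl hZl
    · have h3 := mul_whQ hZw hZw
      rw [← pow_two] at h3
      have e : (((0 : ℤ), (1 : ℤ) + 1), (2 * M - 1) + (2 * M - 1)) =
          (((0 : ℤ), (2 : ℤ)), T) := by
        rw [hT]
        refine Prod.ext (Prod.ext rfl ?_) ?_
        · change (1 : ℤ) + 1 = 2
          norm_num
        · change (2 * M - 1) + (2 * M - 1) = 2 * (2 * M - 1)
          ring
      rw [e] at h3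
      exact h3
  obtain ⟨k, hk, hkd⟩ := (hs Empty 0 T).col 2 1 _ (by norm_num) hmem2 h2
  have hkd' : dQ 1 k = DQ h + Z ^ 2 := hkd
  -- the third step
  have hDZ : DQ (Z ^ 2) = 0 := by
    rw [hZ, ← map_pow]
    exact DQ_TQ _
  have h3 : dQ 1 (DQ k) = 0 := by
    rw [← DQ_dQ, hkd', map_add, DR_DQ.DD, hDZ, add_zero]
  have hmem3 : DQ k ∈ (hs Empty 0 T).gr 3 (0 + 1) := ⟨DQ_lev hk.1, DQ_wh hk.2⟩
  obtain ⟨k0, hk0, hk0d⟩ := (hs Empty 0 T).col 3 0 _ (by norm_num) hmem3 h3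
  have hDk : DQ k = 0 := by
    rw [← hk0d, (hs Empty 0 T).gr_zero _ _ hk0, map_zero]
  obtain ⟨e, he, v, hv, hkev⟩ := (hs Empty 0 T).poin 2 1 k hk hDk
  obtain ⟨v2, hv2, hcomp⟩ := (hs Empty 0 T).comp 2 1 e he
  have hkev' : k = TQ e + DQ v := hkev
  have hcomp' : dQ 1 (TQ e) = TQ (dc 1 e) + DQ v2 := hcomp
  have h4 : DQ h + Z ^ 2 = TQ (dc 1 e) + DQ v2 + DQ (dQ 1 v) := by
    rw [← hkd', hkev', map_add, hcomp', DQ_dQ]
  have h5 : TQ (y ^ 2 + dc 1 e) = DQ (h + v2 + dQ 1 v) := by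
    rw [map_add, map_pow, ← hZ, map_add, map_add]
    have e1 := two_eq (DQ h)
    have e2 := two_eq (TQ (dc 1 e))
    linear_combination h4 - e1 + e2
  have h6 := injQ h5
  refine ⟨e, ⟨he.1, ?_⟩, (add_eq_zero2.1 h6).symm⟩
  have efT2 : fT ((0, 2), 2 * M) = (((0 : ℤ), (2 : ℤ)), T) := by
    rw [fT_apply, hT]
    refine Prod.ext rfl ?_
    change 2 * (2 * M) - 2 = 2 * (2 * M - 1)
    ring
  exact (wtT_iff efT2).1 he.2

end

end Pool.Agent.Work.MP_701abf_gt.Sq2.FL
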