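import Pool.Agent.Work.MP_701abf_gt.FL.TwoStmts

/-!
MP_701abf_gt, the four-line theorem, part `S_Sur`: `Sq^0` near the 2-line.
-/

open MvPolynomial
open Pool.Agent.Work.MP_701abf_gt.Stab Pool.Agent.Work.MP_701abf_gt.Cob

namespace Pool.Agent.Work.MP_701abf_gt.Sq2.FL

noncomputable section

namespace XSur

/-- exactness in degree zero from the absence of invariants -/
lemma ex0 (hI : S_Inv) {m : ℤ} (hm : m ≠ 2) :
    (cx (fun _ : Option Empty => (1, 0)) (fun _ => 0) ((0 + ((2 : ℕ) : ℤ), 0), m)).Exact 0 := by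
  rintro x hx hd
  have hx1 : x ∈ lev (Option Empty) 1 := hx.1
  have hx2 : WH (wt (fun _ : Option Empty => (1, 0)) (fun _ => 0)) x
      (((1 : ℤ), (0 : ℤ)) + ((1 : ℤ), (0 : ℤ)), m) := by
    have := hx.2
    exact this
  have h0 : x = 0 := hI (1, 0) (by decide) m hm x hx1 hx2 hd
  refine ⟨0, Submodule.zero_mem _, ?_⟩
  rw [h0, map_zero]

end XSur

/-- **part Sur**, from the invariants of the symmetric square -/
theorem pr_Sur' (hI : S_Inv) : S_Sur := by
  refine ⟨?_, ?_, ?_⟩
  · intro N hN F hF hFw hd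
    have h3 := edge_surj (ι := Empty) (k := 0) (m := 2 * N) (m' := N) rfl (p := 2)
      (fun q hq1 hq m' hm' => by
        interval_cases q
        · exfalso
          push_cast at hm'
          omega
        · push_cast at hm'
          exact XSur.ex0 hI (by omega)) (F := F) hF (by rw [wE_eq]; exact hFw)
      (by rw [dE_eq]; exact hd)
    obtain ⟨y, hy, hyw, hyd, G, hG, hGw, e⟩ := h3
    rw [wE_eq] at hyw hGw
    rw [infl_empty, dE_eq] at e
    exact ⟨y, hy, hyw, hyd, G, hG, hGw, e⟩
  · intro N hN y hy hyw G hG hGw e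
    have h3 := edge_inj (ι := Empty) (k := 0) (m := 2 * N) (m' := N) rfl (p := 3)
      (fun q hq1 hq m' hm' => by
        have hq2 : q ≤ 2 := by omega
        clear hq
        interval_cases q
        · exfalso
          push_cast at hm'
          omega
        · push_cast at hm'
          exact XSur.ex0 hI (by omega)) (y := y) hy (by rw [wE_eq]; exact hyw) (G := G) hG
      (by rw [wE_eq]; exact hGw) (by rw [infl_empty, dE_eq]; exact e)
    obtain ⟨z, hz, hzw, ez⟩ := h3
    rw [wE_eq] at hzw
    rw [dE_eq] at ez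
    exact ⟨z, hz, hzw, ez⟩
  · intro N y hy hyw G hG hGw e
    have h3 := edge_inj (ι := Empty) (k := 0) (m := 2 * N) (m' := N) rfl (p := 2)
      (fun q hq1 hq m' hm' => by
        have hq2 : q ≤ 1 := by omega
        clear hq
        interval_cases q
        exfalso
        push_cast at hm'
        omega) (y := y) hy (by rw [wE_eq]; exact hyw) (G := G) hG
      (by rw [wE_eq]; exact hGw) (by rw [infl_empty, dE_eq]; exact e)
    obtain ⟨z, hz, hzw, ez⟩ := h3
    rw [wE_eq] at hzw
    rw [dE_eq] at ez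
    exact ⟨z, hz, hzw, ez⟩

end

end Pool.Agent.Work.MP_701abf_gt.Sq2.FL
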