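import Pool.Agent.Work.MP_701abf_gt.FL.TwoStmts

/-!
# Item SymCob: a class in odd degree vanishes if and only if its symbol is a coboundary
-/

open MvPolynomial
open Pool.Agent.Work.MP_701abf_gt.Stab Pool.Agent.Work.MP_701abf_gt.Cob

namespace Pool.Agent.Work.MP_701abf_gt.Sq2.FL

noncomputable section

namespace XSymCob

theorem mem_grC {M : ℤ} {n : ℕ} {e : RR (Option Empty)} :
    e ∈ (hs Empty 0 (2 * M - 1)).grC 1 n ↔ e ∈ CW 1 n M := by
  have ew : fT ((0, 1), M) = ((0, 1), 2 * M - 1) := by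
    rw [fT_apply]
  constructor
  · rintro ⟨h1, h2⟩
    exact ⟨h1, (wtT_iff ew).1 h2⟩
  · rintro ⟨h1, h2⟩
    exact ⟨h1, (wtT_iff ew).2 h2⟩

theorem mem_gr {m : ℤ} {n : ℕ} {x : RR Empty} (h1 : x ∈ lev Empty n) (h2 : WH wE x (0, m)) :
    EQ x ∈ (hs Empty 0 m).gr 0 n := by
  refine ⟨EQ_lev h1, ?_⟩
  have h3 : WH (wt (fun _ : Empty => (1, 0)) (fun _ => 1)) x (0, m) := by
    rw [wE_eq]
    exact h2
  exact EQ_gr.map h3

end XSymCob

open XSymCob in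
theorem pr_SymCob : S_SymCob := by
  intro M x hx y hy hs'
  obtain ⟨hx1, hx2, hx3⟩ := hx
  constructor
  · rintro ⟨G, hG1, hG2, hG3⟩
    obtain ⟨e, he, hde⟩ := (hs Empty 0 (2 * M - 1)).edge 1 (fun i h1 h2 => by omega) y
      (mem_grC.2 hy) (EQ x) hs'.symm (EQ G) (mem_gr hG1 hG2) (by
        show EQ x = dQ 2 (EQ G)
        rw [EQ_d, dE_eq, hG3])
    exact ⟨e, mem_grC.1 he, hde⟩
  · rintro ⟨e, he, hde⟩
    have he' := mem_grC.2 he
    obtain ⟨v, hv, e1⟩ := (hs Empty 0 (2 * M - 1)).comp 1 1 e he'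
    have hv' : v ∈ (hs Empty 0 (2 * M - 1)).gr 0 2 := by simpa using hv
    have e1' : dQ 1 (TQ e) = TQ y + DQ v := by
      rw [← hde]
      exact e1
    have e2 : dQ 2 (dQ 1 (TQ e)) = 0 :=
      (hs Empty 0 (2 * M - 1)).δδ 1 1 (TQ e) ((hs Empty 0 (2 * M - 1)).T_mem 1 1 e he')
    have e3 : dQ 2 (TQ y) = dQ 2 (DQ v) := by
      rw [e1', map_add] at e2
      exact add_eq_zero2.1 e2
    have e4 : DQ (EQ x + dQ 2 v) = 0 := by
      rw [map_add, hs', e3, DQ_dQ, add_self2]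
    have hX : EQ x + dQ 2 v ∈ (hs Empty 0 (2 * M - 1)).gr 0 3 :=
      Submodule.add_mem _ (mem_gr hx1 hx2) ((hs Empty 0 (2 * M - 1)).δ_mem 0 2 v hv')
    obtain ⟨y0, hy0, v', hv'', e5⟩ := (hs Empty 0 (2 * M - 1)).poin 0 3 _ hX e4
    have hv0 : v' = 0 := (hs Empty 0 (2 * M - 1)).gr_neg _ _ _ (by omega) hv''
    have hy00 : y0 = 0 := by
      refine wtT_none (fun m' hm' => ?_) hy0.2
      rw [fT_apply, Prod.mk.injEq] at hm'
      obtain ⟨h1, h2⟩ := hm'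
      rw [h1] at h2
      simp only at h2
      omega
    rw [hv0, hy00, map_zero, map_zero, add_zero] at e5
    have e6 : EQ x = dQ 2 v := add_eq_zero2.1 e5
    refine ⟨EQ' v, EQ'_lev hv'.1, ?_, ?_⟩
    · have h3 := EQ'_gr.map hv'.2
      rw [wE_eq] at h3
      exact h3
    · rw [← dE_eq (fun _ => 1) 2, EQ'_d, ← e6, EQ'_EQ]

end

end Pool.Agent.Work.MP_701abf_gt.Sq2.FL
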