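import Pool.Agent.Work.MP_701abf_gt.FL.TwoStmts

/-!
# Item SymEx: existence of the symbol in odd degrees
-/

open MvPolynomial
open Pool.Agent.Work.MP_701abf_gt.Stab Pool.Agent.Work.MP_701abf_gt.Cob

namespace Pool.Agent.Work.MP_701abf_gt.Sq2.FL

noncomputable section

namespace XSymEx

theorem mem_grC {M : ℤ} {n : ℕ} {e : RR (Option Empty)} :
    e ∈ (hs Empty 0 (2 * M - 1)).grC 1 n ↔ e ∈ CW 1 n M := by
  have ew : fT ((0, 1), M) = ((0, 1), 2 * M - 1) := by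
    rw [fT_apply]
  constructor
  · rintro ⟨h1, h2⟩
    exact ⟨h1, (wtT_iff ew).1 h2⟩
  · rintro ⟨h1, h2⟩
    exact ⟨h1, (wtT_iff ew).2 h2⟩

theorem mem_gr {m : ℤ} {n : ℕ} {x : RR Empty} (h1 : x ∈ lev Empty n) (h2 : WH wE x (0, m)) :
    EQ x ∈ (hs Empty 0 m).gr 0 n := by
  refine ⟨EQ_lev h1, ?_⟩
  have h3 : WH (wt (fun _ : Empty => (1, 0)) (fun _ => 1)) x (0, m) := by
    rw [wE_eq]
    exact h2
  exact EQ_gr.map h3

theorem EQ_EQ' {F : RQ Empty} {k m : ℤ} (hF : WH (wtQ Empty) F ((k, 0), m)) :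
    EQ (EQ' F) = F := by
  have := hom_congr_wt (w := wtQ Empty) (φ := (EQ (ι := Empty)).comp EQ')
    (ψ := AlgHom.id _ _) (q := (AddMonoidHom.snd ℤ ℤ).comp (AddMonoidHom.fst (ℤ × ℤ) ℤ))
    (fun v => ?_) (fun v hv => ?_) hF rfl
  · exact this
  · rcases v with v | v | ⟨o, i⟩
    · exact le_rfl
    · exact zero_le_one
    · cases o with
      | none => exact zero_le_one
      | some b => exact b.elim
  · rw [AlgHom.comp_apply]
    unfold EQ EQ'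
    rcases v with v | v | ⟨o, i⟩
    · rw [evQ_g]
      change ev _ _ (X (Sum.inl v)) = _
      rw [ev_inl]
      rfl
    · exact absurd hv one_ne_zero
    · cases o with
      | none => exact absurd hv one_ne_zero
      | some b => exact b.elim

end XSymEx

open XSymEx in
theorem pr_SymEx : S_SymEx := by
  intro M x hx
  obtain ⟨hx1, hx2, hx3⟩ := hx
  have hX : EQ x ∈ (hs Empty 0 (2 * M - 1)).gr 0 3 := mem_gr hx1 hx2
  have hdX : dQ 3 (EQ x) = 0 := by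
    rw [EQ_d, dE_eq]
    have h3 : dE 3 x = 0 := hx3
    rw [h3, map_zero]
  have h1 : dQ 3 (DQ (EQ x)) = 0 := by
    rw [← DQ_dQ, hdX, map_zero]
  obtain ⟨x1, hx1', e1⟩ := (hs Empty 0 (2 * M - 1)).col 1 2 (DQ (EQ x)) le_rfl
    ((hs Empty 0 (2 * M - 1)).D_mem 0 3 _ hX) h1
  have e1' : dQ 2 x1 = DQ (EQ x) := e1
  have h2 : dQ 2 (DQ x1) = 0 := by
    rw [← DQ_dQ, e1', DR_DQ.DD]
  obtain ⟨x2, hx2', e2⟩ := (hs Empty 0 (2 * M - 1)).col 2 1 (DQ x1) (by norm_num)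
    ((hs Empty 0 (2 * M - 1)).D_mem 1 2 _ hx1') h2
  have hE : (hs Empty 0 (2 * M - 1)).ExC 2 0 :=
    exC_of (fun m' hm' => by omega)
  obtain ⟨h, hh, h', hh', e3⟩ := (hs Empty 0 (2 * M - 1)).key 1 2 (by norm_num) x2 hx2' x1
    (by simpa using hx1') e2 (fun i hi => by
      have hi0 : i = 0 := by omega
      subst hi0
      simpa using hE)
  have hh0 : h' = 0 := (hs Empty 0 (2 * M - 1)).gr_zero 2 _ hh'
  rw [hh0, map_zero, add_zero] at e3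
  have hh1 : h ∈ (hs Empty 0 (2 * M - 1)).gr 1 1 := by simpa using hh
  have e3' : x2 = DQ h := e3
  have e2' : dQ 1 x2 = DQ x1 := e2
  have h3 : DQ (x1 + dQ 1 h) = 0 := by
    rw [map_add, ← e2', e3', DQ_dQ, add_self2]
  have hmem : x1 + dQ 1 h ∈ (hs Empty 0 (2 * M - 1)).gr 1 2 :=
    Submodule.add_mem _ hx1' ((hs Empty 0 (2 * M - 1)).δ_mem 1 1 h hh1)
  obtain ⟨y, hy, v, hv, e4⟩ := (hs Empty 0 (2 * M - 1)).poin 1 2 _ hmem h3
  have hv0 : v ∈ (hs Empty 0 (2 * M - 1)).gr 0 2 := by simpa using hv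
  have e4' : x1 + dQ 1 h = TQ y + DQ v := e4
  have hdd : dQ 2 (dQ 1 h) = 0 := (hs Empty 0 (2 * M - 1)).δδ 1 1 h hh1
  have e5 : DQ (EQ x) = dQ 2 (TQ y) + DQ (dQ 2 v) := by
    have h4 : dQ 2 (x1 + dQ 1 h) = DQ (EQ x) := by
      rw [map_add, hdd, add_zero, e1']
    rw [← h4, e4', map_add, DQ_dQ]
  have e6 : DQ (EQ x + dQ 2 v) = dQ 2 (TQ y) := by
    rw [map_add, e5, add_assoc, add_self2, add_zero]
  obtain ⟨v2, hv2, e7⟩ := (hs Empty 0 (2 * M - 1)).comp 1 2 y hy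
  have hv2' : v2 ∈ (hs Empty 0 (2 * M - 1)).gr 0 3 := by simpa using hv2
  have e7' : dQ 2 (TQ y) = TQ (dc 2 y) + DQ v2 := e7
  have hw : EQ x + dQ 2 v + v2 ∈ (hs Empty 0 (2 * M - 1)).gr (1 - 1) 3 := by
    have h5 : EQ x + dQ 2 v + v2 ∈ (hs Empty 0 (2 * M - 1)).gr 0 3 :=
      Submodule.add_mem _ (Submodule.add_mem _ hX ((hs Empty 0 (2 * M - 1)).δ_mem 0 2 v hv0)) hv2'
    simpa using h5
  have e8 : dc 2 y = 0 := by
    refine (hs Empty 0 (2 * M - 1)).inj 1 3 (dc 2 y) _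
      ((hs Empty 0 (2 * M - 1)).dC_mem 1 2 y hy) hw ?_
    change TQ (dc 2 y) = DQ (EQ x + dQ 2 v + v2)
    rw [map_add, e6, e7', add_assoc, add_self2, add_zero]
  have hEv : EQ (EQ' v) = v := EQ_EQ' hv0.2
  refine ⟨EQ' v, EQ'_lev hv0.1, ?_, y, mem_grC.1 hy, e8, ?_⟩
  · have h3 := EQ'_gr.map hv0.2
    rw [wE_eq] at h3
    exact h3
  · have h6 : EQ (dE 2 (EQ' v)) = dQ 2 v := by
      rw [← dE_eq (fun _ => 1) 2, ← EQ_d, hEv]
    show DQ (EQ (x + dE 2 (EQ' v))) = dQ 2 (TQ y)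
    rw [map_add EQ, h6, e6]

end

end Pool.Agent.Work.MP_701abf_gt.Sq2.FL
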