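import Pool.Agent.Work.MP_701abf_gt.FL.TwoStmts

/-!
# MP_701abf_gt: the four-line theorem, item Top: the top coefficient of a nonzero cocycle
-/

open MvPolynomial
open Pool.Agent.Work.MP_701abf_gt.Stab Pool.Agent.Work.MP_701abf_gt.Cob

namespace Pool.Agent.Work.MP_701abf_gt.Sq2.FL

noncomputable section

theorem pr_Top : S_Top := by
  intro M r f hf
  by_cases hall : ∀ i, f i = 0
  · exact Or.inl hall
  right
  obtain ⟨r0, hr0, hmax⟩ : ∃ r0, f r0 ≠ 0 ∧ ∀ i, r0 < i → f i = 0 := by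
    classical
    obtain ⟨i0, hi0⟩ := not_forall.1 hall
    have hlt : ∀ i, f i ≠ 0 → i < r := by
      intro i hi
      by_contra hcon
      exact hi (hf.hi i (not_lt.1 hcon))
    have hS : ((Finset.range r).filter fun i => f i ≠ 0).Nonempty :=
      ⟨i0, Finset.mem_filter.2 ⟨Finset.mem_range.2 (hlt i0 hi0), hi0⟩⟩
    refine ⟨_, (Finset.mem_filter.1 (Finset.max'_mem _ hS)).2, fun i hi => ?_⟩
    by_contra hne
    exact absurd (Finset.le_max' _ i
      (Finset.mem_filter.2 ⟨Finset.mem_range.2 (hlt i hne), hne⟩)) (not_le.2 hi)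
  have hr0r : r0 < r := by
    by_contra hcon
    exact hr0 (hf.hi r0 (not_lt.1 hcon))
  have hdd : dE 2 (f r0) = 0 := by
    rw [hf.dd r0]
    refine Finset.sum_eq_zero fun i _ => ?_
    split_ifs with h
    · rw [hmax i h, map_zero, mul_zero]
    · rfl
  have hZ : f r0 ∈ ZR 1 (M - 2 ^ r0) := ⟨hf.lv r0, hf.wh r0, hdd⟩
  rcases lt_trichotomy (M - 2 ^ r0) 0 with h | h | h
  · refine absurd (wh_neg (q := AddMonoidHom.snd (ℤ × ℤ) ℤ) (fun v => ?_) (hf.wh r0) h) hr0
    obtain ⟨i, a, _, h1⟩ := wE_snd v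
    show 0 ≤ (wE v).2
    rw [h1]
    have h2 : (1 : ℤ) ≤ 2 ^ (i + 1) := one_le_pow₀ (by norm_num)
    linarith
  · have h1 : WH wE (f r0) (0, 0) := by
      have h2 := hf.wh r0
      rwa [h] at h2
    have h2 := wh_const h1
    rw [h2, dE_C] at hdd
    have h3 : (((2 + 1 : ℕ) : ZMod 2)) * coeff 0 (f r0) = 0 :=
      C_injective _ _ (by rw [hdd, map_zero])
    have h4 : (((2 + 1 : ℕ) : ZMod 2)) = 1 := by decide
    rw [h4, one_mul] at h3
    rw [h3, map_zero] at h2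
    exact absurd h2 hr0
  · by_cases hb : ∃ b : ℕ, M - 2 ^ r0 = 2 ^ b
    · obtain ⟨b, hb⟩ := hb
      rw [hb] at hZ
      rcases ZR_one hZ with h5 | h5
      · exact absurd h5 hr0
      · exact ⟨r0, b, hr0r, hmax, by linarith, h5⟩
    · exact absurd (ZR_one' h hb hZ) hr0

end

end Pool.Agent.Work.MP_701abf_gt.Sq2.FL
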