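import Pool.Agent.Work.MP_701abf_gt.FL.MonA
import Pool.Agent.Work.MP_701abf_gt.FL.MonB
import Pool.Agent.Work.MP_701abf_gt.FL.Inv
import Pool.Agent.Work.MP_701abf_gt.FL.Sur
import Pool.Agent.Work.MP_701abf_gt.FL.SymEx
import Pool.Agent.Work.MP_701abf_gt.FL.SymCob
import Pool.Agent.Work.MP_701abf_gt.FL.DPr
import Pool.Agent.Work.MP_701abf_gt.FL.SqSym
import Pool.Agent.Work.MP_701abf_gt.FL.SqCob
import Pool.Agent.Work.MP_701abf_gt.FL.InjOdd
import Pool.Agent.Work.MP_701abf_gt.FL.SymH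
import Pool.Agent.Work.MP_701abf_gt.FL.ComO
import Pool.Agent.Work.MP_701abf_gt.FL.Nv
import Pool.Agent.Work.MP_701abf_gt.FL.Coef
import Pool.Agent.Work.MP_701abf_gt.FL.Cwb
import Pool.Agent.Work.MP_701abf_gt.FL.Mas
import Pool.Agent.Work.MP_701abf_gt.FL.Top
import Pool.Agent.Work.MP_701abf_gt.FL.Alg
import Pool.Agent.Work.MP_701abf_gt.FL.HW
import Pool.Agent.Work.MP_701abf_gt.FL.OddL
import Pool.Agent.Work.MP_701abf_gt.FL.DegB
import Pool.Agent.Work.MP_701abf_gt.FL.SpanR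
import Pool.Agent.Work.MP_701abf_gt.FL.InjR
import Pool.Agent.Work.MP_701abf_gt.FL.PowR

/-!
# MP_701abf_gt: the 2-line, assembly
-/

open MvPolynomial
open Pool.Agent.Work.MP_701abf_gt.Stab Pool.Agent.Work.MP_701abf_gt.Cob

namespace Pool.Agent.Work.MP_701abf_gt.Sq2.FL

/-- The stability statements used below. -/
theorem two_sur : S_Sur := pr_Sur' (pr_Inv' pr_MonB)

/-- Nonvanishing of the products on the 2-line. -/
theorem two_nv (a b : ℕ) (h : ha a * sh 1 (ha b) ∈ BR 2 (2 ^ a + 2 ^ b)) :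
    a = b + 1 ∨ b = a + 1 :=
  pr_Nv pr_MonA two_sur pr_SymCob pr_SymH pr_ComO a b h

/-- `Sq^1` is injective on the 2-line in the degrees which are not powers of two. -/
theorem two_inj : TwoInj :=
  pr_InjR two_sur (pr_InjOdd pr_DPr pr_MonB pr_SymEx pr_SymCob pr_SqSym pr_SqCob)

/-- The 2-line is spanned by the products. -/
theorem two_span : TwoSpan :=
  pr_SpanR two_sur pr_DegB (pr_OddL pr_SymEx pr_SymCob pr_SymH pr_ComO
    (pr_HW pr_Coef pr_Cwb (pr_Alg pr_Top pr_Cwb pr_Mas two_nv)))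

theorem two_pow : TwoPow := pr_PowR two_span

end Pool.Agent.Work.MP_701abf_gt.Sq2.FL
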