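import Pool.Agent.Work.MP_701abf_gt.FL.Stmts

/-!
# MP_701abf_gt, block FL, item Four: the four-line theorem
-/

set_option autoImplicit false

open MvPolynomial
open Pool.Agent.Work.MP_701abf_gt.Stab Pool.Agent.Work.MP_701abf_gt.Cob

namespace Pool.Agent.Work.MP_701abf_gt.Sq2.FL

noncomputable section

namespace XFour

lemma Ch_mono {L L' c m t : ℕ} (hL : L' ≤ L) (h : Ch L c m t) : Ch L' c m t := by
  induction h with
  | sg a => exact Ch.sg a
  | cl t h0 h => exact Ch.cl t h0 h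
  | addsg a _ hd ih => exact Ch.addsg a ih ((pow_dvd_pow 2 (by omega)).trans hd)
  | addcl a M _ h0 hM h2 hd ih =>
    exact Ch.addcl a M ih h0 hM h2 ((pow_dvd_pow 2 (by omega)).trans hd)

/-- The cocycle of `h_a`. -/
abbrev hx (a : ℕ) : Cobar 1 := (xi (0 : Fin 1) 1 : Cobar 1) ^ 2 ^ a

lemma th_hx (a : ℕ) : th 1 (hx a) = ha a := by
  unfold hx
  rw [map_pow, th_xi]
  rfl

lemma hx_pow (a j : ℕ) : hx a ^ 2 ^ j = hx (a + j) := by
  unfold hx
  rw [← pow_mul, ← pow_add]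

lemma th_pair (a b : ℕ) : th 2 (jux 1 1 (hx a) (hx b)) = ha b * sh 1 (ha a) := by
  have h := th_jux 1 1 (hx a) (hx b)
  rw [th_hx, th_hx] at h
  exact h

lemma pair_pow (a b j : ℕ) : (jux 1 1 (hx a) (hx b)) ^ 2 ^ j = jux 1 1 (hx (a + j)) (hx (b + j)) := by
  rw [← jux_pow, hx_pow, hx_pow]

lemma pair_Zc (a b : ℕ) : jux 1 1 (hx a) (hx b) ∈ Zc 2 (2 ^ a + 2 ^ b) :=
  jux_Zc (ha_Zc a) (ha_Zc b)

lemma quad_pow (a b j : ℕ) :
    (jux 2 2 (jux 1 1 (hx a) (hx a)) (jux 1 1 (hx b) (hx b))) ^ 2 ^ j =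
      jux 2 2 (jux 1 1 (hx (a + j)) (hx (a + j))) (jux 1 1 (hx (b + j)) (hx (b + j))) := by
  rw [← jux_pow, pair_pow, pair_pow]

lemma tri_pow (a b c j : ℕ) :
    (jux 2 1 (jux 1 1 (hx b) (hx c)) (hx a)) ^ 2 ^ j =
      jux 2 1 (jux 1 1 (hx (b + j)) (hx (c + j))) (hx (a + j)) := by
  rw [← jux_pow, pair_pow, hx_pow]

lemma th_quad (a b : ℕ) : th 4 (jux 2 2 (jux 1 1 (hx a) (hx a)) (jux 1 1 (hx b) (hx b))) =
    bb b * sh 2 (bb a) := by
  have h := th_jux 2 2 (jux 1 1 (hx a) (hx a)) (jux 1 1 (hx b) (hx b))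
  rw [th_pair, th_pair] at h
  exact h

lemma th_tri (a b c : ℕ) : th 3 (jux 2 1 (jux 1 1 (hx b) (hx c)) (hx a)) =
    ha a * sh 1 (ha c * sh 1 (ha b)) := by
  have h := th_jux 2 1 (jux 1 1 (hx b) (hx c)) (hx a)
  rw [th_pair, th_hx] at h
  exact h

end XFour

open XFour

/-- The four-line theorem. -/
theorem pr_Four' : S_SqTwo → S_TwoCh → S_TwoPow → S_TwoInj → S_TwoSpan → S_Four := by
  intro hSqTwo hTwoCh hTwoPow hTwoInj hTwoSpan
  obtain ⟨J0, L0, hFour⟩ := hTwoCh hTwoPow hTwoInj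
  obtain ⟨J1, L1, hch⟩ := chain 9 (by omega)
  obtain ⟨U, hU⟩ := degrees 4 (by omega) (L0 + L1)
  obtain ⟨J2, hJ2⟩ := h0_sqOne 4
  obtain ⟨J3, hJ3⟩ := h1_Sq2 4
  obtain ⟨J4, hJ4⟩ := h0_div 4
  obtain ⟨J5, hJ5⟩ := exists_Gi 4
  obtain ⟨J, hJ⟩ : ∃ J, J = J0 + J1 + J2 + J3 + J4 + J5 := ⟨_, rfl⟩
  refine ⟨U, J, fun t hF p hp => ?_⟩
  by_cases hpB : p ^ 2 ^ J ∈ Bc 4 (2 ^ J * t)
  · left
    intro j hj
    obtain ⟨i, rfl⟩ := Nat.exists_eq_add_of_le hj
    exact fr_Bc' i hpB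
  right
  -- the structure of `t`
  have hne : dm 4 t ≠ 0 := fun h => hpB (fr_Bc (dm_zero_iff.1 h hp))
  obtain ⟨c, m, e, h1, h2, h3, h4⟩ := hU t hne
  have ht := h4.pos
  have hcm : 2 ≤ c + m := by
    by_contra hcon
    have h5 : Clus U 1 t := h3.mono le_rfl (by omega)
    rw [clus_iff_few] at h5
    obtain ⟨a, u, hu, e⟩ := h5
    rw [Fin.sum_univ_one] at e
    exact hF _ _ (hu 0) e
  obtain ⟨t', ht'⟩ : ∃ t', t' = 2 ^ J * t := ⟨_, rfl⟩
  have ht0 : 0 < t' := by rw [ht']; positivity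
  obtain ⟨P, hP⟩ : ∃ P, P = p ^ 2 ^ J := ⟨_, rfl⟩
  have hPZ : P ∈ Zc 4 t' := by rw [hP, ht']; exact fr_Zc hp
  rw [← hP, ← ht'] at hpB
  have hpow : ∀ i, P ^ 2 ^ i = p ^ 2 ^ (J + i) := fun i => by rw [hP, ← pow_mul, ← pow_add]
  by_cases hA : sqOne 4 P ∈ Bc 5 (2 * t')
  swap
  · left
    intro j hj
    obtain ⟨i, rfl⟩ := Nat.exists_eq_add_of_le hj
    have h5 := hJ2 t' ht0 (by rw [ht']; exact Dvd.dvd.mul_right (pow_dvd_pow 2 (by omega)) _) P
      hPZ hA i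
    have e1 : 2 * (2 ^ i * t') = 2 ^ (J + i + 1) * t := by
      rw [ht', pow_succ, pow_add]; ring
    rw [hpow, e1] at h5
    exact h5
  right
  have hX := th_mem_ZR hPZ
  have hXB : th 4 P ∉ BR 4 (t' : ℤ) := fun h => hpB (th_mem_BR.1 h)
  have hdl : dl 4 (th 4 P) ∈ BR 5 (2 * (t' : ℤ)) := sqOne_BR.1 hA
  have hdeg : ∀ j, 2 ^ j * (2 * t') = 2 ^ (J + j + 1) * t := fun j => by
    rw [ht', pow_succ, pow_add]; ring
  -- the third case
  have third : ((∃ v ∈ ZR 3 (t' : ℤ), dl 3 v + th 4 P ^ 2 ∈ BR 4 (2 * (t' : ℤ))) ∧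
        sg 4 (th 4 P) ∉ BR 6 (2 * (t' : ℤ))) →
      ∃ q ∈ Zc 3 (2 ^ J * t), ∀ j,
        p ^ 2 ^ (J + j + 1) + sqOne 3 (q ^ 2 ^ j) ∈ Bc 4 (2 ^ (J + j + 1) * t) ∧
        (∀ w ∈ Zc 6 (2 ^ (J + j + 1) * t + 1),
          jux 6 1 (sqTwo 4 (p ^ 2 ^ (J + j))) (xi 0 1 ^ 2) + jux 6 1 w (xi 0 1) ∉
            Bc 7 (2 ^ (J + j + 1) * t + 2)) ∧
        ∀ z ∈ Zc 5 (2 ^ (J + j + 1) * t + 1), ∃ w ∈ Zc 4 (2 ^ (J + j + 1) * t),
          z + jux 4 1 w (xi 0 1) ∈ Bc 5 (2 ^ (J + j + 1) * t + 1) := by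
    rintro ⟨⟨v, hv, hvB⟩, hsg⟩
    obtain ⟨q, hq, hqv⟩ := exists_th hv
    have hPq : P ^ 2 ^ 1 + sqOne 3 q ∈ Bc 4 (2 * t') := by
      have h5 : th 4 (P ^ 2 ^ 1 + sqOne 3 q) = dl 3 v + th 4 P ^ 2 := by
        rw [map_add, map_pow, pow_one, add_comm]
        have h6 := th_sqOne 3 q
        rw [hqv] at h6
        exact congrArg (fun y => y + th 4 P ^ 2) h6
      rw [← th_mem_BR, h5]
      push_cast
      exact hvB
    have hT : sqTwo 4 P ∉ Bc (4 + 2) (2 * t') := fun h => hsg ((sqTwo_BR hPZ).1 h)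
    refine ⟨q, by rw [← ht']; exact hq, fun j => ⟨?_, ?_, ?_⟩⟩
    · have h5 := fr_Bc (j := j) hPq
      rw [pow_two_add, ← sqOne_pow, ← pow_mul, ← pow_add, hpow, hdeg,
        show J + (1 + j) = J + j + 1 by ring] at h5
      exact h5
    · intro w hw h
      refine hJ3 t' ht0 (by rw [ht']; exact Dvd.dvd.mul_right (pow_dvd_pow 2 (by omega)) _) P hPZ
        hT j w (by rw [hdeg]; exact hw) ?_
      rw [hpow, hdeg]
      exact h
    · exact hJ4 _ (by positivity) (Dvd.dvd.mul_right (pow_dvd_pow 2 (by omega)) _)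
  rcases Nat.lt_or_ge 2 (c + m) with hcm' | hcm'
  · -- three clusters at least
    left
    apply third
    have PPt := hch J (by omega) c m t (Ch_mono (by omega) h4) (by omega)
    rw [← ht'] at PPt
    have h5 : c + 2 * m = 4 ∨ (c = 3 ∧ m = 0) := by omega
    rcases h5 with h5 | ⟨rfl, rfl⟩
    · exfalso
      rw [h5] at PPt
      exact hXB (PPt.a0 (by omega) _ hX hdl)
    · exact ⟨PPt.x1 (by omega) _ hX hdl, fun h => hXB (PPt.b1 (by omega) _ hX hdl h)⟩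
  · -- two clusters
    have hF4 := hFour J (by omega) (L0 + L1) (by omega) c m t h4 (by omega)
    rw [← ht'] at hF4
    rcases hF4 (th 4 P) hX hdl with h5 | h5 | h5 | h5
    · exact absurd h5 hXB
    · exact Or.inl (third h5)
    · right; left
      obtain ⟨a, b, e1, h6⟩ := h5
      have e2 : 2 ^ (a + 1) + 2 ^ (b + 1) = t' := by exact_mod_cast e1.symm
      refine ⟨a, b, by rw [e2, ht'], fun j => ?_⟩
      have h7 : P + jux 2 2 (jux 1 1 (hx a) (hx a)) (jux 1 1 (hx b) (hx b)) ∈ Bc 4 t' := by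
        rw [← th_mem_BR, map_add]
        have h8 := th_quad a b
        rw [h8]
        exact h6
      have h8 := fr_Bc (j := j) h7
      have e3 : 2 ^ j * t' = 2 ^ (J + j) * t := by rw [ht', pow_add]; ring
      rw [pow_two_add, hpow, e3, quad_pow] at h8
      exact h8
    · obtain ⟨a, T, hT0, hTn, e1, z, hz, hsz, hdz⟩ := h5
      rcases hTwoSpan T hT0 z hz with hzB | ⟨b, c', hbc, e2, hzY⟩
      · exfalso
        have h6 : dl 3 (ha a * sh 1 z) ∈ BR 4 (2 * (t' : ℤ)) := by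
          have h7 := mul_BR_left (i := 2) (j := 1) hzB (ha_ZR a)
          rw [add_comm T, ← e1] at h7
          exact dl_BR h7
        have h8 : th 4 P ^ 2 ∈ BR 4 (2 * (t' : ℤ)) := by
          rw [add_comm] at hdz
          exact BR_cancel hdz h6
        refine hXB (hJ5 (t' : ℤ) ?_ 4 le_rfl _ hX h8)
        have : 2 ^ J5 ∣ t' := by
          rw [ht']; exact Dvd.dvd.mul_right (pow_dvd_pow 2 (by omega)) _
        exact_mod_cast this
      · rcases hbc with hbc | hbc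
        · exact absurd ⟨b + 1, by rw [e2, hbc, pow_succ]; ring⟩ hTn
        right; right
        have e3 : 2 ^ a + 2 ^ b + 2 ^ c' = t' := by
          have e4 : (t' : ℤ) = 2 ^ a + (2 ^ b + 2 ^ c') := by rw [e1, e2]
          have e5 : t' = 2 ^ a + (2 ^ b + 2 ^ c') := by exact_mod_cast e4
          rw [e5]; ring
        have hTc : ((2 ^ b + 2 ^ c' : ℕ) : ℤ) = T := by rw [e2]; push_cast; ring
        have hsum := mul_BR_left (i := 2) (j := 1) hzY (ha_ZR a)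
        rw [add_comm T, ← e1, map_add, mul_add] at hsum
        have hzZ := mul_ZR (i := 2) (j := 1) hz (ha_ZR a)
        rw [add_comm T, ← e1] at hzZ
        have h6 := (dlOp 3 (t' : ℤ)).congr hzZ hsum
        have h7 : dl 3 (ha a * sh 1 (ha c' * sh 1 (ha b))) + th 4 P ^ 2 ∈
            BR 4 (2 * (t' : ℤ)) := by
          have h8 := Submodule.add_mem _ h6 hdz
          have e4 : dl 3 (ha a * sh 1 z) + dl 3 (ha a * sh 1 (ha c' * sh 1 (ha b))) +
              (dl 3 (ha a * sh 1 z) + th 4 P ^ 2) =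
              dl 3 (ha a * sh 1 (ha c' * sh 1 (ha b))) + th 4 P ^ 2 +
                (dl 3 (ha a * sh 1 z) + dl 3 (ha a * sh 1 z)) := by abel
          rw [e4, add_self2, add_zero] at h8
          exact h8
        have h9 : P ^ 2 ^ 1 + sqOne 3 (jux 2 1 (jux 1 1 (hx b) (hx c')) (hx a)) ∈
            Bc 4 (2 * t') := by
          have h10 : th 4 (P ^ 2 ^ 1 + sqOne 3 (jux 2 1 (jux 1 1 (hx b) (hx c')) (hx a))) =
              dl 3 (ha a * sh 1 (ha c' * sh 1 (ha b))) + th 4 P ^ 2 := by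
            rw [map_add, map_pow, pow_one, add_comm]
            have h11 := th_sqOne 3 (jux 2 1 (jux 1 1 (hx b) (hx c')) (hx a))
            rw [th_tri] at h11
            exact congrArg (fun y => y + th 4 P ^ 2) h11
          rw [← th_mem_BR, h10]
          push_cast
          exact h7
        have h10 : sg 2 (ha c' * sh 1 (ha b)) ∈ BR 4 (2 * T) := by
          have h11 : sg 2 z + sg 2 (ha c' * sh 1 (ha b)) ∈ BR 4 (2 * T) :=
            (sgOp 2 T).congr hz hzY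
          rw [add_comm (sg 2 z)] at h11
          exact BR_cancel h11 hsz
        have h11 : jux 2 2 (jux 1 1 (hx b) (hx c')) (jux 1 1 (hx b) (hx c')) ∈
            Bc 4 (2 * (2 ^ b + 2 ^ c')) := by
          have h12 := hSqTwo (jux 1 1 (hx b) (hx c'))
          have h13 := (sqTwo_BR (pair_Zc b c')).2 (by
            rw [hTc, th_pair]
            exact h10)
          rw [h12] at h13
          exact h13
        refine ⟨a, b, c', hbc, by rw [e3, ht'], fun j => ⟨?_, ?_⟩⟩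
        · have h12 := fr_Bc (j := j) h9
          rw [pow_two_add, ← sqOne_pow, ← pow_mul, ← pow_add, hpow, hdeg,
            show J + (1 + j) = J + j + 1 by ring, tri_pow] at h12
          exact h12
        · have h12 := fr_Bc (j := j) h11
          have e4 : 2 ^ j * (2 * (2 ^ b + 2 ^ c')) = 2 ^ (j + 1) * (2 ^ b + 2 ^ c') := by
            rw [pow_succ]; ring
          rw [← jux_pow, pair_pow, e4] at h12
          exact h12

end

end Pool.Agent.Work.MP_701abf_gt.Sq2.FL
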