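import Pool.Agent.Work.MP_701abf_gt.Cob.OpsDefs

/-!
Definition for the statement of the four-line theorem.
-/

open MvPolynomial

namespace Pool.Agent.Work.MP_701abf_gt.FL

open Pool.Agent.Work.MP_701abf_gt.Cob

noncomputable section

/-- The cocycle `[ξ_1 ^ (2 ^ a)]`, which represents the Hopf class `h_a`. -/
def hCls (a : ℕ) : Cobar 1 := xi 0 1 ^ 2 ^ a

end

end Pool.Agent.Work.MP_701abf_gt.FL
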