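import Pool.Agent.Work.MP_701abf_gt.FL.Stmts

/-!
# MP_701abf_gt, four-line theorem, part Comm

Products with `h_a` commute: `[z | h_a] + [h_a | z]` is a coboundary.
-/

open MvPolynomial
open Pool.Agent.Work.MP_701abf_gt.Stab Pool.Agent.Work.MP_701abf_gt.Cob

namespace Pool.Agent.Work.MP_701abf_gt.Sq2.FL

noncomputable section

namespace XComm

/-- The sum of the shifts of `h_a`. -/
def SS (a s : ℕ) : RR Empty := ∑ i ∈ Finset.range s, sh i (ha a)

lemma SS_succ (a s : ℕ) : SS a (s + 1) = SS a s + sh s (ha a) := Finset.sum_range_succ _ _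

lemma SS_zero (a : ℕ) : SS a 0 = 0 := Finset.sum_range_zero _

lemma face_one (a : ℕ) : face (fun _ : Empty => 0) 1 (ha a) = sh 1 (ha a) + ha a := by
  obtain ⟨h1, _, h3⟩ := ha_ZR a
  have h3' : dR (fun _ : Empty => 0) (1 + 1) (ha a) = 0 := h3
  rw [dR_apply] at h3'
  simp only [Finset.sum_range_succ, Finset.sum_range_zero, zero_add] at h3'
  have e2 : face (fun _ : Empty => 0) (1 + 1) (ha a) = ha a := face_high _ (n := 1) le_rfl h1
  rw [face_zero, e2] at h3'
  have h4 := add_eq_zero2.1 h3'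
  have h5 := add_self2 (sh (ι := Empty) 1 (ha a))
  calc face (fun _ : Empty => 0) 1 (ha a) = sh 1 (ha a) + (sh 1 (ha a) +
        face (fun _ : Empty => 0) 1 (ha a)) := by rw [← add_assoc, h5, zero_add]
    _ = _ := by rw [h4]

lemma face_eq (a i : ℕ) : face (fun _ : Empty => 0) (i + 1) (sh i (ha a)) =
    sh i (ha a) + sh (i + 1) (ha a) := by
  have h := sh_face_gt (fun _ : Empty => 0) i 0 (ha a)
  rw [add_zero, zero_add, face_one, map_add, sh_sh] at h
  rw [h, add_comm, add_comm 1 i]

lemma face_gt (a i j : ℕ) (h : i + 2 ≤ j) : face (fun _ : Empty => 0) j (sh i (ha a)) =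
    sh i (ha a) := by
  obtain ⟨k, rfl⟩ : ∃ k, j = i + 1 + (k + 1) := ⟨j - i - 2, by omega⟩
  rw [sh_face_gt]
  have h1 : face (fun _ : Empty => 0) (k + 1 + 1) (ha a) = ha a :=
    face_high _ (n := 1) (by omega) (ha_ZR a).1
  rw [h1]

lemma face_SS_high (a s j : ℕ) (h : s < j) : face (fun _ : Empty => 0) j (SS a s) = SS a s := by
  unfold SS
  rw [map_sum]
  refine Finset.sum_congr rfl fun i hi => ?_
  rw [Finset.mem_range] at hi
  exact face_gt a i j (by omega)

lemma face_SS_mid (a s j : ℕ) (h0 : 1 ≤ j) (h : j ≤ s) :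
    face (fun _ : Empty => 0) j (SS a s) = SS a (s + 1) := by
  induction s, h using Nat.le_induction with
  | base =>
    obtain ⟨k, rfl⟩ : ∃ k, j = k + 1 := ⟨j - 1, by omega⟩
    rw [SS_succ, map_add, face_SS_high a k (k + 1) (by omega), face_eq, SS_succ a (k + 1),
      SS_succ a k, add_assoc]
  | succ s hs ih =>
    rw [SS_succ a s, map_add, ih, sh_face_le _ hs, SS_succ a (s + 1)]

lemma face_SS_zero (a s : ℕ) :
    face (fun _ : Empty => 0) 0 (SS a s) = SS a (s + 1) + ha a := by
  induction s with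
  | zero =>
    rw [SS_zero, map_zero, SS_succ, SS_zero, zero_add, sh_zero_id, add_self2]
  | succ s ih =>
    rw [SS_succ a s, map_add, ih, sh_face_le _ (Nat.zero_le s), SS_succ a (s + 1)]
    ring

end XComm

open XComm in
theorem pr_Comm : S_Comm := by
  intro s a T z hz
  obtain ⟨h1, h2, h3⟩ := hz
  obtain ⟨a1, a2, _⟩ := ha_ZR a
  have hlw : LW (s + 1) (2 ^ a) (SS a s) := by
    refine LW.sum _ _ fun i hi => ?_
    rw [Finset.mem_range] at hi
    refine ⟨?_, ?_⟩
    · have h5 : prj (i + 1) (sh (ι := Empty) i (ha a)) = sh i (ha a) := sh_lev a1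
      exact lev_mono (by omega) (mem_lev_succ.2 h5)
    · exact (sh_gr (fun _ : Empty => (1, 0)) (fun _ => 0) i).map a2
  refine ⟨SS a s * z, mul_lev hlw.1 h1, ?_, ?_⟩
  · have h := IsWeightedHomogeneous.mul hlw.2 h2
    have e : (((0, 2 ^ a) : (ℤ × ℤ) × ℤ) + (0, T)) = (0, 2 ^ a + T) := by
      rw [Prod.mk_add_mk, add_zero]
    rw [e] at h
    exact h
  · have h3' : dR (fun _ : Empty => 0) (s + 1) z = 0 := h3
    rw [dR_apply, Finset.sum_range_succ, Finset.sum_range_succ'] at h3'
    have hlast : face (fun _ : Empty => 0) (s + 1) z = z := face_high _ (n := s) le_rfl h1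
    rw [face_zero, hlast] at h3'
    change dR (fun _ : Empty => 0) (s + 1) (SS a s * z) = _
    rw [dR_apply, Finset.sum_range_succ, Finset.sum_range_succ']
    simp only [map_mul]
    rw [face_zero z, hlast, face_SS_zero, face_SS_high a s (s + 1) (by omega)]
    have h6 : ∑ k ∈ Finset.range s, face (fun _ : Empty => 0) (k + 1) (SS a s) *
        face (fun _ : Empty => 0) (k + 1) z =
        SS a (s + 1) * ∑ k ∈ Finset.range s, face (fun _ : Empty => 0) (k + 1) z := by
      rw [Finset.mul_sum]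
      refine Finset.sum_congr rfl fun k hk => ?_
      rw [Finset.mem_range] at hk
      rw [face_SS_mid a s (k + 1) (by omega) (by omega)]
    rw [h6]
    have h7 : SS a s = SS a (s + 1) + sh s (ha a) := by
      rw [SS_succ, add_assoc, add_self2, add_zero]
    rw [h7]
    have h8 : SS a (s + 1) + sh s (ha a) + sh s (ha a) = SS a (s + 1) := by
      rw [add_assoc, add_self2, add_zero]
    linear_combination (SS a (s + 1)) * h3'

end

end Pool.Agent.Work.MP_701abf_gt.Sq2.FL
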