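import Pool.Agent.Work.MP_701abf_gt.FL.Defs

/-!
# MP_701abf_gt: the four-line theorem, statements of the parts

Every part is a proposition `S_X`; a file `FL/X.lean` proves `theorem pr_X : S_X` (the parts
`S_TwoPow`, `S_TwoInj`, `S_TwoSpan` are about the 2-line, `S_Four` is the final theorem in terms of
the cobar complex). Notions: `FL/Defs.lean`. The library for the proofs is `Sq2`: `Op.lean`
(`IsOp.congr`, `IsOp.sum`, `IsOp.smul` for `dlOp`, `sgOp`, `sqOp`; `dl_mul`, `sg_mul`: Cartan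
formulas; `dl_ha`, `dl_one`, `dl_dl_ha`, `ZR_one`, `ZR_one'`), `KF.lean` (the structure `KF`),
`Mat.lean` (`Fm`, `Sm`, `Df`, `Sf`, `Sm_sq`, `Sm_add`, `Sm_BR`), `Step.lean` (`coords_D`,
`coords_S`, `concl`, `sumD_one`, `sumS_two`, `sumD_two_cl`, `sumD_two_sg`), `StepSg.lean`,
`StepTw.lean`, `Chain.lean`, `Main.lean`.
-/

open MvPolynomial
open Pool.Agent.Work.MP_701abf_gt.Stab Pool.Agent.Work.MP_701abf_gt.Cob

namespace Pool.Agent.Work.MP_701abf_gt.Sq2.FL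

noncomputable section

/-- Products with `h_a` commute: `[z | h_a] + [h_a | z]` is a coboundary.

Proof. Let `S k = ∑ i ∈ range k, sh i (ha a)` and `G = S s * z`, in `lev (s + 1)`. As `ha a` is
primitive (`face 0 (ha a) = sh 1 (ha a)`, `face 1 (ha a) = sh 1 (ha a) + ha a`,
`face 2 (ha a) = ha a`), `face j (sh i (ha a))` is `sh (i + 1) (ha a)` for `j ≤ i`, is
`sh i (ha a) + sh (i + 1) (ha a)` for `j = i + 1`, and is `sh i (ha a)` for `j ≥ i + 2`. Hence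
`face j (S s) = S (s + 1)` for `1 ≤ j ≤ s`, `face 0 (S s) = S (s + 1) + ha a` and
`face (s + 1) (S s) = S s = S (s + 1) + sh s (ha a)`. The faces are ring maps, so
`dE (s + 1) G = ∑ j ∈ range (s + 2), face j (S s) * face j z =
S (s + 1) * dE (s + 1) z + ha a * sh 1 z + sh s (ha a) * z`
(`face 0 z = sh 1 z`, `face (s + 1) z = z` by `face_high`), and `dE (s + 1) z = 0`. -/
def S_Comm : Prop := ∀ (s a : ℕ) (T : ℤ), ∀ z ∈ ZR s T,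
  ha a * sh 1 z + z * sh s (ha a) ∈ BR (s + 1) (2 ^ a + T)

/-- On the 2-line `Sq^2` is the square: Steenrod's formula is the juxtaposition.

Proof. In the formula of `sqTwo 2 p` there are five quadruples `a < b < c < d ≤ 4`; by parities
only `(0, 1, 3, 4)` contributes, with `miss 2 0 1 p * miss 2 3 4 p`. The first factor is `p` in the
tensor factors 2 and 3, the second one is `p` in the tensor factors 0 and 1 (compare the algebra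
maps on the generators as in `Cob.sqOne_one`, `Cob/Spread.lean`). -/
def S_SqTwo : Prop := ∀ p : Cobar 2, sqTwo 2 p = jux 2 2 p p

/-- The step for the upper cluster `2 ^ (ν + 1)`.

Proof. By `TwoPow`, for every `l` with `d l = 2` there is `ε l` in `F_2` with
`u l + ε l • bb ν ∈ BR 2`; for `d l = 3` there is `ε l` with `u l = ε l • ha (ν + 1)` (`ZR_one`);
for `d l = 4` we have `u l ∈ ZR 0 = 0` (`V0_one`, `BR_zero_deg` are in the library; or use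
`V0 1 (2 ^ (ν + 1))`). Let `z = ∑ l with d l = 2, ε l • w l` and
`α = ∑ l with d l = 3, ε l • w l`. Then `x ≡ Sm d w u ≡ z * sh 2 (bb ν) + α * sh 3 (ha (ν + 1))`.
Put `δ = dl 1 (ha (ν + 1)) = ha (ν + 1) * sh 1 (ha (ν + 1)) = bb ν ^ 2`, which is not in
`BR 2 (2 * 2 ^ (ν + 1))` (`dl_ha`). The coordinate of `dl 4 x` at `m` with `d m = 3` (`coords_D`,
`k = 2`) gives `(ε m + ∑ l, cD l m * ε l) • δ ∈ BR 2`, the sum over `d l = 2`; so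
`ε m = ∑ l, cD l m * ε l`. Hence `dl 2 z ≡ ∑ l with d l = 2, ε l • ∑ m, cD l m • w m ^ 2 = α ^ 2`
(`K.dl_w`, `IsOp.sum`, `IsOp.smul`; `cD l m ≠ 0` only for `d m = d l + 1 = 3`).
Now let `sg 4 x ∈ BR 6`. For `d m = 4` the coordinate of `dl 4 x` (`k = 1`, where `BR 1 = 0` by
`BR_one`) gives `(∑ l with d l = 3, cD l m * ε l) • ha (ν + 1) ^ 2 = 0`, and the coordinate of
`sg 4 x` (`coords_S`, `k = 2`) gives
`(∑ l with d l = 3, cD l m * ε l + ∑ l with d l = 2, cS l m * ε l) • δ ∈ BR 2`. So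
`∑ l with d l = 2, cS l m * ε l = 0` for all `m`, hence
`sg 2 z ≡ ∑ l with d l = 2, ε l • ∑ m, cS l m • w m ^ 2 = 0`. -/
def S_PN : Prop := ∀ (Λ : Type) [Fintype Λ] (d : Λ → ℕ) (w : Λ → RR Empty)
  (cD cS : Λ → Λ → ZMod 2) (n ν : ℕ) (M : ℤ), KF n (2 ^ (ν + 1)) M d w cD cS → 6 ≤ n → TwoPow →
  ∀ x ∈ ZR 4 (2 ^ (ν + 1) + M), dl 4 x ∈ BR 5 (2 * (2 ^ (ν + 1) + M)) →
  ∀ u : Λ → RR Empty, Fm d 4 (2 ^ (ν + 1)) u → x + Sm d w u ∈ BR 4 (2 ^ (ν + 1) + M) →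
  (∀ l, d l = 1 → u l ∈ BR 3 (2 ^ (ν + 1))) →
  ∃ z ∈ ZR 2 M, ∃ α ∈ ZR 3 M, dl 2 z + α ^ 2 ∈ BR 3 (2 * M) ∧
    x + (z * sh 2 (bb ν) + α * sh 3 (ha (ν + 1))) ∈ BR 4 (2 ^ (ν + 1) + M) ∧
    (sg 4 x ∈ BR 6 (2 * (2 ^ (ν + 1) + M)) → sg 2 z ∈ BR 4 (2 * M))

/-- Upper cluster a power of two, lower cluster not a power of two.

Proof. `K.surj` gives `u`; there is no `l` with `d l = 1`; take `z`, `α` from `S_PN`. By `dl_mul`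
(`i = 1`, `j = 2`), `dl 3 (z * sh 2 (ha (ν + 1))) = dl 2 z * sh 3 (ha (ν + 1) ^ 2) +
z ^ 2 * sh 2 (dl 1 (ha (ν + 1)))`, and `dl 1 (ha (ν + 1)) = bb ν ^ 2` (`dl_one`). So the sum of
this and of `x ^ 2 ≡ z ^ 2 * sh 2 (bb ν ^ 2) + α ^ 2 * sh 3 (ha (ν + 1) ^ 2)` is
`≡ (dl 2 z + α ^ 2) * sh 3 (ha (ν + 1) ^ 2)`, in `BR 4` by `mul_BR_right`. -/
def S_LPN : Prop := ∀ (Λ : Type) [Fintype Λ] (d : Λ → ℕ) (w : Λ → RR Empty)
  (cD cS : Λ → Λ → ZMod 2) (n ν : ℕ) (M : ℤ), KF n (2 ^ (ν + 1)) M d w cD cS → 6 ≤ n → TwoPow →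
  (∀ l, d l ≠ 1) → ∀ x ∈ ZR 4 (2 ^ (ν + 1) + M), dl 4 x ∈ BR 5 (2 * (2 ^ (ν + 1) + M)) →
  ∃ z ∈ ZR 2 M, dl 3 (z * sh 2 (ha (ν + 1))) + x ^ 2 ∈ BR 4 (2 * (2 ^ (ν + 1) + M)) ∧
    (sg 4 x ∈ BR 6 (2 * (2 ^ (ν + 1) + M)) → sg 2 z ∈ BR 4 (2 * M))

/-- Both clusters powers of two.

Proof. `K.surj` gives `u`. Let `l0`, `m0` be as in `Sg d cD` (`d m0 = 2`). The coordinate of
`dl 4 x` at `m0` (`coords_D`, `k = 3`, `sumD_two_sg`) is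
`dl 2 (u m0) + u l0 ^ 2 ∈ BR 3`. By `TwoPow`, `u m0 ≡ 0` or `≡ bb ν = dl 1 (ha ν)`, so
`dl 2 (u m0) ∈ BR 3` (`dl_dl_ha`), so `u l0 ^ 2 ∈ BR 3` and `u l0 ∈ BR 3` (`Gi`). So `S_PN`
applies. By `TwoPow` for `M`, `z ≡ 0` or `≡ bb μ`, so `dl 2 z ∈ BR 3`, so `α ^ 2 ∈ BR 3`, so
`α ∈ BR 3 M` (`Gi`). Hence `x ≡ z * sh 2 (bb ν)`, which is `≡ 0` or `≡ bb μ * sh 2 (bb ν)`. -/
def S_LPP : Prop := ∀ (Λ : Type) [Fintype Λ] (d : Λ → ℕ) (w : Λ → RR Empty)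
  (cD cS : Λ → Λ → ZMod 2) (n ν μ : ℕ), KF n (2 ^ (ν + 1)) (2 ^ (μ + 1)) d w cD cS → 6 ≤ n →
  TwoPow → Sg d cD → Gi n (2 ^ (ν + 1)) → Gi n (2 ^ (μ + 1)) →
  ∀ x ∈ ZR 4 (2 ^ (ν + 1) + 2 ^ (μ + 1)),
  dl 4 x ∈ BR 5 (2 * (2 ^ (ν + 1) + 2 ^ (μ + 1))) →
  x ∈ BR 4 (2 ^ (ν + 1) + 2 ^ (μ + 1)) ∨
  x + bb μ * sh 2 (bb ν) ∈ BR 4 (2 ^ (ν + 1) + 2 ^ (μ + 1))

/-- Upper cluster not a power of two, lower cluster a power of two.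

Proof. `K.surj` gives `u`. Let `l0`, `m0` be as in `Sg d cD` and `z = u m0 ∈ ZR 2 N`. As `V0 2 N`,
the coordinates with `d l ≥ 3` are in `BR` (`small`). The coordinates of `dl 4 x` at `m` with
`d m = 2` (`coords_D`, `k = 3`, `sumD_two_sg`) give `dl 2 (u m) + cD l0 m • u l0 ^ 2 ∈ BR 3`; in
particular `dl 2 z + u l0 ^ 2 ∈ BR 3`, so `dl 2 (u m + cD l0 m • z) ∈ BR 3`, and by `A0 2 N`
`u m + cD l0 m • z ∈ BR 2 N`. So modulo `BR 4`: `x ^ 2 ≡ Sm d (w ^ 2) (u ^ 2)` is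
`w l0 ^ 2 * sh 1 (u l0 ^ 2) + ∑ m with d m = 2, w m ^ 2 * sh 2 (cD l0 m • z ^ 2)`, which is
`≡ w l0 ^ 2 * sh 1 (dl 2 z) + dl 1 (w l0) * sh 2 (z ^ 2) = dl 3 (w l0 * sh 1 z)` (`dl_mul`,
`K.dl_w l0`; `cD l0 m ≠ 0` only for `d m = 2`). This is the argument of `X1_sg` (`StepSg.lean`)
for `κ = 2`. By `ZR_one`, `w l0 = 0` or `w l0 = ha μ`; in the first case `x ^ 2 ∈ BR 4` and we
take `z = 0`. For the last claim: the coordinate of `dl 4 x` at `l0` (`k = 4`, `sumD_one`) is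
`dl 3 (u l0) ∈ BR 4`, and the coordinate of `sg 4 x` at `m0` (`coords_S`, `k = 4`,
`sumD_two_sg`, `sumS_two`) is `sg 2 (u m0) + dl 3 (u l0) ∈ BR 4`; see `F12`. -/
def S_LNP : Prop := ∀ (Λ : Type) [Fintype Λ] (d : Λ → ℕ) (w : Λ → RR Empty)
  (cD cS : Λ → Λ → ZMod 2) (n μ : ℕ) (N : ℤ), KF n N (2 ^ μ) d w cD cS → 6 ≤ n →
  Sg d cD → V0 2 N → A0 2 N → ∀ x ∈ ZR 4 (N + 2 ^ μ), dl 4 x ∈ BR 5 (2 * (N + 2 ^ μ)) →
  ∃ z ∈ ZR 2 N, dl 3 (ha μ * sh 1 z) + x ^ 2 ∈ BR 4 (2 * (N + 2 ^ μ)) ∧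
    (sg 4 x ∈ BR 6 (2 * (N + 2 ^ μ)) → sg 2 z ∈ BR 4 (2 * N))

/-- The conclusion for the chains with two clusters.

Proof. Take `J`, `L` from `exists_KF 6`, and enlarge `J` such that `Gi 6` holds (`exists_Gi`);
`J ≥ 1`. Let `Ch L c m t` with `c + m = 2`. By `cases`, `t = t' + M` where `t'` is a power of two
or not (`Ch.sg`, `Ch.cl`, as a chain has `c + m ≥ 1`), and `M` is a power of two (`Ch.addsg`) or
not (`Ch.addcl`); `KF 6 (2 ^ b t') (2 ^ b M)` as in the proof of `chain` (`Chain.lean`).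
* Both not powers: `A0_tw` with `κ = 2` (`V0_two`, `TwoInj`) gives `x ∈ BR 4`.
* Both powers: `S_LPP` gives `x ∈ BR 4` or the third case of `Four`.
* `t'` a power, `M` not: `S_LPN`. The element `z * sh 2 (ha (ν + 1))` is
  `≡ ha (ν + 1) * sh 1 z` by `S_Comm`, so `dl 3` of them agree modulo `BR 4` (`IsOp.congr`). If
  `sg 4 x ∉ BR 6` this is the second case, otherwise the fourth one (with `T = 2 ^ b M`).
* `t'` not a power, `M` a power: `S_LNP` in the same way (with `T = 2 ^ b t'`). -/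
def S_TwoCh : Prop := TwoPow → TwoInj → ∃ J L : ℕ, ∀ b : ℕ, J ≤ b → ∀ L' : ℕ, L ≤ L' →
  ∀ c m t : ℕ, Ch L' c m t → c + m = 2 → Four ((2 ^ b * t : ℕ) : ℤ)

/-- Sum of two powers of two: the 2-line in degree `2 ^ (a + 1)`.

Proof: see the parts on the 2-line (helper51). -/
def S_TwoPow : Prop := TwoPow

/-- The 2-line in degrees which are not powers of two.

Proof: see the parts on the 2-line (helper51). -/
def S_TwoInj : Prop := TwoInj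

/-- The spanning part of Adams's theorem on the 2-line.

Proof: see the parts on the 2-line (helper51). -/
def S_TwoSpan : Prop := TwoSpan

/-- The four-line theorem. `x` is the class of `p`, `x_j` the class of `p ^ 2 ^ j`.

Proof. As `Sq2.trich` (`Main.lean`) with `s = 3`, using `degrees 4`: for `t ≠ 2 ^ a u`, `u ≤ U`,
either `Ext^{4,t} = 0` or `t` is a chain with `c + m + e = 4`, `m ≤ e`, and `c + m ≥ 2`. If
`c + m ≥ 3`, then `e ≤ 1` and the proof of `trich` applies (the third case below). If `c + m = 2`,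
use `S_TwoCh` for `P = p ^ 2 ^ J`, of degree `2 ^ J t`. The second case of `Four` is the third case
below (as in `trich`); the third case of `Four` is the fourth case below; in the fourth case of
`Four`, `z` is `0` or `h_b h_c` modulo `BR 2` by `TwoSpan`, and `b ≠ c` as `T` is not a power of
two. If `z ∈ BR 2`, then `x ^ 2 ∈ BR 4`, so `x = 0` (`Gi`). Otherwise
`dl 3 (ha a * sh 1 z) ≡ dl 3 (ha a * sh 1 (ha c * sh 1 (ha b)))`, which is the fifth case; the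
square of `h_b h_c` vanishes as `sg 2 z ∈ BR 4` (`sqTwo_BR`, `S_SqTwo`). All relations are
transported to `j` by `fr_Bc`. -/
def S_Four : Prop := ∃ U J : ℕ, ∀ t : ℕ, (∀ a u : ℕ, u ≤ U → t ≠ 2 ^ a * u) → ∀ p ∈ Zc 4 t,
  (∀ j, J ≤ j → p ^ 2 ^ j ∈ Bc 4 (2 ^ j * t)) ∨
  (∀ j, J ≤ j → jux 5 1 (sqOne 4 (p ^ 2 ^ j)) (xi 0 1) ∉ Bc 6 (2 ^ (j + 1) * t + 1)) ∨
  (∃ q ∈ Zc 3 (2 ^ J * t), ∀ j,
    p ^ 2 ^ (J + j + 1) + sqOne 3 (q ^ 2 ^ j) ∈ Bc 4 (2 ^ (J + j + 1) * t) ∧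
    (∀ w ∈ Zc 6 (2 ^ (J + j + 1) * t + 1),
      jux 6 1 (sqTwo 4 (p ^ 2 ^ (J + j))) (xi 0 1 ^ 2) + jux 6 1 w (xi 0 1) ∉
        Bc 7 (2 ^ (J + j + 1) * t + 2)) ∧
    ∀ z ∈ Zc 5 (2 ^ (J + j + 1) * t + 1), ∃ w ∈ Zc 4 (2 ^ (J + j + 1) * t),
      z + jux 4 1 w (xi 0 1) ∈ Bc 5 (2 ^ (J + j + 1) * t + 1)) ∨
  (∃ a b : ℕ, 2 ^ (a + 1) + 2 ^ (b + 1) = 2 ^ J * t ∧ ∀ j,
    p ^ 2 ^ (J + j) + jux 2 2 (jux 1 1 (xi 0 1 ^ 2 ^ (a + j)) (xi 0 1 ^ 2 ^ (a + j)))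
      (jux 1 1 (xi 0 1 ^ 2 ^ (b + j)) (xi 0 1 ^ 2 ^ (b + j))) ∈ Bc 4 (2 ^ (J + j) * t)) ∨
  ∃ a b c : ℕ, b + 2 ≤ c ∧ 2 ^ a + 2 ^ b + 2 ^ c = 2 ^ J * t ∧ ∀ j,
    p ^ 2 ^ (J + j + 1) + sqOne 3 (jux 2 1 (jux 1 1 (xi 0 1 ^ 2 ^ (b + j))
      (xi 0 1 ^ 2 ^ (c + j))) (xi 0 1 ^ 2 ^ (a + j))) ∈ Bc 4 (2 ^ (J + j + 1) * t) ∧
    jux 2 2 (jux 1 1 (xi 0 1 ^ 2 ^ (b + j)) (xi 0 1 ^ 2 ^ (c + j)))
      (jux 1 1 (xi 0 1 ^ 2 ^ (b + j)) (xi 0 1 ^ 2 ^ (c + j))) ∈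
        Bc 4 (2 ^ (j + 1) * (2 ^ b + 2 ^ c))

end

end Pool.Agent.Work.MP_701abf_gt.Sq2.FL
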