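import Pool.Agent.Work.MP_701abf_gt.Sq2.Main

/-!
Four-line theorem: definitions.

In the big ring, `ha a` is the cocycle of `h_a`, of degree `(1, 2 ^ a)`; the product of the classes
of `F` (`i` factors) and `G` (`j` factors) is `G * sh j F`, which is the juxtaposition `[F | G]`;
`dl` and `sg` represent `Sq^1` and `Sq^2`, and `F ^ 2` represents `Sq^0`.
-/

open MvPolynomial
open Pool.Agent.Work.MP_701abf_gt.Stab Pool.Agent.Work.MP_701abf_gt.Cob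

namespace Pool.Agent.Work.MP_701abf_gt.Sq2.FL

noncomputable section

/-- The cocycle `[h_a | h_a]`, of degree `(2, 2 ^ (a + 1))`. -/
def bb (a : ℕ) : RR Empty := ha a * sh 1 (ha a)

/-- In degree `2 ^ (a + 1)` every class on the 2-line is `0` or `h_a ^ 2`. -/
def TwoPow : Prop := ∀ a : ℕ, ∀ x ∈ ZR 2 (2 ^ (a + 1)),
  x ∈ BR 2 (2 ^ (a + 1)) ∨ x + bb a ∈ BR 2 (2 ^ (a + 1))

/-- In the degrees which are not powers of two, `Sq^1` is injective on the 2-line. -/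
def TwoInj : Prop := ∀ T : ℤ, 0 < T → (¬ ∃ b : ℕ, T = 2 ^ b) → A0 2 T

/-- Every class on the 2-line is `0` or `h_a h_b` with `a = b` or `a + 2 ≤ b`. -/
def TwoSpan : Prop := ∀ T : ℤ, 0 < T → ∀ x ∈ ZR 2 T, x ∈ BR 2 T ∨
  ∃ a b : ℕ, (a = b ∨ a + 2 ≤ b) ∧ T = 2 ^ a + 2 ^ b ∧ x + ha b * sh 1 (ha a) ∈ BR 2 T

/-- The conclusion for the classes on the 4-line in degree `t`: if `Sq^1 x = 0` then `x = 0`; or
`Sq^0 x = Sq^1 v` and `Sq^2 x ≠ 0`; or `x = h_a ^ 2 h_b ^ 2`; or `Sq^0 x = Sq^1 (z h_a)` with `z` on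
the 2-line in a degree which is not a power of two, with `Sq^2 z = 0`. -/
def Four (t : ℤ) : Prop := ∀ x ∈ ZR 4 t, dl 4 x ∈ BR 5 (2 * t) →
  x ∈ BR 4 t ∨
  ((∃ v ∈ ZR 3 t, dl 3 v + x ^ 2 ∈ BR 4 (2 * t)) ∧ sg 4 x ∉ BR 6 (2 * t)) ∨
  (∃ a b : ℕ, t = 2 ^ (a + 1) + 2 ^ (b + 1) ∧ x + bb b * sh 2 (bb a) ∈ BR 4 t) ∨
  ∃ (a : ℕ) (T : ℤ), 0 < T ∧ (¬ ∃ b : ℕ, T = 2 ^ b) ∧ t = 2 ^ a + T ∧ ∃ z ∈ ZR 2 T,
    sg 2 z ∈ BR 4 (2 * T) ∧ dl 3 (ha a * sh 1 z) + x ^ 2 ∈ BR 4 (2 * t)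

end

end Pool.Agent.Work.MP_701abf_gt.Sq2.FL
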