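import Pool.Agent.Work.MP_701abf_gt.FL.Stmts

/-!
Four-line theorem: upper cluster not a power of two, lower cluster a power of two.
-/

open MvPolynomial
open Pool.Agent.Work.MP_701abf_gt.Stab Pool.Agent.Work.MP_701abf_gt.Cob

namespace Pool.Agent.Work.MP_701abf_gt.Sq2.FL

noncomputable section

namespace XLNP

variable {Λ : Type} [Fintype Λ] {d : Λ → ℕ} {w : Λ → RR Empty} {cD cS : Λ → Λ → ZMod 2}
  {N M : ℤ} {n : ℕ}

/-- The final argument for exactness, with the explicit solution. -/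
lemma exact_of' (K : KF n N M d w cD cS) {s : ℕ} (hs : s + 2 ≤ n) {x : RR Empty}
    (hx : x ∈ ZR (s + 1) (N + M)) {u y : Λ → RR Empty} (hu : Fm d (s + 1) N u)
    (e : x + Sm d w u ∈ BR (s + 1) (N + M)) (hy : Fm d s N y)
    (h : ∀ l k, k + d l = s + 1 → Df d cD s y l + u l ^ 2 ∈ BR k (2 * N)) :
    dl s (Sm d w y) + x ^ 2 ∈ BR (s + 1) (2 * (N + M)) := by
  have h1 := Sm_dl K (s := s) (by omega) hy
  have h2 : x ^ 2 + (Sm d w u) ^ 2 ∈ BR (s + 1) (2 * (N + M)) :=
    (sqOp (s + 1) (N + M)).congr hx e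
  rw [Sm_sq] at h2
  have h3 := Df_Fm K.cD_deg hy
  have h4 : Sm d (fun l => w l ^ 2) (fun l => Df d cD s y l + u l ^ 2) ∈
      BR (s + 1) (2 * N + 2 * M) := by
    refine Sm_BR (fun l => sq_ZR (K.w_mem l)) (s := s + 1)
      ⟨fun l hl => Submodule.add_mem _ (h3.1 l hl) (sq_ZR (hu.1 l hl)), fun l hl => ?_⟩
      fun l hl => h l _ (by omega)
    have a1 : Df d cD s y l = 0 := h3.2 l hl
    have a2 : u l = 0 := hu.2 l hl
    beta_reduce
    rw [a1, a2, zero_pow two_ne_zero, add_zero]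
  rw [Sm_add, show 2 * N + 2 * M = 2 * (N + M) by ring] at h4
  have h5 := Submodule.add_mem _ (Submodule.add_mem _ h1 h2) h4
  refine mem_of_eq h5 ?_
  have b1 := add_self2 (Sm d (fun l => w l ^ 2) (Df d cD s y))
  have b2 := add_self2 (Sm d (fun l => w l ^ 2) (fun l => u l ^ 2))
  calc _ = dl s (Sm d w y) + x ^ 2 + (Sm d (fun l => w l ^ 2) (Df d cD s y) +
        Sm d (fun l => w l ^ 2) (Df d cD s y)) +
        (Sm d (fun l => w l ^ 2) (fun l => u l ^ 2) +
          Sm d (fun l => w l ^ 2) (fun l => u l ^ 2)) := by abel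
    _ = _ := by rw [b1, b2, add_zero, add_zero]

end XLNP

open XLNP in
theorem pr_LNP : S_LNP := by
  intro Λ _ d w cD cS n μ N K hn hS hV hA x hx hd
  obtain ⟨l0, m0, h0, hl, hm, -⟩ := hS
  obtain ⟨u, hu1, hu2, e⟩ := K.surj 4 (by omega) x hx
  have hu : Fm d 4 N u := ⟨hu1, hu2⟩
  have hm0 : d m0 = 2 := by
    have := K.cD_deg l0 m0 (by rw [hm]; exact one_ne_zero)
    omega
  have E2 : ∀ m, d m = 2 → dl 2 (u m) + cD l0 m • u l0 ^ 2 ∈ BR 3 (2 * N) := by
    intro m hm'
    have h4 := coords_D K (s := 4) (by omega) hx hu e hd (m := m) (k := 3) (by omega)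
    unfold Df at h4
    rw [sumD_two_sg K hl _ hm', dl'_eq (k := 2) (by omega)] at h4
    exact h4
  have hE := E2 m0 hm0
  rw [hm, one_smul] at hE
  have hv : u m0 ∈ ZR 2 N := hu.mem (by omega)
  set y : Λ → RR Empty := fun l => if d l = 1 then u m0 else 0 with hy
  have hy1 : ∀ l, d l = 1 → y l = u m0 := fun l hl => by rw [hy]; exact if_pos hl
  have hy0 : ∀ l, d l ≠ 1 → y l = 0 := fun l hl => by rw [hy]; exact if_neg hl
  have hyF : Fm d 3 N y := by
    refine ⟨fun l hl' => ?_, fun l hl' => hy0 l (by omega)⟩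
    by_cases h : d l = 1
    · rw [hy1 l h, h]
      exact hv
    · rw [hy0 l h]
      exact Submodule.zero_mem _
  have main : dl 3 (Sm d w y) + x ^ 2 ∈ BR 4 (2 * (N + 2 ^ μ)) := by
    refine exact_of' K (s := 3) (by omega) hx hu e hyF fun l k hk => ?_
    have h1 := K.d_pos l
    by_cases h2 : d l = 1
    · obtain rfl : k = 3 := by omega
      unfold Df
      rw [sumD_one K _ (by omega), add_zero, dl'_eq (k := 2) (by omega), hy1 l h2, hl l h2]
      exact hE
    have e1 : dl' d 3 y l = 0 := by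
      unfold dl'
      rw [hy0 l h2, dl_zero, ite_self]
    unfold Df
    rw [e1, zero_add]
    by_cases h3 : d l = 2
    · obtain rfl : k = 2 := by omega
      rw [sumD_two_sg K hl _ h3, hy1 l0 h0]
      have e2 : cD l0 l • u m0 ^ 2 + u l ^ 2 = (u l + cD l0 l • u m0) ^ 2 := by
        rw [sq_add, smul_sq, add_comm]
      rw [e2]
      have hcv : cD l0 l • u m0 ∈ ZR 2 N := Submodule.smul_mem _ _ hv
      refine sq_BR (hA _ (Submodule.add_mem _ (hu.mem (by omega)) hcv) ?_)
      have a1 := (dlOp 2 N).add (u l) (hu.mem (by omega)) _ hcv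
      rw [(dlOp 2 N).smul] at a1
      have a2 := E2 l h3
      have a3 := Submodule.smul_mem _ (cD l0 l) hE
      rw [smul_add] at a3
      refine mem_of_eq (Submodule.add_mem _ a1 (Submodule.add_mem _ a2 a3)) ?_
      have b1 := add_self2 (dl 2 (u l))
      have b2 := add_self2 (cD l0 l • dl 2 (u m0))
      have b3 := add_self2 (cD l0 l • u l0 ^ 2)
      calc _ = dl 2 (u l + cD l0 l • u m0) + (dl 2 (u l) + dl 2 (u l)) +
            (cD l0 l • dl 2 (u m0) + cD l0 l • dl 2 (u m0)) +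
            (cD l0 l • u l0 ^ 2 + cD l0 l • u l0 ^ 2) := by abel
        _ = _ := by rw [b1, b2, b3, add_zero, add_zero, add_zero]
    · have e2 : ∑ l', cD l' l • y l' ^ 2 = 0 := by
        refine Finset.sum_eq_zero fun l' _ => ?_
        by_cases h0' : cD l' l = 0
        · rw [h0', zero_smul]
        · have h5 := K.cD_deg l' l h0'
          rw [hy0 l' (by omega), zero_pow two_ne_zero, smul_zero]
      rw [e2, zero_add]
      exact sq_BR (small hV hu hk (by omega))
  have hSm : Sm d w y = w l0 * sh 1 (u m0) := by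
    unfold Sm
    rw [Finset.sum_eq_single l0, hy1 l0 h0, h0]
    · intro l _ hne
      rw [hy0 l fun h => hne (hl l h), map_zero, mul_zero]
    · exact fun h => absurd (Finset.mem_univ _) h
  rw [hSm] at main
  have hw0 := K.w_mem l0
  rw [h0] at hw0
  rcases ZR_one hw0 with hz | hz
  · refine ⟨0, Submodule.zero_mem _, ?_, fun _ => ?_⟩
    · rw [hz, zero_mul] at main
      rw [map_zero, mul_zero]
      exact main
    · rw [sg_zero]
      exact Submodule.zero_mem _
  · rw [hz] at main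
    refine ⟨u m0, hv, main, fun hs => ?_⟩
    have E1 : dl 3 (u l0) ∈ BR 4 (2 * N) := by
      have h4 := coords_D K (s := 4) (by omega) hx hu e hd (m := l0) (k := 4) (by omega)
      unfold Df at h4
      rw [sumD_one K _ (by omega), add_zero, dl'_eq (k := 3) (by omega)] at h4
      exact h4
    obtain ⟨-, F2⟩ := F12 K (κ := 2) h0 hl (by omega) hx hs hu e
    have h7 := F2 m0 hm0
    rw [hm, one_smul] at h7
    exact BR_cancel h7 E1

end

end Pool.Agent.Work.MP_701abf_gt.Sq2.FL
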