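import Pool.Agent.Work.MP_701abf_gt.FL.Stmts

/-! Four-line theorem, part LPN: upper cluster a power of two, lower cluster not. -/

open MvPolynomial
open Pool.Agent.Work.MP_701abf_gt.Stab Pool.Agent.Work.MP_701abf_gt.Cob

namespace Pool.Agent.Work.MP_701abf_gt.Sq2.FL

noncomputable section

namespace XLPN

lemma ha_succ (ν : ℕ) : ha (ν + 1) = ha ν ^ 2 := by
  unfold ha
  rw [← pow_mul, pow_succ]

lemma dl_ha_succ (ν : ℕ) : dl 1 (ha (ν + 1)) = bb ν ^ 2 := by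
  rw [dl_one (ha_ZR (ν + 1)).1, ha_succ, bb, mul_pow, map_pow]

end XLPN

open XLPN

theorem pr_LPN' : S_PN → S_LPN := by
  intro hPN Λ _ d w cD cS n ν M K hn hT hd x hx hdx
  obtain ⟨u, hu1, hu2, hu3⟩ := K.surj 4 (by omega) x hx
  obtain ⟨z, hz, α, hα, h1, h2, h3⟩ := hPN Λ d w cD cS n ν M K hn hT x hx hdx u ⟨hu1, hu2⟩ hu3
    (fun l hl => absurd hl (hd l))
  refine ⟨z, hz, ?_, h3⟩
  have hh := ha_ZR (ν + 1)
  have e1 := dl_mul (i := 1) (j := 2) hh hz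
  rw [dl_ha_succ] at e1
  have h4 := sq_BR h2
  rw [sq_add, sq_add, mul_pow, mul_pow, ← map_pow, ← map_pow] at h4
  have h5 := mul_BR_right (i := 1) (j := 3) (sq_ZR hh) h1
  have e2 : (2 : ℤ) * 2 ^ (ν + 1) + 2 * M = 2 * (2 ^ (ν + 1) + M) := by ring
  rw [e2] at h5
  have h6 := Submodule.add_mem _ h5 h4
  refine mem_of_eq h6 ?_
  change _ = dl (1 + 2) (z * sh 2 (ha (ν + 1))) + x ^ 2
  rw [e1, add_mul]
  have t := add_self2 (α ^ 2 * sh 3 (ha (ν + 1) ^ 2))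
  calc _ = dl 2 z * sh 3 (ha (ν + 1) ^ 2) + z ^ 2 * sh 2 (bb ν ^ 2) + x ^ 2 +
        (α ^ 2 * sh 3 (ha (ν + 1) ^ 2) + α ^ 2 * sh 3 (ha (ν + 1) ^ 2)) := by abel
    _ = _ := by rw [t, add_zero]

end

end Pool.Agent.Work.MP_701abf_gt.Sq2.FL
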