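import Pool.Agent.Work.MP_701abf_gt.FL.Stmts

/-!
# MP_701abf_gt: the four-line theorem, item LPP (both clusters powers of two)
-/

open MvPolynomial
open Pool.Agent.Work.MP_701abf_gt.Stab Pool.Agent.Work.MP_701abf_gt.Cob

namespace Pool.Agent.Work.MP_701abf_gt.Sq2.FL

noncomputable section

namespace XLPP

lemma bb_eq (a : ℕ) : bb a = dl 1 (ha a) := (dl_one (ha_ZR a).1).symm

lemma bb_ZR (a : ℕ) : bb a ∈ ZR 2 (2 ^ (a + 1)) := by
  have h := mul_ZR (ha_ZR a) (ha_ZR a)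
  have e : (2 : ℤ) ^ a + 2 ^ a = 2 ^ (a + 1) := by ring
  rw [e] at h
  exact h

/-- The operation of degree one vanishes on the 2-line in degrees which are powers of two. -/
lemma dl_two (hT : TwoPow) (a : ℕ) {y : RR Empty} (hy : y ∈ ZR 2 (2 ^ (a + 1))) :
    dl 2 y ∈ BR 3 (2 * 2 ^ (a + 1)) := by
  rcases hT a y hy with h | h
  · exact dl_BR h
  · have h1 := (dlOp 2 (2 ^ (a + 1))).congr hy h
    have h2 := dl_dl_ha a
    rw [← bb_eq] at h2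
    have e : (2 : ℤ) * (2 * 2 ^ a) = 2 * 2 ^ (a + 1) := by ring
    rw [e] at h2
    exact BR_cancel h1 h2

end XLPP

open XLPP in
theorem pr_LPP' (hPN : S_PN) : S_LPP := by
  intro Λ _ d w cD cS n ν μ K hn hT hS hG hG' x hx hd
  obtain ⟨u, hu1, hu2, e⟩ := K.surj 4 (by omega) x hx
  have hu : Fm d 4 (2 ^ (ν + 1)) u := ⟨hu1, hu2⟩
  obtain ⟨l0, m0, h0, hl, hm, -⟩ := hS
  have hm0 : d m0 = 2 := by
    have := K.cD_deg l0 m0 (by rw [hm]; exact one_ne_zero)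
    omega
  have h4 := coords_D K (s := 4) (by omega) hx hu e hd (m := m0) (k := 3) (by omega)
  unfold Df at h4
  rw [sumD_two_sg K hl _ hm0, hm, one_smul, dl'_eq (k := 2) (by omega)] at h4
  have h5 : u l0 ^ 2 ∈ BR 3 (2 * 2 ^ (ν + 1)) :=
    BR_cancel' h4 (dl_two hT ν (hu.mem (by omega)))
  have h6 : u l0 ∈ BR 3 (2 ^ (ν + 1)) := hG 3 (by omega) _ (hu.mem (by omega)) h5
  obtain ⟨z, hz, α, hα, h7, h8, -⟩ := hPN Λ d w cD cS n ν (2 ^ (μ + 1)) K hn hT x hx hd u hu e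
    (fun l h => by rw [hl l h]; exact h6)
  have h9 : α ^ 2 ∈ BR 3 (2 * 2 ^ (μ + 1)) := BR_cancel' h7 (dl_two hT μ hz)
  have h10 : α ∈ BR 3 (2 ^ (μ + 1)) := hG' 3 (by omega) _ hα h9
  have h11 : α * sh 3 (ha (ν + 1)) ∈ BR 4 (2 ^ (ν + 1) + 2 ^ (μ + 1)) :=
    mul_BR_right' (by norm_num) (ha_ZR (ν + 1)) h10
  rcases hT μ z hz with h | h
  · left
    have h12 : z * sh 2 (bb ν) ∈ BR 4 (2 ^ (ν + 1) + 2 ^ (μ + 1)) :=
      mul_BR_right' (by norm_num) (bb_ZR ν) h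
    exact BR_cancel h8 (Submodule.add_mem _ h12 h11)
  · right
    have h12 : (z + bb μ) * sh 2 (bb ν) ∈ BR 4 (2 ^ (ν + 1) + 2 ^ (μ + 1)) :=
      mul_BR_right' (by norm_num) (bb_ZR ν) h
    have h13 := Submodule.add_mem _ h8 (Submodule.add_mem _ h12 h11)
    refine mem_of_eq h13 ?_
    have a1 := add_self2 (z * sh 2 (bb ν))
    have a2 := add_self2 (α * sh 3 (ha (ν + 1)))
    rw [add_mul]
    calc _ = x + bb μ * sh 2 (bb ν) + (z * sh 2 (bb ν) + z * sh 2 (bb ν)) +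
          (α * sh 3 (ha (ν + 1)) + α * sh 3 (ha (ν + 1))) := by abel
      _ = _ := by rw [a1, a2, add_zero, add_zero]

end

end Pool.Agent.Work.MP_701abf_gt.Sq2.FL
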