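import Pool.Agent.Work.MP_701abf_gt.FL.Stmts

/-!
Four-line theorem: the step for the upper cluster a power of two.
-/

open MvPolynomial
open Pool.Agent.Work.MP_701abf_gt.Stab Pool.Agent.Work.MP_701abf_gt.Cob

namespace Pool.Agent.Work.MP_701abf_gt.Sq2.FL

noncomputable section

namespace XPN

lemma dl_ha_succ (ν : ℕ) : dl 1 (ha (ν + 1)) = bb ν ^ 2 := by
  rw [dl_one (ha_ZR (ν + 1)).1]
  have e : ha (ν + 1) = ha ν ^ 2 := by
    unfold ha
    rw [← pow_mul, pow_succ]
  rw [e, map_pow]
  unfold bb
  rw [mul_pow]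

lemma BR_zero (t : ℤ) {F : RR Empty} (h : F ∈ BR 0 t) : F = 0 := by
  obtain ⟨G, hG, -, rfl⟩ := h
  have h0 : G = 0 := hG
  rw [h0, map_zero]

lemma z2 (c : ZMod 2) : c = 0 ∨ c = 1 := by revert c; decide

lemma coef {S : Submodule (ZMod 2) (RR Empty)} {v : RR Empty} (hv : v ∉ S) {c : ZMod 2}
    (h : c • v ∈ S) : c = 0 := by
  rcases z2 c with rfl | rfl
  · rfl
  · rw [one_smul] at h
    exact absurd h hv

variable {Λ : Type} [Fintype Λ] {d : Λ → ℕ} {w : Λ → RR Empty} {M : ℤ}

/-- an operation on a combination of the cocycles `w l` of index `s` -/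
lemma lin {s : ℕ} {Z' B' : Submodule (ZMod 2) (RR Empty)} {φ : RR Empty → RR Empty}
    (h : IsOp (ZR s M) (BR s M) Z' B' φ) (E : Λ → ZMod 2) (hE : ∀ l, E l ≠ 0 → d l = s)
    (hw : ∀ l, w l ∈ ZR (d l) M) (c : Λ → Λ → ZMod 2)
    (hφ : ∀ l, d l = s → φ (w l) + ∑ m, c l m • w m ^ 2 ∈ B') :
    φ (∑ l, E l • w l) + ∑ m, (∑ l, c l m * E l) • w m ^ 2 ∈ B' := by
  classical
  have hmem : ∀ l, E l • w l ∈ ZR s M := by
    intro l
    by_cases h0 : E l = 0
    · rw [h0, zero_smul]
      exact Submodule.zero_mem _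
    · have := hw l
      rw [hE l h0] at this
      exact Submodule.smul_mem _ _ this
  have h1 := h.sum Finset.univ (fun l => E l • w l) (fun l _ => hmem l)
  have h2 : ∑ l, (φ (E l • w l) + E l • ∑ m, c l m • w m ^ 2) ∈ B' := by
    refine Submodule.sum_mem _ fun l _ => ?_
    rw [h.smul, ← smul_add]
    by_cases h0 : E l = 0
    · rw [h0, zero_smul]
      exact Submodule.zero_mem _
    · exact Submodule.smul_mem _ _ (hφ l (hE l h0))
  have h3 : ∑ l, E l • ∑ m, c l m • w m ^ 2 = ∑ m, (∑ l, c l m * E l) • w m ^ 2 := by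
    simp only [Finset.smul_sum, Finset.sum_smul, smul_smul]
    rw [Finset.sum_comm]
    refine Finset.sum_congr rfl fun m _ => Finset.sum_congr rfl fun l _ => ?_
    rw [mul_comm]
  rw [Finset.sum_add_distrib, h3] at h2
  have h4 := Submodule.add_mem _ h1 h2
  have h5 := add_self2 (∑ l, φ (E l • w l))
  refine mem_of_eq h4 ?_
  calc _ = φ (∑ l, E l • w l) + ∑ m, (∑ l, c l m * E l) • w m ^ 2 +
        (∑ l, φ (E l • w l) + ∑ l, φ (E l • w l)) := by abel
    _ = _ := by rw [h5, add_zero]

/-- a sum with constant coordinates in one index -/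
lemma Sm_const {s : ℕ} (E : Λ → ZMod 2) (hE : ∀ l, E l ≠ 0 → d l = s) (v : RR Empty) :
    Sm d w (fun l => E l • v) = (∑ l, E l • w l) * sh s v := by
  unfold Sm
  rw [Finset.sum_mul]
  refine Finset.sum_congr rfl fun l _ => ?_
  beta_reduce
  by_cases h0 : E l = 0
  · rw [h0, zero_smul, zero_smul, map_zero, mul_zero, zero_mul]
  · rw [hE l h0, map_smul, mul_smul_comm, smul_mul_assoc]

lemma comb {x a b c : RR Empty} : x + a + (a + (b + c)) = x + (b + c) := by
  have h := add_self2 a
  calc x + a + (a + (b + c)) = x + (b + c) + (a + a) := by abel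
    _ = _ := by rw [h, add_zero]

end XPN

open XPN in
theorem pr_PN : S_PN := by
  intro Λ _ d w cD cS n ν M K hn hTP x hx hd u hu e h1
  classical
  have hp0 : (2 : ℤ) ^ (ν + 1) ≠ 0 := by positivity
  have hp2 : 2 * (2 : ℤ) ^ (ν + 1) ≠ 0 := by positivity
  set δ : RR Empty := bb ν ^ 2 with hδ
  have hδ1 : dl 1 (ha (ν + 1)) = δ := dl_ha_succ ν
  have hδn : δ ∉ BR 2 (2 * 2 ^ (ν + 1)) := by
    rw [← hδ1]
    exact dl_ha (ν + 1)
  -- the coefficients
  have hex : ∀ l, ∃ ε : ZMod 2, (d l = 2 → u l + ε • bb ν ∈ BR 2 (2 ^ (ν + 1))) ∧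
      (d l = 3 → u l = ε • ha (ν + 1)) := by
    intro l
    by_cases h2 : d l = 2
    · have h3 : u l ∈ ZR 2 (2 ^ (ν + 1)) := hu.mem (by omega)
      rcases hTP ν (u l) h3 with h4 | h4
      · exact ⟨0, fun _ => by rw [zero_smul, add_zero]; exact h4, fun h => by omega⟩
      · exact ⟨1, fun _ => by rw [one_smul]; exact h4, fun h => by omega⟩
    · by_cases h3 : d l = 3
      · have h4 : u l ∈ ZR 1 (2 ^ (ν + 1)) := hu.mem (by omega)
        rcases ZR_one h4 with h5 | h5
        · exact ⟨0, fun h => by omega, fun _ => by rw [h5, zero_smul]⟩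
        · exact ⟨1, fun h => by omega, fun _ => by rw [h5, one_smul]⟩
      · exact ⟨0, fun h => by omega, fun h => by omega⟩
  choose ε hε2 hε3 using hex
  set E2 : Λ → ZMod 2 := fun l => if d l = 2 then ε l else 0 with hE2
  set E3 : Λ → ZMod 2 := fun l => if d l = 3 then ε l else 0 with hE3
  have hE2' : ∀ l, E2 l ≠ 0 → d l = 2 := by
    intro l h
    by_contra h0
    exact h (if_neg h0)
  have hE3' : ∀ l, E3 l ≠ 0 → d l = 3 := by
    intro l h
    by_contra h0
    exact h (if_neg h0)
  have hE2e : ∀ l, d l = 2 → E2 l = ε l := fun l h => if_pos h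
  have hE3e : ∀ l, d l = 3 → E3 l = ε l := fun l h => if_pos h
  have hu4 : ∀ l, d l = 4 → u l = 0 := by
    intro l h
    have h2 : u l ∈ ZR 0 (2 ^ (ν + 1)) := hu.mem (by omega)
    exact BR_zero _ (V0_one hp0 0 one_pos h2)
  -- squares of the coordinates of index two
  have hsq2 : ∀ l, d l = 2 → u l ^ 2 + E2 l • δ ∈ BR 2 (2 * 2 ^ (ν + 1)) := by
    intro l h
    have h2 : u l ∈ ZR 2 (2 ^ (ν + 1)) := hu.mem (by omega)
    have h3 := (sqOp 2 (2 ^ (ν + 1))).congr h2 (hε2 l h)
    beta_reduce at h3
    rw [smul_sq, ← hE2e l h] at h3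
    exact h3
  have hdl3 : ∀ l, d l = 3 → dl' d 4 u l = E3 l • δ := by
    intro l h
    rw [dl'_eq (k := 1) (by omega), hε3 l h, (dlOp 1 (2 ^ (ν + 1))).smul, hδ1, hE3e l h]
  -- (A)
  have hA : ∀ m, E3 m = ∑ l, cD l m * E2 l := by
    intro m
    by_cases hm : d m = 3
    · have h4 := coords_D K (s := 4) (by omega) hx hu e hd (m := m) (k := 2) (by omega)
      unfold Df at h4
      rw [hdl3 m hm] at h4
      have h5 : ∑ l, cD l m • u l ^ 2 + (∑ l, cD l m * E2 l) • δ ∈ BR 2 (2 * 2 ^ (ν + 1)) := by
        rw [Finset.sum_smul, ← Finset.sum_add_distrib]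
        refine Submodule.sum_mem _ fun l _ => ?_
        rw [← smul_smul, ← smul_add]
        by_cases h0 : cD l m = 0
        · rw [h0, zero_smul]
          exact Submodule.zero_mem _
        · have h6 := K.cD_deg l m h0
          exact Submodule.smul_mem _ _ (hsq2 l (by omega))
      have h6 := Submodule.add_mem _ h4 h5
      have h7 : (E3 m + ∑ l, cD l m * E2 l) • δ ∈ BR 2 (2 * 2 ^ (ν + 1)) := by
        refine mem_of_eq h6 ?_
        have h8 := add_self2 (∑ l, cD l m • u l ^ 2)
        rw [add_smul]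
        calc _ = E3 m • δ + (∑ l, cD l m * E2 l) • δ +
              (∑ l, cD l m • u l ^ 2 + ∑ l, cD l m • u l ^ 2) := by abel
          _ = _ := by rw [h8, add_zero]
      have h8 := coef hδn h7
      have h9 : ∀ a b : ZMod 2, a + b = 0 → a = b := by decide
      exact h9 _ _ h8
    · rw [show E3 m = 0 from if_neg hm]
      symm
      refine Finset.sum_eq_zero fun l _ => ?_
      by_cases h0 : cD l m = 0
      · rw [h0, zero_mul]
      · by_cases h0' : E2 l = 0
        · rw [h0', mul_zero]
        · have h2 := K.cD_deg l m h0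
          have h3 := hE2' l h0'
          omega
  refine ⟨∑ l, E2 l • w l, ?_, ∑ l, E3 l • w l, ?_, ?_, ?_, ?_⟩
  · refine Submodule.sum_mem _ fun l _ => ?_
    by_cases h0 : E2 l = 0
    · rw [h0, zero_smul]
      exact Submodule.zero_mem _
    · have := K.w_mem l
      rw [hE2' l h0] at this
      exact Submodule.smul_mem _ _ this
  · refine Submodule.sum_mem _ fun l _ => ?_
    by_cases h0 : E3 l = 0
    · rw [h0, zero_smul]
      exact Submodule.zero_mem _
    · have := K.w_mem l
      rw [hE3' l h0] at this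
      exact Submodule.smul_mem _ _ this
  · have h2 := lin (dlOp 2 M) E2 hE2' K.w_mem cD (fun l hl => by
      have := K.dl_w l (by omega)
      rw [hl] at this
      exact this)
    have h3 : ∑ m, (∑ l, cD l m * E2 l) • w m ^ 2 = (∑ l, E3 l • w l) ^ 2 := by
      rw [sum_sq]
      refine Finset.sum_congr rfl fun m _ => ?_
      rw [smul_sq, ← hA m]
    rw [h3] at h2
    exact h2
  · -- the decomposition
    set u' : Λ → RR Empty := fun l => u l + (E2 l • bb ν + E3 l • ha (ν + 1)) with hu'
    have hbb : bb ν ∈ ZR 2 (2 ^ (ν + 1)) := by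
      have h2 := mul_ZR (ha_ZR ν) (ha_ZR ν)
      have h3 : (2 : ℤ) ^ ν + 2 ^ ν = 2 ^ (ν + 1) := by ring
      rw [h3] at h2
      exact h2
    have hF : Fm d 4 (2 ^ (ν + 1)) u' := by
      refine ⟨fun l hl => ?_, fun l hl => ?_⟩
      · refine Submodule.add_mem _ (hu.1 l hl) (Submodule.add_mem _ ?_ ?_)
        · by_cases h0 : E2 l = 0
          · rw [h0, zero_smul]
            exact Submodule.zero_mem _
          · rw [hE2' l h0]
            exact Submodule.smul_mem _ _ hbb
        · by_cases h0 : E3 l = 0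
          · rw [h0, zero_smul]
            exact Submodule.zero_mem _
          · rw [hE3' l h0]
            exact Submodule.smul_mem _ _ (ha_ZR (ν + 1))
      · have h2 : E2 l = 0 := if_neg (by omega)
        have h3 : E3 l = 0 := if_neg (by omega)
        simp only [hu', h2, h3, zero_smul, add_zero]
        exact hu.2 l hl
    have hB : ∀ l, d l ≤ 4 → u' l ∈ BR (4 - d l) (2 ^ (ν + 1)) := by
      intro l hl
      have h0 := K.d_pos l
      have hcases : d l = 1 ∨ d l = 2 ∨ d l = 3 ∨ d l = 4 := by omega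
      rcases hcases with h2 | h2 | h2 | h2
      · have h3 : E2 l = 0 := if_neg (by omega)
        have h4 : E3 l = 0 := if_neg (by omega)
        simp only [hu', h3, h4, zero_smul, add_zero]
        rw [h2]
        exact h1 l h2
      · have h4 : E3 l = 0 := if_neg (by omega)
        simp only [hu', h4, zero_smul, add_zero, hE2e l h2]
        rw [h2]
        exact hε2 l h2
      · have h3 : E2 l = 0 := if_neg (by omega)
        simp only [hu', h3, zero_smul, zero_add, hE3e l h2]
        rw [← hε3 l h2, add_self2]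
        exact Submodule.zero_mem _
      · have h3 : E2 l = 0 := if_neg (by omega)
        have h4 : E3 l = 0 := if_neg (by omega)
        simp only [hu', h3, h4, zero_smul, add_zero]
        rw [hu4 l h2]
        exact Submodule.zero_mem _
    have h2 := Sm_BR K.w_mem hF hB
    rw [hu', Sm_add, Sm_add, Sm_const E2 hE2', Sm_const E3 hE3'] at h2
    have h4 := Submodule.add_mem _ e h2
    rw [comb] at h4
    exact h4
  · intro hs
    -- (B)
    have hBc : ∀ m, d m = 4 → ∑ l, cD l m * E3 l = 0 := by
      intro m hm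
      have h4 := coords_D K (s := 4) (by omega) hx hu e hd (m := m) (k := 1) (by omega)
      have h5 := BR_one hp2 h4
      unfold Df at h5
      rw [dl'_eq (k := 0) (by omega), hu4 m hm, dl_zero, zero_add] at h5
      have h6 : ∑ l, cD l m • u l ^ 2 = (∑ l, cD l m * E3 l) • ha (ν + 1) ^ 2 := by
        rw [Finset.sum_smul]
        refine Finset.sum_congr rfl fun l _ => ?_
        by_cases h0 : cD l m = 0
        · rw [h0, zero_smul, zero_mul, zero_smul]
        · have h7 := K.cD_deg l m h0
          rw [← smul_smul, hε3 l (by omega), smul_sq, hE3e l (by omega)]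
      rw [h6] at h5
      rcases z2 (∑ l, cD l m * E3 l) with h8 | h8
      · exact h8
      · rw [h8, one_smul] at h5
        exact absurd h5 (pow_ne_zero 2 (ha_ne _))
    -- (C)
    have hC : ∀ m, ∑ l, cS l m * E2 l = 0 := by
      intro m
      by_cases hm : d m = 4
      · have h4 := coords_S K (s := 4) (by omega) hx hu e hs (m := m) (k := 2) (by omega)
        unfold Sf at h4
        rw [sg'_eq (k := 0) (by omega), hu4 m hm, sg_zero, zero_add] at h4
        have h5 : ∑ l, cD l m • dl' d 4 u l = 0 := by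
          have h6 : ∑ l, cD l m • dl' d 4 u l = (∑ l, cD l m * E3 l) • δ := by
            rw [Finset.sum_smul]
            refine Finset.sum_congr rfl fun l _ => ?_
            by_cases h0 : cD l m = 0
            · rw [h0, zero_smul, zero_mul, zero_smul]
            · have h7 := K.cD_deg l m h0
              rw [← smul_smul, hdl3 l (by omega)]
          rw [h6, hBc m hm, zero_smul]
        rw [h5, zero_add] at h4
        have h6 : ∑ l, cS l m • u l ^ 2 + (∑ l, cS l m * E2 l) • δ ∈
            BR 2 (2 * 2 ^ (ν + 1)) := by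
          rw [Finset.sum_smul, ← Finset.sum_add_distrib]
          refine Submodule.sum_mem _ fun l _ => ?_
          rw [← smul_smul, ← smul_add]
          by_cases h0 : cS l m = 0
          · rw [h0, zero_smul]
            exact Submodule.zero_mem _
          · have h7 := K.cS_deg l m h0
            exact Submodule.smul_mem _ _ (hsq2 l (by omega))
        exact coef hδn (BR_cancel' h6 h4)
      · refine Finset.sum_eq_zero fun l _ => ?_
        by_cases h0 : cS l m = 0
        · rw [h0, zero_mul]
        · by_cases h0' : E2 l = 0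
          · rw [h0', mul_zero]
          · have h2 := K.cS_deg l m h0
            have h3 := hE2' l h0'
            omega
    have h2 := lin (sgOp 2 M) E2 hE2' K.w_mem cS (fun l hl => by
      have := K.sg_w l (by omega)
      rw [hl] at this
      exact this)
    have h3 : ∑ m, (∑ l, cS l m * E2 l) • w m ^ 2 = 0 :=
      Finset.sum_eq_zero fun m _ => by rw [hC m, zero_smul]
    rw [h3, add_zero] at h2
    exact h2

end

end Pool.Agent.Work.MP_701abf_gt.Sq2.FL
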