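import Pool.Agent.Work.MP_701abf_gt.FL.Stmts

/-!
On the 2-line `Sq^2` is the square: Steenrod's formula is the juxtaposition.
-/

open MvPolynomial
open Pool.Agent.Work.MP_701abf_gt.Stab Pool.Agent.Work.MP_701abf_gt.Cob

namespace Pool.Agent.Work.MP_701abf_gt.Sq2.FL

noncomputable section

namespace XSqTwo

lemma e0 : coface 2 0 = rename (fun v : Fin 2 × ℕ => (v.1.succ, v.2)) := by
  refine algHom_ext fun v => ?_
  unfold coface
  rw [aeval_X, rename_X, if_neg (by omega), if_neg (by omega)]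

lemma e01 : (coface 3 1).comp (coface 2 0) =
    rename (fun v : Fin 2 × ℕ => (Fin.natAdd 2 v.1, v.2)) := by
  rw [e0]
  refine algHom_ext fun v => ?_
  rw [AlgHom.comp_apply, rename_X, rename_X]
  unfold coface
  rw [aeval_X, if_neg (by simp only [Fin.val_succ]; omega),
    if_neg (by simp only [Fin.val_succ]; omega)]
  congr 2
  ext
  simp only [Fin.val_succ, Fin.val_natAdd]
  omega

lemma e3 : coface 2 3 = rename (fun v : Fin 2 × ℕ => (v.1.castSucc, v.2)) := by
  refine algHom_ext fun v => ?_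
  unfold coface
  rw [aeval_X, rename_X, if_pos (by have := v.1.2; omega)]

lemma e34 : (coface 3 4).comp (coface 2 3) =
    rename (fun v : Fin 2 × ℕ => (Fin.castAdd 2 v.1, v.2)) := by
  rw [e3]
  refine algHom_ext fun v => ?_
  rw [AlgHom.comp_apply, rename_X, rename_X]
  unfold coface
  rw [aeval_X, if_pos (by have := v.1.2; simp only [Fin.val_castSucc]; omega)]
  rfl

lemma m01 (p : Cobar 2) :
    miss 2 0 1 p = rename (fun v : Fin 2 × ℕ => (Fin.natAdd 2 v.1, v.2)) p := by
  rw [← e01]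
  rfl

lemma m34 (p : Cobar 2) :
    miss 2 3 4 p = rename (fun v : Fin 2 × ℕ => (Fin.castAdd 2 v.1, v.2)) p := by
  rw [← e34]
  rfl

lemma sum5 (p : Cobar 2) : sqTwo 2 p = miss 2 0 1 p * miss 2 3 4 p := by
  unfold sqTwo
  simp only [Finset.sum_range_succ, Finset.range_zero, Finset.sum_empty, zero_add]
  norm_num

end XSqTwo

/-- SqTwo: on the 2-line Steenrod's formula for `Sq^2` is the juxtaposition. -/
theorem pr_SqTwo : S_SqTwo := by
  intro p
  rw [XSqTwo.sum5, XSqTwo.m01, XSqTwo.m34, mul_comm]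
  rfl

end

end Pool.Agent.Work.MP_701abf_gt.Sq2.FL
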