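import Pool.Agent.Work.MP_701abf_gt.FL.Stmts

/-!
# MP_701abf_gt, block FL, part TwoCh: the conclusion for the chains with two clusters
-/

open MvPolynomial
open Pool.Agent.Work.MP_701abf_gt.Stab Pool.Agent.Work.MP_701abf_gt.Cob

namespace Pool.Agent.Work.MP_701abf_gt.Sq2.FL

namespace XTwoCh

/-- comparison of two cocycles -/
lemma dl_cmp {t : ℤ} {v v' x : RR Empty} (hv : v ∈ ZR 3 t) (hvv : v + v' ∈ BR 3 t)
    (h : dl 3 v + x ^ 2 ∈ BR 4 (2 * t)) : dl 3 v' + x ^ 2 ∈ BR 4 (2 * t) := by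
  have h1 : dl 3 v + dl 3 v' ∈ BR 4 (2 * t) := (dlOp 3 t).congr hv hvv
  have h2 := Submodule.add_mem _ h1 h
  have e : dl 3 v + dl 3 v' + (dl 3 v + x ^ 2) = dl 3 v' + x ^ 2 := by
    calc _ = (dl 3 v + dl 3 v) + (dl 3 v' + x ^ 2) := by abel
      _ = _ := by rw [add_self2, zero_add]
  rwa [e] at h2

/-- the data for two clusters -/
lemma getKF {J L : ℕ} (hK : ∀ (a : ℕ) (N M : ℤ), 0 < M → M < 2 ^ a →
    (2 : ℤ) ^ J ∣ M → 0 < N → (2 : ℤ) ^ (a + L) ∣ N →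
    ∃ (Λ : Type) (_ : Fintype Λ) (d : Λ → ℕ) (w : Λ → RR Empty) (cD cS : Λ → Λ → ZMod 2),
      KF 6 N M d w cD cS ∧
      ((∃ b : ℕ, M = 2 ^ b) → Sg d cD) ∧ ((¬ ∃ b : ℕ, M = 2 ^ b) → ∀ l, d l ≠ 1))
    {b a t M : ℕ} (hb : J ≤ b) (ht : 0 < t) (hM : 0 < M) (hMa : M < 2 ^ a)
    (hd : 2 ^ (a + L) ∣ t) :
    ∃ (Λ : Type) (_ : Fintype Λ) (d : Λ → ℕ) (w : Λ → RR Empty) (cD cS : Λ → Λ → ZMod 2),
      KF 6 ((2 ^ b * t : ℕ) : ℤ) ((2 ^ b * M : ℕ) : ℤ) d w cD cS ∧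
      ((∃ b' : ℕ, ((2 ^ b * M : ℕ) : ℤ) = 2 ^ b') → Sg d cD) ∧
      ((¬ ∃ b' : ℕ, ((2 ^ b * M : ℕ) : ℤ) = 2 ^ b') → ∀ l, d l ≠ 1) := by
  refine hK (a + b) _ _ (by positivity) ?_ ?_ (by positivity) ?_
  · have : 2 ^ b * M < 2 ^ (a + b) := by
      rw [pow_add, mul_comm (2 ^ a)]
      exact Nat.mul_lt_mul_of_pos_left hMa (by positivity)
    exact_mod_cast this
  · have : 2 ^ J ∣ 2 ^ b * M := Dvd.dvd.mul_right (pow_dvd_pow 2 hb) M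
    exact_mod_cast this
  · have : 2 ^ (a + b + L) ∣ 2 ^ b * t := by
      rw [show a + b + L = b + (a + L) by ring, pow_add]
      exact Nat.mul_dvd_mul_left _ hd
    exact_mod_cast this

end XTwoCh

open XTwoCh

theorem pr_TwoCh' : S_Comm → S_LPN → S_LPP → S_LNP → S_TwoCh := by
  intro hC hPN hPP hNP hTP hTI
  obtain ⟨J1, L, hK⟩ := exists_KF 6 (by norm_num)
  obtain ⟨J2, hG⟩ := exists_Gi 6
  refine ⟨J1 + J2 + 1, L, fun b hb L' hL c m t h hcm => ?_⟩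
  have hG' : ∀ x : ℕ, Gi 6 ((2 ^ b * x : ℕ) : ℤ) := by
    intro x
    refine hG _ ?_
    have : 2 ^ J2 ∣ 2 ^ b * x := Dvd.dvd.mul_right (pow_dvd_pow 2 (by omega)) x
    exact_mod_cast this
  -- reduction to `t = t' + M`
  have key : ∃ t' M a : ℕ, t = t' + M ∧ 0 < t' ∧ 0 < M ∧ M < 2 ^ a ∧ 2 ^ (a + L) ∣ t' := by
    cases h with
    | sg a => omega
    | cl t h0 h => omega
    | @addsg c' _ t' a h' hd =>
      exact ⟨t', 2 ^ a, a + 1, rfl, h'.pos, by positivity,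
        Nat.pow_lt_pow_right (by norm_num) (by omega), (pow_dvd_pow 2 (by omega)).trans hd⟩
    | @addcl _ m' t' a M h' h0 hM h2 hd =>
      exact ⟨t', M, a, rfl, h'.pos, h0, hM, (pow_dvd_pow 2 (by omega)).trans hd⟩
  obtain ⟨t', M, a, rfl, ht', hM0, hMa, hd⟩ := key
  obtain ⟨Λ, i1, d, w, cD, cS, K, hsg, hcl⟩ := getKF hK (b := b) (by omega) ht' hM0 hMa hd
  have e : ((2 ^ b * (t' + M) : ℕ) : ℤ) = ((2 ^ b * t' : ℕ) : ℤ) + ((2 ^ b * M : ℕ) : ℤ) := by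
    push_cast
    ring
  have hN0 : (0 : ℤ) < ((2 ^ b * t' : ℕ) : ℤ) := by positivity
  have hM0' : (0 : ℤ) < ((2 ^ b * M : ℕ) : ℤ) := by positivity
  rw [e]
  have hpow : ∀ {a' : ℕ}, ((2 ^ b * 2 ^ a' : ℕ) : ℤ) = 2 ^ (b + a' - 1 + 1) := by
    intro a'
    rw [show b + a' - 1 + 1 = b + a' by omega]
    push_cast
    rw [pow_add]
  by_cases hp1 : ∃ b' : ℕ, t' = 2 ^ b'
  · obtain ⟨a1, rfl⟩ := hp1
    have g1 := hG' (2 ^ a1)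
    rw [hpow] at K g1 ⊢
    by_cases hp2 : ∃ b' : ℕ, M = 2 ^ b'
    · obtain ⟨a2, rfl⟩ := hp2
      have g2 := hG' (2 ^ a2)
      have s1 := hsg ⟨_, hpow⟩
      rw [hpow] at K g2 ⊢
      intro x hx hdx
      rcases hPP Λ d w cD cS 6 _ _ K le_rfl hTP s1 g1 g2 x hx hdx with h1 | h1
      · exact Or.inl h1
      · exact Or.inr (Or.inr (Or.inl ⟨_, _, rfl, h1⟩))
    · have c1 := hcl (not_pow_mul hp2)
      intro x hx hdx
      obtain ⟨z, hz, hz1, hz2⟩ := hPN Λ d w cD cS 6 _ _ K le_rfl hTP c1 x hx hdx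
      have hv := mul_ZR' (show 1 + 2 = 3 by norm_num) (ha_ZR (b + a1 - 1 + 1)) hz
      by_cases hsx : sg 4 x ∈ BR 6 (2 * (2 ^ (b + a1 - 1 + 1) + ((2 ^ b * M : ℕ) : ℤ)))
      · refine Or.inr (Or.inr (Or.inr ⟨_, _, hM0', not_pow_mul hp2, rfl, z, hz, hz2 hsx, ?_⟩))
        have h3 := hC 2 (b + a1 - 1 + 1) ((2 ^ b * M : ℕ) : ℤ) z hz
        rw [add_comm (ha (b + a1 - 1 + 1) * sh 1 z) (z * sh 2 (ha (b + a1 - 1 + 1)))] at h3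
        exact dl_cmp hv h3 hz1
      · exact Or.inr (Or.inl ⟨⟨_, hv, hz1⟩, hsx⟩)
  · by_cases hp2 : ∃ b' : ℕ, M = 2 ^ b'
    · obtain ⟨a2, rfl⟩ := hp2
      have hpow' : ((2 ^ b * 2 ^ a2 : ℕ) : ℤ) = 2 ^ (b + a2) := by
        push_cast
        rw [pow_add]
      have s1 := hsg ⟨_, hpow'⟩
      rw [hpow'] at K ⊢
      intro x hx hdx
      obtain ⟨z, hz, hz1, hz2⟩ := hNP Λ d w cD cS 6 _ _ K le_rfl s1
        (V0_two hN0 (not_pow_mul hp1)) (hTI _ hN0 (not_pow_mul hp1)) x hx hdx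
      have hv := mul_ZR' (show 2 + 1 = 3 by norm_num) hz (ha_ZR (b + a2))
      by_cases hsx : sg 4 x ∈ BR 6 (2 * (((2 ^ b * t' : ℕ) : ℤ) + 2 ^ (b + a2)))
      · exact Or.inr (Or.inr (Or.inr ⟨_, _, hN0, not_pow_mul hp1, add_comm _ _, z, hz,
          hz2 hsx, hz1⟩))
      · exact Or.inr (Or.inl ⟨⟨_, hv, hz1⟩, hsx⟩)
    · have c1 := hcl (not_pow_mul hp2)
      intro x hx hdx
      exact Or.inl (A0_tw K c1 (V0_two hN0 (not_pow_mul hp1)) (hTI _ hN0 (not_pow_mul hp1))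
        (by norm_num) x hx hdx)

end Pool.Agent.Work.MP_701abf_gt.Sq2.FL
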