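import Pool.Agent.Work.MP_701abf_gt.FL.Comm
import Pool.Agent.Work.MP_701abf_gt.FL.SqTwo
import Pool.Agent.Work.MP_701abf_gt.FL.PN
import Pool.Agent.Work.MP_701abf_gt.FL.LPN
import Pool.Agent.Work.MP_701abf_gt.FL.LPP
import Pool.Agent.Work.MP_701abf_gt.FL.LNP
import Pool.Agent.Work.MP_701abf_gt.FL.TwoCh
import Pool.Agent.Work.MP_701abf_gt.FL.Four
import Pool.Agent.Work.MP_701abf_gt.FL.HDefs

/-!
Four-line theorem: assembly.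
-/

open MvPolynomial
open Pool.Agent.Work.MP_701abf_gt.Stab Pool.Agent.Work.MP_701abf_gt.Cob

namespace Pool.Agent.Work.MP_701abf_gt.Sq2.FL

noncomputable section

/-- The four-line theorem from the three facts on the 2-line. -/
theorem four_line (h1 : S_TwoPow) (h2 : S_TwoInj) (h3 : S_TwoSpan) : S_Four :=
  pr_Four' pr_SqTwo (pr_TwoCh' pr_Comm (pr_LPN' pr_PN) (pr_LPP' pr_PN) pr_LNP) h1 h2 h3

open Pool.Agent.Work.MP_701abf_gt.FL in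
/-- The same with the cocycles `hCls a` of the classes `h_a`. -/
theorem four_line' (h : S_Four) : ∃ U J : ℕ, ∀ t : ℕ,
    (∀ a u : ℕ, u ≤ U → t ≠ 2 ^ a * u) → ∀ p ∈ Zc 4 t,
    (∀ j, J ≤ j → p ^ 2 ^ j ∈ Bc 4 (2 ^ j * t)) ∨
    (∀ j, J ≤ j → jux 5 1 (sqOne 4 (p ^ 2 ^ j)) (hCls 0) ∉ Bc 6 (2 ^ (j + 1) * t + 1)) ∨
    (∃ q ∈ Zc 3 (2 ^ J * t), ∀ j,
      p ^ 2 ^ (J + j + 1) + sqOne 3 (q ^ 2 ^ j) ∈ Bc 4 (2 ^ (J + j + 1) * t) ∧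
      (∀ w ∈ Zc 6 (2 ^ (J + j + 1) * t + 1),
        jux 6 1 (sqTwo 4 (p ^ 2 ^ (J + j))) (hCls 1) + jux 6 1 w (hCls 0) ∉
          Bc 7 (2 ^ (J + j + 1) * t + 2)) ∧
      ∀ z ∈ Zc 5 (2 ^ (J + j + 1) * t + 1), ∃ w ∈ Zc 4 (2 ^ (J + j + 1) * t),
        z + jux 4 1 w (hCls 0) ∈ Bc 5 (2 ^ (J + j + 1) * t + 1)) ∨
    (∃ a b : ℕ, 2 ^ (a + 1) + 2 ^ (b + 1) = 2 ^ J * t ∧ ∀ j,
      p ^ 2 ^ (J + j) + jux 2 2 (jux 1 1 (hCls (a + j)) (hCls (a + j)))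
        (jux 1 1 (hCls (b + j)) (hCls (b + j))) ∈ Bc 4 (2 ^ (J + j) * t)) ∨
    ∃ a b c : ℕ, b + 2 ≤ c ∧ 2 ^ a + 2 ^ b + 2 ^ c = 2 ^ J * t ∧ ∀ j,
      p ^ 2 ^ (J + j + 1) + sqOne 3 (jux 2 1 (jux 1 1 (hCls (b + j)) (hCls (c + j)))
        (hCls (a + j))) ∈ Bc 4 (2 ^ (J + j + 1) * t) ∧
      jux 2 2 (jux 1 1 (hCls (b + j)) (hCls (c + j))) (jux 1 1 (hCls (b + j)) (hCls (c + j))) ∈
        Bc 4 (2 ^ (j + 1) * (2 ^ b + 2 ^ c)) := by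
  have e0 : hCls 0 = xi 0 1 := by
    unfold hCls
    rw [pow_zero, pow_one]
  have e1 : hCls 1 = xi 0 1 ^ 2 := by
    unfold hCls
    rw [pow_one]
  rw [e0, e1]
  exact h

end

end Pool.Agent.Work.MP_701abf_gt.Sq2.FL
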