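import Pool.Agent.Work.MP_701abf_gt.FL.TwoStmts

/-!
# MP_701abf_gt: the four-line theorem, item MonA: elements of degree one in the coefficients
-/

open MvPolynomial
open Pool.Agent.Work.MP_701abf_gt.Stab Pool.Agent.Work.MP_701abf_gt.Cob

namespace Pool.Agent.Work.MP_701abf_gt.Sq2.FL

noncomputable section

namespace XMonA

variable {ι : Type}

lemma coeff_prj (G : RR ι) (d : ((ℕ × ℕ) ⊕ (ι × ℕ)) →₀ ℕ) (v : ℕ × ℕ)
    (hd : d (Sum.inl v) ≠ 0) : coeff d (prj 0 G) = 0 := by
  classical
  induction G using MvPolynomial.induction_on' with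
  | monomial e c =>
    by_cases he : ∀ u : ℕ × ℕ, e (Sum.inl u) = 0
    · have h1 : prj 0 (monomial e c) = (monomial e c : RR ι) := by
        rw [monomial_eq, map_mul, Finsupp.prod, map_prod]
        congr 1
        · exact (prj (ι := ι) 0).commutes c
        · refine Finset.prod_congr rfl fun x hx => ?_
          rcases x with x | x
          · exact absurd (he x) (Finsupp.mem_support_iff.1 hx)
          · rw [map_pow, prj_inr]
      rw [h1, coeff_monomial, if_neg]
      rintro rfl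
      exact hd (he v)
    · push Not at he
      obtain ⟨u, hu⟩ := he
      have h1 : prj 0 (monomial e c) = (0 : RR ι) := by
        rw [monomial_eq, map_mul, Finsupp.prod, map_prod]
        have h6 : ∏ x ∈ e.support, prj 0 ((X x : RR ι) ^ e x) = 0 := by
          refine Finset.prod_eq_zero (Finsupp.mem_support_iff.2 hu) ?_
          rw [map_pow, prj_inl_ge (Nat.not_lt_zero _), zero_pow hu]
        rw [h6, mul_zero]
      rw [h1, coeff_zero]
  | add p q hp hq => rw [map_add, coeff_add, hp, hq, add_zero]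

lemma no_inl {F : RR ι} (hF : F ∈ lev ι 1) {d : ((ℕ × ℕ) ⊕ (ι × ℕ)) →₀ ℕ}
    (hd : coeff d F ≠ 0) (v : ℕ × ℕ) : d (Sum.inl v) = 0 := by
  by_contra hv
  apply hd
  rw [← mem_lev_succ.1 hF]
  exact coeff_prj F d v hv

lemma weight_fst (c0 : ℤ × ℤ) (d : ((ℕ × ℕ) ⊕ (ι × ℕ)) →₀ ℕ)
    (hd : ∀ v : ℕ × ℕ, d (Sum.inl v) = 0) :
    (Finsupp.weight (wt (fun _ : ι => c0) (fun _ => 0)) d).1 =
      (d.sum fun _ n => n) • c0 := by
  rw [Finsupp.weight_apply, Finsupp.sum, Finsupp.sum, Prod.fst_sum, Finset.sum_smul]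
  refine Finset.sum_congr rfl fun v hv => ?_
  rcases v with v | v
  · exact absurd (hd v) (Finsupp.mem_support_iff.1 hv)
  · rfl

lemma zmod2 (c : ZMod 2) (h : c ≠ 0) : c = 1 := by
  revert c
  decide

/-- The exponents: one variable. -/
lemma one_var (c0 : ℤ × ℤ) (hc : c0 ≠ 0) (m : ℤ) (F : RR (Option Empty))
    (hF : F ∈ lev (Option Empty) 1)
    (hw : WH (wt (fun _ : Option Empty => c0) (fun _ => 0)) F (c0, m))
    (d : ((ℕ × ℕ) ⊕ (Option Empty × ℕ)) →₀ ℕ) (hd : coeff d F ≠ 0) :
    ∃ i : ℕ, m = 2 ^ i ∧ d = Finsupp.single (Sum.inr (none, i)) 1 := by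
  have h0 := no_inl hF hd
  have h1 := hw hd
  have h2 : (d.sum fun _ n => n) • c0 = c0 := by
    rw [← weight_fst c0 d h0, h1]
  have h3 : (d.sum fun _ n => n) = 1 := by
    have h4 : ((d.sum fun _ n => n : ℕ) : ℤ) • c0 = (1 : ℤ) • c0 := by
      rw [one_smul, natCast_zsmul, h2]
    have h5 := smul_left_injective ℤ hc h4
    exact_mod_cast h5
  obtain ⟨a, ha⟩ := (Finsupp.sum_eq_one_iff d).1 h3
  rcases a with a | ⟨a, i⟩
  · exfalso
    have := h0 a
    rw [ha, Finsupp.single_eq_same] at this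
    exact one_ne_zero this
  · have ha0 : a = none := by
      cases a with
      | none => rfl
      | some e => exact e.elim
    subst ha0
    refine ⟨i, ?_, ha⟩
    have h6 : (Finsupp.weight (wt (fun _ : Option Empty => c0) (fun _ => 0)) d).2 = m := by
      rw [h1]
    rw [ha, Finsupp.weight_apply, Finsupp.sum_single_index (by rw [zero_smul]), one_smul] at h6
    exact h6.symm

end XMonA

open XMonA in
/-- MonA. -/
theorem pr_MonA : S_MonA := by
  intro c0 hc m F hF hw
  by_cases h0 : F = 0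
  · exact Or.inl h0
  right
  obtain ⟨d, hd⟩ := ne_zero_iff.1 h0
  obtain ⟨i, hi, hdi⟩ := one_var c0 hc m F hF hw d hd
  refine ⟨i, hi, ?_⟩
  have h1 : gW none i = (monomial (Finsupp.single (Sum.inr (none, i)) 1) 1 :
      RR (Option Empty)) := rfl
  rw [h1]
  ext e
  rw [coeff_monomial]
  by_cases he : coeff e F = 0
  · rw [he, if_neg]
    intro h
    rw [← hdi] at h
    rw [← h] at he
    exact hd he
  · obtain ⟨j, hj, hej⟩ := one_var c0 hc m F hF hw e he
    have hij : i = j := by
      have h2 : (2 : ℤ) ^ i = 2 ^ j := by rw [← hi, hj]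
      have h3 : (2 : ℕ) ^ i = 2 ^ j := by exact_mod_cast h2
      exact Nat.pow_right_injective le_rfl h3
    subst hij
    rw [if_pos hej.symm]
    exact zmod2 _ he

end

end Pool.Agent.Work.MP_701abf_gt.Sq2.FL
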