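import Pool.Agent.Work.MP_701abf_gt.FL.TwoStmts

/-!
# MP_701abf_gt: the four-line theorem, part `SpanR`
-/

open MvPolynomial
open Pool.Agent.Work.MP_701abf_gt.Stab Pool.Agent.Work.MP_701abf_gt.Cob

namespace Pool.Agent.Work.MP_701abf_gt.Sq2.FL

noncomputable section

namespace XSpanR

lemma ha_sq2 (a : ℕ) : ha a ^ 2 = ha (a + 1) := by
  unfold ha
  rw [← pow_mul, pow_succ]

lemma step (hSur : S_Sur) (hDegB : S_DegB)
    (hOdd : ∀ M : ℤ, ∀ x ∈ ZR 2 (2 * M - 1), x ∈ BR 2 (2 * M - 1) ∨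
      ∃ b : ℕ, 2 ≤ b ∧ 2 * M - 1 = 1 + 2 ^ b ∧ x + ha b * sh 1 (ha 0) ∈ BR 2 (2 * M - 1)) :
    ∀ n : ℕ, ∀ T : ℤ, 0 < T → T.toNat ≤ n → ∀ x ∈ ZR 2 T, x ∈ BR 2 T ∨
      ∃ a b : ℕ, (a = b ∨ a + 2 ≤ b) ∧ T = 2 ^ a + 2 ^ b ∧
        x + ha b * sh 1 (ha a) ∈ BR 2 T := by
  intro n
  induction n with
  | zero =>
    intro T hT hn
    omega
  | succ n ih =>
    intro T hT hn x hx
    rcases Int.even_or_odd' T with ⟨N, hN | hN⟩
    · subst hN
      by_cases hN1 : N = 1
      · subst hN1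
        rcases hDegB x hx with h | h
        · exact Or.inl h
        · exact Or.inr ⟨0, 0, Or.inl rfl, by norm_num, h⟩
      · have hN2 : 1 < N := by omega
        obtain ⟨h1, h2, h3⟩ := hx
        obtain ⟨y, hy1, hy2, hy3, G, hG1, hG2, hxe⟩ := hSur.1 N hN2 x h1 h2 h3
        have hG : dE 2 G ∈ BR 2 (2 * N) := ⟨G, hG1, hG2, rfl⟩
        have hyZ : y ∈ ZR 2 N := ⟨hy1, hy2, hy3⟩
        rcases ih N (by omega) (by omega) y hyZ with h | ⟨a, b, hab, hNab, h⟩
        · left
          rw [hxe]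
          exact Submodule.add_mem _ (sq_BR h) hG
        · right
          refine ⟨a + 1, b + 1, ?_, ?_, ?_⟩
          · rcases hab with h' | h'
            · exact Or.inl (by omega)
            · exact Or.inr (by omega)
          · rw [hNab, pow_succ, pow_succ]
            ring
          · have h4 := sq_BR h
            rw [sq_add, mul_pow, ← map_pow, ha_sq2, ha_sq2] at h4
            have h5 := Submodule.add_mem _ h4 hG
            rw [hxe]
            have h6 : y ^ 2 + dE 2 G + ha (b + 1) * sh 1 (ha (a + 1)) =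
                y ^ 2 + ha (b + 1) * sh 1 (ha (a + 1)) + dE 2 G := by ring
            rw [h6]
            exact h5
    · have hT' : T = 2 * (N + 1) - 1 := by omega
      rw [hT'] at hx ⊢
      rcases hOdd (N + 1) x hx with h | ⟨b, hb, hTb, h⟩
      · exact Or.inl h
      · exact Or.inr ⟨0, b, Or.inr (by omega), by rw [hTb]; norm_num, h⟩

end XSpanR

theorem pr_SpanR : S_SpanR := by
  intro hSur hDegB hOdd T hT x hx
  exact XSpanR.step hSur hDegB hOdd T.toNat T hT le_rfl x hx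

end

end Pool.Agent.Work.MP_701abf_gt.Sq2.FL
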