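import Pool.Agent.Work.MP_701abf_gt.FL.TwoStmts

/-!
# MP_701abf_gt, the four-line theorem, item SymH: the symbol of `h_0 h_(d+1)`
-/

open MvPolynomial
open Pool.Agent.Work.MP_701abf_gt.Stab Pool.Agent.Work.MP_701abf_gt.Cob

namespace Pool.Agent.Work.MP_701abf_gt.Sq2.FL

noncomputable section

namespace XSymH

/-- The coordinate number one of a product of two points. -/
lemma co_one_mul {S : Type*} [CommRing S] [Algebra (ZMod 2) S] (a b : Pt S) :
    (a * b).co 1 = a.co 1 + b.co 1 := by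
  rw [Pt.co_mul, Finset.Nat.sum_antidiagonal_eq_sum_range_succ_mk]
  simp only [Finset.sum_range_succ, Finset.sum_range_zero, Pt.co_zero]
  norm_num
  ring

lemma act_zero_idx {S : Type*} [CommRing S] (τ : ℕ) (g : Pt S) (w : ℕ → S) :
    act τ g w 0 = w 0 := by
  rw [act_apply]
  simp

lemma face_g0 (j : ℕ) : face (fun _ : Option Empty => 0) j (X (Sum.inl (0, 0))) =
    (fg j (gG (ι := Option Empty)) 0).co 1 := face_inl _ _ _ _

lemma face_w0 (j : ℕ) : face (fun _ : Option Empty => 0) j (gW none 0) =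
    (gW none 0 : RR (Option Empty)) := by
  have h : face (fun _ : Option Empty => 0) j (gW none 0) =
    fw (fun _ : Option Empty => 0) j gG gW none 0 := face_inr _ _ _
  rw [h]
  cases j with
  | zero => exact act_zero_idx _ _ _
  | succ j => rfl

lemma fQ_g (j : ℕ) : faceQ j (X (Sum.inl (0, 0)) : RQ Empty) = (fg j (gQ (ι := Empty)) 0).co 1 := by
  unfold faceQ
  rw [evQ_g]

lemma fQ_w0 : faceQ 0 (X (Sum.inr (Sum.inr (none, 0))) : RQ Empty) =
    X (Sum.inr (Sum.inl (0, 0))) + X (Sum.inr (Sum.inr (none, 0))) := by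
  unfold faceQ
  rw [evQ_w]
  change tQ 0 0 + act 1 (gQ 0) (wQ none) 0 = _
  rw [act_zero_idx]
  rfl

lemma fQ_w (j : ℕ) : faceQ (j + 1) (X (Sum.inr (Sum.inr (none, 0))) : RQ Empty) =
    X (Sum.inr (Sum.inr (none, 0))) := by
  unfold faceQ
  rw [evQ_w]
  rfl

lemma eqx (d : ℕ) : EQ (ha 0 * sh 1 (ha (d + 1))) =
    (X (Sum.inl (0, 0)) * X (Sum.inl (1, 0)) ^ 2 ^ (d + 1) : RQ Empty) := by
  have h1 : EQ (h0c) = (X (Sum.inl (0, 0)) : RQ Empty) := by
    unfold EQ h0c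
    rw [ev_inl]
    rfl
  have h2 : EQ (sh 1 h0c) = (X (Sum.inl (1, 0)) : RQ Empty) := by
    unfold h0c
    rw [sh_inl]
    unfold EQ
    rw [ev_inl]
    rfl
  unfold ha
  rw [map_mul, map_pow, map_pow, map_pow, h1, h2, pow_zero, pow_one]

lemma dqx (d : ℕ) : DQ (EQ (ha 0 * sh 1 (ha (d + 1)))) =
    (X (Sum.inl (1, 0)) ^ 2 ^ (d + 1) * X (Sum.inr (Sum.inl (0, 0))) : RQ Empty) := by
  rw [eqx, Derivation.leibniz, der_pow2, smul_zero, zero_add, smul_eq_mul, DQ_g]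

lemma tqy (d : ℕ) : TQ (X (Sum.inl (0, 0)) ^ 2 ^ d * gW none 0 : RR (Option Empty)) =
    (X (Sum.inl (0, 0)) ^ 2 ^ (d + 1) * X (Sum.inr (Sum.inr (none, 0))) : RQ Empty) := by
  have h : TQ (gW none 0 : RR (Option Empty)) = (X (Sum.inr (Sum.inr (none, 0))) : RQ Empty) :=
    TQ_w _
  rw [map_mul, map_pow, TQ_g, h, ← pow_mul, pow_succ, mul_comm 2]

lemma sym (d : ℕ) :
    Sym (ha 0 * sh 1 (ha (d + 1))) (X (Sum.inl (0, 0)) ^ 2 ^ d * gW none 0) := by
  unfold Sym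
  rw [dqx, tqy, dQ_apply]
  simp only [Finset.sum_range_succ, Finset.sum_range_zero, zero_add, map_mul, map_pow]
  have e0 : faceQ 0 (X (Sum.inl (0, 0)) : RQ Empty) = X (Sum.inl (1, 0)) := fQ_g 0
  have e1 : faceQ 1 (X (Sum.inl (0, 0)) : RQ Empty) =
      X (Sum.inl (1, 0)) + X (Sum.inl (0, 0)) := by
    rw [fQ_g]
    change (gQ (ι := Empty) 1 * gQ 0).co 1 = _
    rw [co_one_mul]
    rfl
  have e2 : faceQ 2 (X (Sum.inl (0, 0)) : RQ Empty) = X (Sum.inl (0, 0)) := fQ_g 2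
  rw [e0, e1, e2, fQ_w0, fQ_w 0, fQ_w 1, add_pow']
  have h2 : (2 : RQ Empty) = 0 := two_zero
  linear_combination (-(X (Sum.inl (1, 0)) ^ 2 ^ (d + 1) * X (Sum.inr (Sum.inr (none, 0)))) -
    X (Sum.inl (0, 0)) ^ 2 ^ (d + 1) * X (Sum.inr (Sum.inr (none, 0))) : RQ Empty) * h2

lemma mem (d : ℕ) :
    (X (Sum.inl (0, 0)) ^ 2 ^ d * gW none 0 : RR (Option Empty)) ∈ CW 1 2 (2 ^ d + 1) := by
  constructor
  · change _ ∈ lev (Option Empty) (1 + 1)
    rw [mem_lev_succ, map_mul, map_pow, prj_inl_lt (by simp), prj_gW]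
  · change WH _ _ _
    have h1 := (isWeightedHomogeneous_X (ZMod 2) (wt cO (fun _ : Option Empty => 0))
      (Sum.inl (0, 0))).pow (2 ^ d)
    have h2 := wh_gW cO (fun _ : Option Empty => 0) none 0
    have h := h1.mul h2
    have e : 2 ^ d • wt cO (fun _ : Option Empty => 0) (Sum.inl (0, 0)) +
        (cO (none : Option Empty), (2 : ℤ) ^ (0 + 0)) = ((0, 1), 2 ^ d + 1) := by
      change 2 ^ d • ((0 : ℤ × ℤ), (2 : ℤ) ^ (0 + 1) - 1) +
        (((0 : ℤ), (1 : ℤ)), (2 : ℤ) ^ (0 + 0)) = ((0, 1), 2 ^ d + 1)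
      rw [Prod.smul_mk, smul_zero, Prod.mk_add_mk, zero_add, nsmul_eq_mul]
      push_cast
      norm_num
    rw [e] at h
    exact h

lemma cocyc (d : ℕ) :
    dc 2 (X (Sum.inl (0, 0)) ^ 2 ^ d * gW none 0 : RR (Option Empty)) = 0 := by
  unfold dc
  rw [dR_apply]
  simp only [Finset.sum_range_succ, Finset.sum_range_zero, zero_add, map_mul, map_pow]
  have e0 : face (fun _ : Option Empty => 0) 0 (X (Sum.inl (0, 0))) = X (Sum.inl (1, 0)) :=
    face_g0 0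
  have e1 : face (fun _ : Option Empty => 0) 1 (X (Sum.inl (0, 0))) =
      X (Sum.inl (1, 0)) + X (Sum.inl (0, 0)) := by
    rw [face_g0]
    change (gG (ι := Option Empty) 1 * gG 0).co 1 = _
    rw [co_one_mul]
    rfl
  have e2 : face (fun _ : Option Empty => 0) 2 (X (Sum.inl (0, 0))) = X (Sum.inl (0, 0)) :=
    face_g0 2
  rw [e0, e1, e2, face_w0, face_w0, face_w0, add_pow']
  have h2 : (2 : RR (Option Empty)) = 0 := two_zero
  linear_combination (X (Sum.inl (1, 0)) ^ 2 ^ d * gW none 0 +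
    X (Sum.inl (0, 0)) ^ 2 ^ d * gW none 0 : RR (Option Empty)) * h2

end XSymH

theorem pr_SymH : S_SymH := fun d => ⟨XSymH.sym d, XSymH.mem d, XSymH.cocyc d⟩

end

end Pool.Agent.Work.MP_701abf_gt.Sq2.FL
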