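import Pool.Agent.Work.MP_701abf_gt.FL.Defs

/-!
Four-line theorem, the 2-line: definitions.

`RR (Option Empty)` is the ring of cochains with coefficients in the symmetric algebra of the
standard comodule `W`: group variables `X (Sum.inl (a, n))` (the function `ξ_(n+1)` of the slot
`a`) and coefficients `gW none i = X (Sum.inr (none, i)) = w_i`. The mixed ring `RQ Empty`, its two
differentials `dQ` and `DQ`, and the maps `EQ`, `TQ`, are those of `Stab/Hsd.lean` (structure
`hs Empty 0 m`).
-/

open MvPolynomial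
open Pool.Agent.Work.MP_701abf_gt.Stab Pool.Agent.Work.MP_701abf_gt.Cob

namespace Pool.Agent.Work.MP_701abf_gt.Sq2.FL

noncomputable section

/-- Cochains with `n - 1` factors, coefficients in the `q`-th symmetric power of `W`, weight
`m`. -/
def CW (q : ℤ) (n : ℕ) (m : ℤ) : Submodule (ZMod 2) (RR (Option Empty)) :=
  lev (Option Empty) n ⊓
    weightedHomogeneousSubmodule (ZMod 2) (wt cO (fun _ : Option Empty => 0)) ((0, q), m)

/-- The differential of cochains with coefficients. -/
abbrev dc (n : ℕ) : RR (Option Empty) →ₗ[ZMod 2] RR (Option Empty) :=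
  dR (fun _ : Option Empty => 0) n

/-- `y` (a 1-cochain with values in `W`) is the symbol of the 2-cochain `x`: `D x = δ (T y)` in
the mixed complex. -/
def Sym (x : RR Empty) (y : RR (Option Empty)) : Prop := DQ (EQ x) = dQ 2 (TQ y)

/-- The coefficients of a 1-cocycle `∑ f_i w_i` of weight `M` with values in `W`. -/
structure Cf (M : ℤ) (r : ℕ) (f : ℕ → RR Empty) : Prop where
  lv : ∀ i, f i ∈ lev Empty 2
  wh : ∀ i, WH wE (f i) (0, M - 2 ^ i)
  hi : ∀ i, r ≤ i → f i = 0
  dd : ∀ j, dE 2 (f j) = ∑ i ∈ Finset.range r,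
    if j < i then (gG (ι := Empty) 0).co (i - j) ^ 2 ^ j * sh 1 (f i) else 0

/-- The coefficients of the coboundary of `w_b`. -/
def cw (b i : ℕ) : RR Empty := if i < b then (gG (ι := Empty) 0).co (b - i) ^ 2 ^ i else 0

end

end Pool.Agent.Work.MP_701abf_gt.Sq2.FL
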