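import Pool.Agent.Work.MP_701abf_gt.FL.TwoDefs

/-!
# MP_701abf_gt: the four-line theorem, the parts on the 2-line

Every part is a proposition `S_X`; a file `FL/X.lean` proves `theorem pr_X : S_X`. Notions:
`FL/Defs.lean`, `FL/TwoDefs.lean`. The library: `Stab/Ring.lean` (`RR`, `ev`, `face`, `dR`, `lev`,
`wt`, `ev_face_apply`), `Stab/HS.lean` (the structure `HSD`, its lemmas `key`, `edge`),
`Stab/RingQ.lean`, `Stab/Hsd.lean` (the mixed ring, `hs`), `Stab/Rec.lean` (`EQ`, `jO`, `rO`,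
`wtT_iff`, `exC_of`, `edge_surj`, `edge_inj`), `Stab/Kun.lean` (`Surj0`, `Inj0`, and the proof of
`stability`, the model for `S_Sur`), `Sq2/RZ.lean` (`ZR`, `BR`, `dl`, the operations), `Sq2/Op.lean`
(`ha`, `ZR_one`, `ZR_one'`, `dl_ha`, `dl_one`, `x2c_d`, `h0c_cube_d`, `pow_BR`, `IsOp.congr`),
`Cob/ExtOne.lean` (the point `dl m c : Pt S` with one nonzero coordinate; as `Sq2.dl` is an
operation, write `Cob.dl`).
-/

open MvPolynomial
open Pool.Agent.Work.MP_701abf_gt.Stab Pool.Agent.Work.MP_701abf_gt.Cob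

namespace Pool.Agent.Work.MP_701abf_gt.Sq2.FL

noncomputable section

/-- Elements of degree one in the coefficients, without group variables.

Proof. As `prj 0 F = F`, the variables `inl` do not occur in `F` (apply `prj 0` to the expansion of
`F`, or compare coefficients: a monomial `d` with `d (inl v) ≠ 0` is killed by `prj 0`, and `prj 0`
is the identity on the other monomials). Every variable is `inl v` or `inr (none, i)`. Let
`coeff d F ≠ 0`. The weight of `d` is `(n • c0, ∑ d_i 2 ^ i)` with `n = ∑ d_i`; so `n • c0 = c0`,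
`n = 1` as `c0 ≠ 0`, `d` is one variable `inr (none, i)` and `2 ^ i = m`. So `i` is the same for
all `d` in the support, which has at most one element; the coefficient is `1` in `F_2`. -/
def S_MonA : Prop := ∀ (c0 : ℤ × ℤ), c0 ≠ 0 → ∀ (m : ℤ), ∀ F ∈ lev (Option Empty) 1,
  WH (wt (fun _ : Option Empty => c0) (fun _ => 0)) F (c0, m) →
  F = 0 ∨ ∃ i : ℕ, m = 2 ^ i ∧ F = gW none i

/-- Elements of degree two in the coefficients, without group variables.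

Proof. As `S_MonA`: now `n = 2`, so `d` is the sum of two variables `inr (none, i)`,
`inr (none, j)`, `i ≤ j`, with `2 ^ i + 2 ^ j = m`, and this determines the pair `(i, j)`: if
`2 ^ i + 2 ^ j = 2 ^ i' + 2 ^ j'` with `i ≤ j`, `i' ≤ j'`, then `j = j'` or, say, `j < j'` and
`2 ^ i + 2 ^ j ≤ 2 ^ (j + 1) ≤ 2 ^ j' < 2 ^ i' + 2 ^ j'`. -/
def S_MonB : Prop := ∀ (c0 : ℤ × ℤ), c0 ≠ 0 → ∀ (m : ℤ), ∀ F ∈ lev (Option Empty) 1,
  WH (wt (fun _ : Option Empty => c0) (fun _ => 0)) F (c0 + c0, m) →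
  F = 0 ∨ ∃ i j : ℕ, i ≤ j ∧ m = 2 ^ i + 2 ^ j ∧ F = gW none i * gW none j

/-- The invariants of the symmetric square of `W` are `0` except in weight 2.

Proof. By `S_MonB`, if `F ≠ 0` then `F = w_i w_j`, `i ≤ j`, `m = 2 ^ i + 2 ^ j`, and `j ≥ 1` as
`m ≠ 2`. Evaluate `dR 1 F = face 0 F + face 1 F = 0` with `ev (fun _ => Cob.dl 1 1) (fun _ => w)` in
`ZMod 2`, where `w k = 1` if `k = j - 1`, or if `k = i` and `i < j`, and `w k = 0` otherwise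
(`ev_face_apply`; the action of the point `dl 1 1` is `w'_0 = w_0`, `w'_(n+1) = w_(n+1) + w_n`):
`w'_i w'_j + w_i w_j = 0`. If `i < j`: `w_j = 0`, `w'_j = w_j + w_(j-1) = 1` and `w'_i = w_i = 1`
plus `w_(i-1) = 0` (if `i ≥ 1`; `i - 1` is neither `i` nor `j - 1`), so the sum is `1`. If `i = j`:
`w_j = 0`, `w'_j = 1`, the sum is `1`. Contradiction. -/
def S_Inv : Prop := ∀ (c0 : ℤ × ℤ), c0 ≠ 0 → ∀ (m : ℤ), m ≠ 2 → ∀ F ∈ lev (Option Empty) 1,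
  WH (wt (fun _ : Option Empty => c0) (fun _ => 0)) F (c0 + c0, m) →
  dR (fun _ : Option Empty => 0) 1 F = 0 → F = 0

/-- `Sq^0` is onto `Ext^{2, 2 N}` for `N > 1`, injective on `Ext^{3, N}` for `N > 1`, and injective
on `Ext^{2, N}`.

Proof. As `stability` (`Stab/Kun.lean`): `edge_surj` with `p = 2`, `edge_inj` with `p = 3` and
`p = 2`, `k = 0`, `m = 2 N`, `m' = N`. The hypothesis for `q = 1` is vacuous (`2 m' - 1 = 2 N` is
impossible); for `q = 2` we have `m' = N + 1 ≠ 2` and exactness in degree `0` (that is `2 - 2` or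
`3 - 1 - 2`) is `S_Inv` with `c0 = (1, 0)` (the bounding cochain is `0`). -/
def S_Sur : Prop := (∀ N : ℤ, 1 < N → Surj0 2 N) ∧ (∀ N : ℤ, 1 < N → Inj0 3 N) ∧
  ∀ N : ℤ, Inj0 2 N

/-- Existence of the symbol in odd degrees.

Proof. Work in `S = hs Empty 0 (2 M - 1)` (`T = 2 M - 1`). `X = EQ x` is in `S.gr 0 3` and
`dQ 3 X = 0` (`EQ_lev`, `EQ_gr`, `EQ_d`; for `ι = Empty` all weights and differentials of `RR Empty`
agree: `wE_eq`, `dE_eq`). `DQ X` is in `gr 1 3` and killed by `δ`; by `col` `DQ X = δ x1` with `x1`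
in `gr 1 2`. `δ (D x1) = D (D X) = 0`, so `D x1 = δ x2` with `x2` in `gr 2 1` (`col`). By `key`
(`n = 1`, `q = 2`, `w = x1`) `x2 = D h + δ h'` with `h` in `gr 1 1` and `h'` in `gr 2 0`, so `h' = 0`;
its hypothesis `ExC 2 0` holds since `grC 2 _ = 0`: the weight `((0, 2), 2 M - 1)` is not in the
image of `fT` (`exC_of` with `2 m' - 2 = 2 M - 1` impossible). So `D (x1 + δ h) = 0`, and by `poin`
`x1 + δ h = T y + D v`, `y` in `grC 1 2`, `v` in `gr 0 2`. Then `D X = δ x1 = δ (x1 + δ h) =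
δ (T y) + D (δ v)`, i.e. `D (X + δ v) = δ (T y)`. Take `G = EQ' v`: `v` has degree `q = 0`, so
`v = EQ (EQ' v)` (`v` involves only group variables: `hom_congr_wt` as in `jO_rO`). By `comp`,
`δ (T y) = T (dC y) + D v2`, so `T (dC y) = D (X + δ v + v2)` and `dC y = 0` by `inj`. The weight of
`y`: `wtT_iff` with `fT ((0, 1), M) = ((0, 1), 2 M - 1)`. -/
def S_SymEx : Prop := ∀ M : ℤ, ∀ x ∈ ZR 2 (2 * M - 1), ∃ G ∈ lev Empty 2,
  WH wE G (0, 2 * M - 1) ∧ ∃ y ∈ CW 1 2 M, dc 2 y = 0 ∧ Sym (x + dE 2 G) y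

/-- A class in odd degree vanishes if and only if its symbol is a coboundary.

Proof. `S = hs Empty 0 (2 M - 1)`, `X = EQ x`. (→) If `x = dE 2 E`, apply `HSD.edge` with `n = 1`
(its hypothesis on `ExC` is vacuous), `z = y`, `κ = X`, `E = EQ E`. (←) If `y = dC e` with `e` in
`grC 1 1`: by `comp`, `δ (T e) = T (dC e) + D v = T y + D v` with `v` in `gr 0 2`. So
`D X = δ (T y) = δ (δ (T e)) + δ (D v) = D (δ v)` and `D (X + δ v) = 0`; by `poin`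
`X + δ v = T y0 + D v'` with `y0` in `grC 0 3` and `v'` in `gr (-1) 3 = 0`; and `y0 = 0` because
the weight `((0, 0), 2 M - 1)` is not in the image of `fT` (`wtT_none`). So `X = δ v`, and
`x = EQ' X = dE 2 (EQ' v)` (`EQ'_EQ`, `EQ'_d`, `EQ'_lev`, `EQ'_gr`). -/
def S_SymCob : Prop := ∀ M : ℤ, ∀ x ∈ ZR 2 (2 * M - 1), ∀ y ∈ CW 1 2 M, Sym x y →
  (x ∈ BR 2 (2 * M - 1) ↔ ∃ e ∈ CW 1 1 M, dc 1 e = y)

/-- The basic identity in the mixed complex.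

Proof. Let `a j = faceQ j F`, `a' j = faceQ j (DQ F) = DQ (a j)` (`DQ_face`). `DQ (pr a (n + 1)) =
∑ over i < j ≤ n, i ≡ j mod 2, of a' i * a j + a i * a' j`, and
`dQ n (F * DQ F) = ∑ j ≤ n, a j * a' j` (the faces are ring maps). The sum of the two is
`par a 0 * par a' 0 + par a 1 * par a' 1` (induction on the number of terms with `pr_succ`,
`par_succ`; here `par a e = par a e (n + 1)`). As `∑ a j = dQ n F = 0`, `par a 0 = par a 1`; as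
`∑ a' j = DQ (dQ n F) = 0`, `par a' 0 = par a' 1`. So the sum is `0`. -/
def S_DPr : Prop := ∀ (n : ℕ) (F : RQ Empty), dQ n F = 0 →
  DQ (pr (fun j => faceQ j F) (n + 1)) = dQ n (F * DQ F)

/-- If `Sq^1 x = 0` in odd degree then the square of the symbol is a coboundary.

Proof. `S = hs Empty 0 (2 (2 M - 1))`, `X = EQ x`, `Z = TQ y`, so `D X = δ_2 Z`, `D Z = 0`. Let
`dl 2 x = dE 3 E0` and `E = EQ E0` in `gr 0 3`. `EQ (dl 2 x) = pr (fun j => faceQ j X) 4` (`dl`,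
`sq1`, `EQ_face`, the twists are irrelevant for `Empty`), so by `S_DPr` (`n = 3`)
`δ_3 (D E) = D (δ_3 E) = δ_3 (X * D X)`. `D E + X * D X` is in `gr 1 3` (weights add); by `col` it is
`δ_2 h` with `h` in `gr 1 2`. Apply `D`: `δ_2 (D h) = D (X * D X) = (D X)^2 = (δ_2 Z)^2 =
δ_2 (Z^2)` (`D D X = 0`; `dQ` commutes with squares as it is a sum of ring maps). So
`D h + Z^2 = δ_1 k` with `k` in `gr 2 1` (`col`). Apply `D`: `δ_1 (D k) = D (Z^2) = 0`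
(`Z^2 = TQ (y^2)`, `DQ_TQ`), so `D k` is `δ_0` of an element of `gr 3 0 = 0` (`col` with `q = 3`,
`n = 0`), i.e. `D k = 0`. By `poin`, `k = T e + D v`, `e` in `grC 2 1`, `v` in `gr 1 1`; by `comp`
`δ_1 (T e) = T (dC e) + D v2`. So `T (y^2 + dC e) = D (h + v2 + δ_1 v)` and `y^2 = dC e` by `inj`.
The weight of `e`: `wtT_iff` with `fT ((0, 2), 2 M) = ((0, 2), 2 (2 M - 1))`. -/
def S_SqSym : Prop := S_DPr → ∀ M : ℤ, ∀ x ∈ ZR 2 (2 * M - 1), ∀ y ∈ CW 1 2 M, Sym x y →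
  dl 2 x ∈ BR 3 (2 * (2 * M - 1)) → ∃ e ∈ CW 2 1 (2 * M), dc 1 e = y ^ 2

/-- If the square of a 1-cochain with values in `W` is a coboundary, so is the cochain.

Proof. By `S_MonB` (`c0 = (0, 1)`; `cO` is constant on `Option Empty`) `e = 0` or `e = w_i w_j`,
`i ≤ j`, `2 M = 2 ^ i + 2 ^ j`. If `e = 0` then `y = 0`. If `i = j`, then `e = w_i ^ 2`,
`(dc 1 w_i) ^ 2 = dc 1 e = y ^ 2`, so `y = dc 1 w_i` (squaring is injective: the ring is a domain of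
characteristic two), `M = 2 ^ i`. If `i < j`, then `i ≥ 1` by parity, and
`y ^ 2 = act(g_0) w_i * act(g_0) w_j + w_i * w_j`. Apply `pderiv (Sum.inr (none, j))`: the left
side gives `0`; `act(g_0) w_i` and `w_i` do not involve `w_j`, and the derivative of
`act(g_0) w_j` is `1`; so `act(g_0) w_i + w_i = 0`. Evaluate with
`ev (fun _ => Cob.dl 1 1) (fun _ k => if k = i - 1 then 1 else 0)` in `ZMod 2`: `1 = 0`.
Contradiction. -/
def S_SqCob : Prop := S_MonB → ∀ M : ℤ, ∀ y ∈ CW 1 2 M, ∀ e ∈ CW 2 1 (2 * M), dc 1 e = y ^ 2 →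
  ∃ e' ∈ CW 1 1 M, dc 1 e' = y

/-- `Sq^1` is injective on the 2-line in odd degrees.

Proof. Take `G`, `y` from `S_SymEx`, `x' = x + dE 2 G`; `dl 2 x'` is in `BR` with `dl 2 x`
(`(dlOp 2 _).congr`). By `S_SqSym` and `S_SqCob` `y` is a coboundary, by `S_SymCob` `x'` is in
`BR`, so `x` is. -/
def S_InjOdd : Prop := S_DPr → S_MonB → S_SymEx → S_SymCob → S_SqSym → S_SqCob →
  ∀ M : ℤ, A0 2 (2 * M - 1)

/-- The symbol of `h_0 h_(d+1)` is `h_d w_0`.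

Proof. Let `g_a = X (inl (a, 0))` and `q = 2 ^ d`. `EQ (ha 0 * sh 1 (ha (d + 1))) =
g_0 * g_1 ^ (2 q)`, and `DQ` of it is `t_0 * g_1 ^ (2 q)` with `t_0 = tQ 0 0` (`der_pow2`-like: the
derivation kills even powers; `DQ_g`). `TQ y = g_0 ^ (2 q) * wQ none 0`, and `dQ 2` of it is the sum
of the faces: `face 0`: `g_1 ^ (2 q) * (t_0 + wQ none 0)` (`fo`, `act 1 (g 0) w 0 = w 0`);
`face 1`: `(g_0 + g_1) ^ (2 q) * wQ none 0` (`(gQ 1 * gQ 0).co 1 = gQ 1 .co 1 + gQ 0 .co 1`);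
`face 2`: `g_0 ^ (2 q) * wQ none 0`; the sum is `g_1 ^ (2 q) * t_0`, as
`(g_0 + g_1) ^ (2 q) = g_0 ^ (2 q) + g_1 ^ (2 q)`. Weight: `2 ^ d * 1 + 1`. `dc 2 y = 0`: in the
same way, or `dR` of `g_0 ^ q` is `0` and `w_0` is invariant. -/
def S_SymH : Prop := ∀ d : ℕ,
  Sym (ha 0 * sh 1 (ha (d + 1))) (X (Sum.inl (0, 0)) ^ 2 ^ d * gW none 0) ∧
  (X (Sum.inl (0, 0)) ^ 2 ^ d * gW none 0 : RR (Option Empty)) ∈ CW 1 2 (2 ^ d + 1) ∧
  dc 2 (X (Sum.inl (0, 0)) ^ 2 ^ d * gW none 0 : RR (Option Empty)) = 0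

/-- Products of two classes of the 1-line commute.

Proof. This is `S_Comm` with `s = 1`; directly: for `G = ha a * ha b` in `lev 2` of weight
`2 ^ a + 2 ^ b` and `A = h0c`, `B = sh 1 h0c`,
`dE 2 G = B ^ (2^a + 2^b) + (A + B) ^ (2^a + 2^b) + A ^ (2^a + 2^b) =
A ^ 2^a * B ^ 2^b + A ^ 2^b * B ^ 2^a`. -/
def S_ComO : Prop := ∀ a b : ℕ,
  ha a * sh 1 (ha b) + ha b * sh 1 (ha a) ∈ BR 2 (2 ^ a + 2 ^ b)

/-- `h_a h_b` is not zero unless `a = b + 1` or `b = a + 1`.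

Proof. By `S_ComO` we may assume `a ≤ b`. If `a = b` this is `dl_ha` with `dl_one`. Let
`b = a + c`, `c ≥ 2` (`c = 1` is allowed). First `a = 0`: with `c = d + 1`, `d ≥ 1`, by `S_SymH` and
`S_SymCob` (`M = 2 ^ d + 1`) there is `e` in `CW 1 1 (2 ^ d + 1)` with
`dc 1 e = X (inl (0, 0)) ^ 2 ^ d * gW none 0`; by `S_MonA` (`c0 = (0, 1)`) `e = 0` or
`2 ^ d + 1 = 2 ^ i`, impossible for `d ≥ 1`; so `e = 0` and the product would be `0`,
contradiction. For general `a`: `ha a * sh 1 (ha (a + c)) = (ha 0 * sh 1 (ha c)) ^ 2 ^ a`, and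
`Inj0 2` (`S_Sur`), applied `a` times, gives `ha 0 * sh 1 (ha c)` in `BR`. -/
def S_Nv : Prop := S_MonA → S_Sur → S_SymCob → S_SymH → S_ComO → ∀ a b : ℕ,
  ha a * sh 1 (ha b) ∈ BR 2 (2 ^ a + 2 ^ b) → a = b + 1 ∨ b = a + 1

/-- Coefficients of a 1-cocycle with values in `W`.

Proof. Put `f i = rO (pderiv (Sum.inr (none, i)) y)`. The derivative of `y` has weight
`((0, 0), M - 2 ^ i)`, so `jO (f i) = pderiv (Sum.inr (none, i)) y` (`jO_rO`), and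
`y = ∑ i, jO (f i) * w_i` (every monomial of `y` contains exactly one variable `inr (none, i)`,
with exponent one, since the class of its weight is `(0, 1)`); `r` bounds the indices of the
variables of `y`. `dc 2 y = face 0 y + face 1 y + face 2 y = 0`. Apply
`pderiv (Sum.inr (none, j))`. `face 0 (jO (f i) * w_i) = jO (sh 1 (f i)) * act(g_0) w_i`, with
derivative `jO (sh 1 (f i)) * (gG 0).co (i - j) ^ 2 ^ j` if `j ≤ i`, and `0` otherwise;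
`face k (jO (f i) * w_i) = jO (face k (f i)) * w_i` for `k = 1, 2`, with derivative
`jO (face k (f i))` if `i = j`, and `0` otherwise. The term `i = j` of the first sum and the two
others give `jO (dE 2 (f j))`, hence the formula for `dE 2 (f j)` (`jO` is injective, `rO_jO`). -/
def S_Coef : Prop := ∀ M : ℤ, ∀ y ∈ CW 1 2 M, dc 2 y = 0 → ∃ (r : ℕ) (f : ℕ → RR Empty),
  Cf M r f ∧ y = ∑ i ∈ Finset.range r, jO (f i) * gW none i

/-- The coefficients of the coboundary of `w_b`.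

Proof. `(gG 0).co n` is in `lev 2`, of weight `2 ^ n - 1`; `2 ^ i (2 ^ (b - i) - 1) = 2 ^ b - 2 ^ i`.
For `b ≤ i` the element is `0`. `dE 2 ((gG 0).co n) = ∑ (gG 1).co p ^ 2 ^ q * (gG 0).co q` over
`p + q = n`, `p, q ≥ 1` (`face 1` gives the product `gG 1 * gG 0`, the terms `q = 0` and `p = 0` are
the faces `0` and `2`), and `dE 2` commutes with `2 ^ j`-th powers (`dR_pow`); with `n = b - j`,
`q = i - j`, `p = b - i` this is the formula. The second claim: `dc 1 (gW none b) =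
act(g_0) w_b + w_b = ∑ i < b, (gG 0).co (b - i) ^ 2 ^ i * w_i`. -/
def S_Cwb : Prop := ∀ b : ℕ, Cf (2 ^ b) b (cw b) ∧
  dc 1 (gW none b) = ∑ i ∈ Finset.range b, jO (cw b i) * gW none i

/-- The Massey product `⟨h_(k+1), h_k, …⟩`: no cocycle with top coefficient `h_k w_(k+2)`.

Proof. Let `q = 2 ^ k`, `A = h0c`, `B = sh 1 h0c`, `P = x2c`, `Q = sh 1 x2c`. By `x2c_d` and
`h0c_cube_d`, `dE 2 ((A ^ 3 + P) ^ q) = (A ^ 2 * B) ^ q = ha (k + 1) * sh 1 (ha k)`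
(`dR_pow`). So `u + (A ^ 3 + P) ^ q` is in `ZR 1 (3 * 2 ^ k)` and is `0` by `ZR_one'`. Hence
`dE 2 v = (A * (B ^ 3 + Q)) ^ q + (P * B) ^ q`, as `(gG 0).co 2 = x2c`. Now
`dE 2 (A * P) = B * Q + (A + B) * (P + Q + A * B ^ 2) + A * P =
A * Q + A ^ 2 * B ^ 2 + B * P + A * B ^ 3` (`face 1 x2c = P + Q + A * B ^ 2`, see the proof of
`x2c_d`). So `dE 2 (v + (A * P) ^ q) = (A ^ 2 * B ^ 2) ^ q = ha (k + 1) * sh 1 (ha (k + 1))
= dl 1 (ha (k + 1))`, which is not in `BR 2 (2 * 2 ^ (k + 1))` (`dl_ha`, `dl_one`). -/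
def S_Mas : Prop := ∀ (k : ℕ) (u v : RR Empty), u ∈ lev Empty 2 → WH wE u (0, 3 * 2 ^ k) →
  dE 2 u = ha (k + 1) * sh 1 (ha k) → v ∈ lev Empty 2 → WH wE v (0, 4 * 2 ^ k) →
  dE 2 v = ha k * sh 1 u + (gG (ι := Empty) 0).co 2 ^ 2 ^ k * sh 1 (ha k) → False

/-- The top coefficient of a nonzero cocycle.

Proof. Let `r0` be the largest index with `f r0 ≠ 0` (it is `< r`). By `dd`, `dE 2 (f r0) = 0`, so
`f r0` is in `ZR 1 (M - 2 ^ r0)`. If `M - 2 ^ r0 > 0`, it is a power of two `2 ^ b` and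
`f r0 = ha b` (`ZR_one'`, `ZR_one`). If `M - 2 ^ r0 = 0`, `f r0` is a constant `C c`
(`wh_const`), `dE 2 (C c) = C (3 c) = C c` (`dE_C`), so it is `0`, contradiction. If
`M - 2 ^ r0 < 0`, `f r0 = 0` since all weights are `≥ 0` (`wh_neg`), contradiction. -/
def S_Top : Prop := ∀ (M : ℤ) (r : ℕ) (f : ℕ → RR Empty), Cf M r f → (∀ i, f i = 0) ∨
  ∃ r0 b : ℕ, r0 < r ∧ (∀ i, r0 < i → f i = 0) ∧ M = 2 ^ r0 + 2 ^ b ∧ f r0 = ha b

/-- Classification of the cocycles with values in `W`.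

Proof. Take `r0`, `b` from `S_Top`. If `r0 = 0`: `b = 0` gives `M = 2` and `f = cw 1` (the second
case), `b ≥ 1` the third case. Let `r0 ≥ 1`. By `dd` for `j = r0 - 1`,
`dE 2 (f (r0 - 1)) = ha (r0 - 1) * sh 1 (ha b)` (only `i = r0` contributes;
`(gG 0).co 1 = h0c`), of weight `M - 2 ^ (r0 - 1) = 2 ^ (r0 - 1) + 2 ^ b`, so by `S_Nv`
`r0 - 1 = b + 1` or `b = r0`. If `r0 = b + 2`: `S_Mas` with `k = b`, `u = f (b + 1)`,
`v = f b` (`dd` for `j = b`: the indices `i = b + 1`, `b + 2`) is a contradiction. If `b = r0`: `M =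
2 ^ (r0 + 1)`, and `f' i = f i + cw (r0 + 1) i` satisfies `Cf M (r + r0 + 1) f'` (`S_Cwb`; `Cf` is
additive, and one may enlarge `r` since the new terms have `f i = 0`). `f' r0 = ha r0 +
(gG 0).co 1 ^ 2 ^ r0 = 0` and `f' i = 0` for `i > r0`. If `f'` is not `0`, `S_Top` gives `r1`, `b1`
with `f' r1 = ha b1 ≠ 0`, so `r1 < r0` and `2 ^ (r0 + 1) = 2 ^ r1 + 2 ^ b1`, which implies
`r1 = b1 = r0`, contradiction. So `f = cw (r0 + 1)`. -/
def S_Alg : Prop := S_Top → S_Cwb → S_Mas →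
  (∀ a b : ℕ, ha a * sh 1 (ha b) ∈ BR 2 (2 ^ a + 2 ^ b) → a = b + 1 ∨ b = a + 1) →
  ∀ (M : ℤ) (r : ℕ) (f : ℕ → RR Empty), Cf M r f → (∀ i, f i = 0) ∨
  (∃ b : ℕ, M = 2 ^ b ∧ ∀ i, f i = cw b i) ∨
  ∃ b : ℕ, 1 ≤ b ∧ M = 2 ^ b + 1 ∧ f 0 = ha b ∧ ∀ i, 1 ≤ i → f i = 0

/-- The first cohomology of `W`.

Proof. `S_Coef` and `S_Alg` (its last hypothesis is the conclusion of `S_Nv`). If `f = 0` then
`y = 0 = dc 1 0`. If `f = cw b`, `M = 2 ^ b`, then `y = dc 1 (gW none b)` by `S_Cwb` (the terms with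
`i ≥ b` vanish; compare the sums over `range r` and `range b` by `range (r + b)`), and `gW none b` is
in `CW 1 1 (2 ^ b)`. In the third case `y = jO (ha b) * gW none 0 =
X (Sum.inl (0, 0)) ^ 2 ^ b * gW none 0`. -/
def S_HW : Prop := S_Coef → S_Cwb → (∀ (M : ℤ) (r : ℕ) (f : ℕ → RR Empty), Cf M r f →
    (∀ i, f i = 0) ∨ (∃ b : ℕ, M = 2 ^ b ∧ ∀ i, f i = cw b i) ∨
    ∃ b : ℕ, 1 ≤ b ∧ M = 2 ^ b + 1 ∧ f 0 = ha b ∧ ∀ i, 1 ≤ i → f i = 0) →
  ∀ M : ℤ, ∀ y ∈ CW 1 2 M, dc 2 y = 0 → (∃ e ∈ CW 1 1 M, dc 1 e = y) ∨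
    ∃ d : ℕ, 1 ≤ d ∧ M = 2 ^ d + 1 ∧ y = X (Sum.inl (0, 0)) ^ 2 ^ d * gW none 0

/-- The 2-line in odd degrees.

Proof. Take `G`, `y` from `S_SymEx`, `x' = x + dE 2 G`, in `ZR 2`. By the classification `y` is a
coboundary, and `x'` is in `BR` by `S_SymCob`; or `y = X (inl (0, 0)) ^ 2 ^ d * w_0`,
`M = 2 ^ d + 1`, `d ≥ 1`. Then `x' + ha 0 * sh 1 (ha (d + 1))` has the symbol `y + y = 0`
(`S_SymH`; `DQ`, `EQ`, `dQ`, `TQ` are additive), a coboundary, so it is in `BR` by `S_SymCob`; and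
`2 M - 1 = 1 + 2 ^ (d + 1)`. By `S_ComO`, `x + ha (d + 1) * sh 1 (ha 0)` is in `BR`; `b = d + 1`. -/
def S_OddL : Prop := S_SymEx → S_SymCob → S_SymH → S_ComO →
  (∀ M : ℤ, ∀ y ∈ CW 1 2 M, dc 2 y = 0 → (∃ e ∈ CW 1 1 M, dc 1 e = y) ∨
    ∃ d : ℕ, 1 ≤ d ∧ M = 2 ^ d + 1 ∧ y = X (Sum.inl (0, 0)) ^ 2 ^ d * gW none 0) →
  ∀ M : ℤ, ∀ x ∈ ZR 2 (2 * M - 1), x ∈ BR 2 (2 * M - 1) ∨
    ∃ b : ℕ, 2 ≤ b ∧ 2 * M - 1 = 1 + 2 ^ b ∧ x + ha b * sh 1 (ha 0) ∈ BR 2 (2 * M - 1)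

/-- The 2-line in degree 2.

Proof. `x` is in `lev 3` (slots `0`, `1`) of weight `2`; `ξ_n` has weight `≥ 3` for `n ≥ 2`, so the
monomials of `x` are `A ^ 2`, `A * B`, `B ^ 2` with `A = X (inl (0, 0))`, `B = X (inl (1, 0))`:
`x = α A ^ 2 + β A B + γ B ^ 2`. Evaluate `dE 3 x = 0` with `ev (fun k => Cob.dl 1 (c k)) _` in
`ZMod 2`, `c 0 = a`, `c 1 = b`, `c 2 = c` (only the coordinate `co 1` matters, and
`(g * h).co 1 = g.co 1 + h.co 1`): `x(b, c) + x(a + b, c) + x(a, b + c) + x(a, b) =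
α a ^ 2 + γ c ^ 2 = 0`. `(a, b, c) = (1, 0, 0)` gives `α = 0`, `(0, 0, 1)` gives `γ = 0`. So
`x = β A B`, and `A * B = bb 0`; `β = 0` or `1`. -/
def S_DegB : Prop := ∀ x ∈ ZR 2 2, x ∈ BR 2 2 ∨ x + bb 0 ∈ BR 2 2

/-- `TwoSpan` from the parts.

Proof. Strong induction on `T.toNat`. If `T` is odd, `T = 2 M - 1`: `S_OddL`, with `a = 0`. If
`T = 2`: `S_DegB`, `a = b = 0`. If `T = 2 N`, `N > 1`: by `Surj0 2 N`, `x = y ^ 2 + dE 2 G` with `y`
in `ZR 2 N`; by induction `y` is in `BR 2 N`, then `x` is in `BR` (`sq_BR`), or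
`y + ha b * sh 1 (ha a)` is in `BR 2 N`, then `y ^ 2 + ha (b + 1) * sh 1 (ha (a + 1))` is in
`BR 2 (2 N)` (`sq_BR`, `sq_add`), and `2 N = 2 ^ (a + 1) + 2 ^ (b + 1)`. -/
def S_SpanR : Prop := S_Sur → S_DegB → (∀ M : ℤ, ∀ x ∈ ZR 2 (2 * M - 1), x ∈ BR 2 (2 * M - 1) ∨
    ∃ b : ℕ, 2 ≤ b ∧ 2 * M - 1 = 1 + 2 ^ b ∧ x + ha b * sh 1 (ha 0) ∈ BR 2 (2 * M - 1)) →
  TwoSpan

/-- `TwoInj` from the parts.

Proof. Strong induction on `T.toNat`; `u` in `ZR 2 T` with `dl 2 u` in `BR 3 (2 T)`. If `T` is odd: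
`S_InjOdd`. If `T = 2 N`, then `N > 1` is not a power of two. By `Surj0 2 N`,
`u = y ^ 2 + dE 2 G`, `y` in `ZR 2 N`. `dl 2 (y ^ 2) = (dl 2 y) ^ 2` (`dl_sq`) is in `BR 3 (4 N)`
(`(dlOp 2 _).congr`), so `dl 2 y` is in `BR 3 (2 N)` by `Inj0 3 (2 N)`, `y` is in `BR 2 N` by
induction, and `u` is in `BR`. -/
def S_InjR : Prop := S_Sur → (∀ M : ℤ, A0 2 (2 * M - 1)) → TwoInj

/-- `TwoPow` from `TwoSpan`.

Proof. `2 ^ (a + 1) = 2 ^ c + 2 ^ d` with `c = d` gives `c = a`, and `bb a = ha a * sh 1 (ha a)`;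
`c + 2 ≤ d` is impossible (`2 ^ d < 2 ^ c + 2 ^ d < 2 ^ (d + 1)`). -/
def S_PowR : Prop := TwoSpan → TwoPow

end

end Pool.Agent.Work.MP_701abf_gt.Sq2.FL
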